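import Pool.Agent.Y183.PQ.L
set_option autoImplicit false

/-! Phases of one variable; reduction of the sup bound to two variables. -/

namespace Pool.Agent.Y183.PR

open MeasureTheory Set Filter Topology Complex
open scoped ENNReal NNReal
open Pool.Agent.Y183.PP
open Pool.Agent.W771.MD (qe em)
open Pool.Agent.Y183.LS (BA)

/-- phases of one variable -/
noncomputable def e1 (R : Polynomial ℝ) (x : ℝ) : ℂ := cexp (((R.eval x : ℝ) : ℂ) * I)

lemma e1_norm (R : Polynomial ℝ) (x : ℝ) : ‖e1 R x‖ = 1 := Complex.norm_exp_ofReal_mul_I _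

lemma e1_cont (R : Polynomial ℝ) : Continuous (e1 R) :=
  Complex.continuous_exp.comp ((Complex.continuous_ofReal.comp R.continuous).mul continuous_const)

/-- `R (x) + R (y)` -/
noncomputable def dbl (R : Polynomial ℝ) : Poly :=
  Polynomial.aeval (MvPolynomial.X 0 : Poly) R + Polynomial.aeval (MvPolynomial.X 1 : Poly) R

lemma ev_aeval (R : Polynomial ℝ) (i : Fin 2) (z : ℝ × ℝ) :
    ev (Polynomial.aeval (MvPolynomial.X i : Poly) R) z = R.eval (![z.1, z.2] i) := by
  unfold ev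
  induction R using Polynomial.induction_on' with
  | add p q hp hq => simp [hp, hq]
  | monomial n a => simp [Polynomial.aeval_monomial]

lemma ev_dbl (R : Polynomial ℝ) (z : ℝ × ℝ) : ev (dbl R) z = R.eval z.1 + R.eval z.2 := by
  unfold dbl
  rw [ev_add, ev_aeval, ev_aeval]
  rfl

lemma deg_aeval {D : ℕ} {R : Polynomial ℝ} (hR : R.natDegree ≤ D) (i : Fin 2) :
    (Polynomial.aeval (MvPolynomial.X i : Poly) R).totalDegree ≤ D := by
  rw [Polynomial.aeval_eq_sum_range]
  refine (MvPolynomial.totalDegree_finsetSum _ _).trans (Finset.sup_le ?_)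
  intro k hk
  refine (MvPolynomial.totalDegree_smul_le _ _).trans ?_
  rw [MvPolynomial.totalDegree_X_pow]
  rw [Finset.mem_range] at hk
  omega

lemma deg_dbl {D : ℕ} {R : Polynomial ℝ} (hR : R.natDegree ≤ D) : (dbl R).totalDegree ≤ D :=
  deg_add (deg_aeval hR 0) (deg_aeval hR 1)

lemma ex_dbl (R : Polynomial ℝ) (z : ℝ × ℝ) : ex (dbl R) z = e1 R z.1 * e1 R z.2 := by
  unfold ex e1
  rw [← Complex.exp_add, ev_dbl]
  congr 1
  push_cast
  ring

lemma pd_aeval_self (R : Polynomial ℝ) (i : Fin 2) :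
    MvPolynomial.pderiv i (Polynomial.aeval (MvPolynomial.X i : Poly) R) =
      Polynomial.aeval (MvPolynomial.X i : Poly) (Polynomial.derivative R) := by
  rw [Derivation.map_aeval, MvPolynomial.pderiv_X_self, smul_eq_mul, mul_one]

lemma pd_aeval_ne (R : Polynomial ℝ) (i j : Fin 2) (h : j ≠ i) :
    MvPolynomial.pderiv i (Polynomial.aeval (MvPolynomial.X j : Poly) R) = 0 := by
  rw [Derivation.map_aeval, MvPolynomial.pderiv_X_of_ne h, smul_zero]

lemma pxx_dbl (R : Polynomial ℝ) (z : ℝ × ℝ) : ev (pxx (dbl R)) z =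
    (Polynomial.derivative (Polynomial.derivative R)).eval z.1 := by
  unfold pxx dbl
  rw [map_add, map_add, pd_aeval_self, pd_aeval_self, pd_aeval_ne R 0 1 (by decide), map_zero,
    add_zero, ev_aeval]
  rfl

lemma pyy_dbl (R : Polynomial ℝ) (z : ℝ × ℝ) : ev (pyy (dbl R)) z =
    (Polynomial.derivative (Polynomial.derivative R)).eval z.2 := by
  unfold pyy dbl
  rw [map_add, map_add, pd_aeval_self, pd_aeval_self, pd_aeval_ne R 1 0 (by decide), map_zero,
    zero_add, ev_aeval]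
  rfl

lemma pxy_dbl (R : Polynomial ℝ) (z : ℝ × ℝ) : ev (pxy (dbl R)) z = 0 := by
  unfold pxy dbl
  rw [map_add, map_add, pd_aeval_self, pd_aeval_ne R 0 1 (by decide), map_zero,
    add_zero, pd_aeval_ne _ 1 0 (by decide)]
  simp [ev]

/-- the set of nondegeneracy in one variable -/
def B1 (R : Polynomial ℝ) (s t : ℝ) : Set ℝ :=
  {x | s ^ 2 < ((Polynomial.derivative (Polynomial.derivative R)).eval x + 4 * Real.pi * t) ^ 2}

lemma BB_dbl (R : Polynomial ℝ) (s t : ℝ) (z : ℝ × ℝ) :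
    z ∈ BB (dbl R) s t ↔ z.1 ∈ B1 R s t ∧ z.2 ∈ B1 R s t := by
  simp only [BB, B1, mem_ofPred_eq, ev_mt, ev_md, pxx_Ph, pyy_Ph, pxy_Ph, pxx_dbl, pyy_dbl, pxy_dbl]
  set a := (Polynomial.derivative (Polynomial.derivative R)).eval z.1 + 4 * Real.pi * t
  set c := (Polynomial.derivative (Polynomial.derivative R)).eval z.2 + 4 * Real.pi * t
  constructor
  · rintro ⟨h1, h2⟩
    have h3 : 0 < (a ^ 2 - s ^ 2) * (c ^ 2 - s ^ 2) := by nlinarith
    rcases pos_and_pos_or_neg_and_neg_of_mul_pos h3 with h | h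
    · exact ⟨by linarith [h.1], by linarith [h.2]⟩
    · exfalso
      nlinarith [h.1, h.2]
  · rintro ⟨h1, h2⟩
    refine ⟨by nlinarith, ?_⟩
    have h3 := mul_pos (sub_pos.mpr h1) (sub_pos.mpr h2)
    nlinarith

lemma B1_diag (R : Polynomial ℝ) (s t x : ℝ) : x ∈ B1 R s t ↔ (x, x) ∈ BB (dbl R) s t := by
  rw [BB_dbl]
  simp

lemma B1_meas (R : Polynomial ℝ) (s t : ℝ) : MeasurableSet (B1 R s t) := by
  have h : Measurable fun x : ℝ => ((x, x) : ℝ × ℝ) := by fun_prop
  have e : B1 R s t = (fun x : ℝ => ((x, x) : ℝ × ℝ)) ⁻¹' (BB (dbl R) s t) := by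
    ext x
    exact B1_diag R s t x
  rw [e]
  exact h (BB_meas _ _ _)

/-- the interval -/
abbrev I1 : Set ℝ := Icc (-1 : ℝ) 1

/-- the integral over a superlevel set -/
noncomputable def sl (R : Polynomial ℝ) (s y t : ℝ) : ℂ :=
  ∫ x in I1 ∩ B1 R s t, e1 R x * qe y t x

lemma qe_cont (y t : ℝ) : Continuous (qe y t) := by
  unfold Pool.Agent.W771.MD.qe
  fun_prop

lemma e1q_norm (R : Polynomial ℝ) (y t x : ℝ) : ‖e1 R x * qe y t x‖ = 1 := by
  rw [norm_mul, e1_norm, Pool.Agent.W771.MD.qe_norm, mul_one]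

lemma ex_Ph_dbl (R : Polynomial ℝ) (y t : ℝ) (z : ℝ × ℝ) : ex (Ph (dbl R) (y, y) t) z =
    (e1 R z.1 * qe y t z.1) * (e1 R z.2 * qe y t z.2) := by
  rw [Pool.Agent.Y183.PQ.ex_Ph0, ex_dbl]
  ring

/-- the square of the integral -/
lemma sl_sq (R : Polynomial ℝ) (s y t : ℝ) : sl R s y t ^ 2 =
    ∫ z in SQ, (BB (dbl R) s t).indicator (fun z => ex (Ph (dbl R) (y, y) t) z) z := by
  set A : Set ℝ := I1 ∩ B1 R s t with hA
  have hAm : MeasurableSet A := measurableSet_Icc.inter (B1_meas R s t)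
  have e0 : SQ ∩ BB (dbl R) s t = A ×ˢ A := by
    ext z
    simp only [mem_inter_iff, mem_prod, BB_dbl, SQ, hA]
    tauto
  rw [← integral_indicator SQ_meas, indicator_indicator, e0, integral_indicator (hAm.prod hAm),
    Measure.volume_eq_prod]
  simp only [ex_Ph_dbl]
  have h := setIntegral_prod_mul (μ := (volume : Measure ℝ)) (ν := (volume : Measure ℝ))
    (fun x => e1 R x * qe y t x) (fun x => e1 R x * qe y t x) A A
  rw [h, sq]
  rfl

/-- the sup bound of a superlevel set -/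
lemma sl_bound {D : ℕ} {R : Polynomial ℝ} (hR : R.natDegree ≤ D) (j : ℕ) (y t : ℝ) :
    ‖sl R (2 ^ j) y t‖ ≤ √(SS D 1 (j + 1)) := by
  apply Real.le_sqrt_of_sq_le
  rw [← norm_pow, sl_sq]
  obtain ⟨N, hN⟩ := BB_empty (dbl R) t
  have e1 : ∫ z in SQ, (BB (dbl R) (2 ^ j) t).indicator
      (fun z => ex (Ph (dbl R) (y, y) t) z) z =
      ∫ z in SQ, (Reg (2 ^ j) (2 ^ N) (Ph (dbl R) (y, y) t)).indicator
        (fun z => 1 * ex (Ph (dbl R) (y, y) t) z) z := by
    apply setIntegral_congr_fun SQ_meas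
    intro z hz
    simp only [one_mul]
    rw [Reg_Ph]
    by_cases h : z ∈ BB (dbl R) (2 ^ j) t
    · rw [indicator_of_mem h, indicator_of_mem (show z ∈ BB (dbl R) (2 ^ j) t \ BB (dbl R) (2 ^ N) t
        from ⟨h, hN z hz⟩)]
    · rw [indicator_of_notMem h, indicator_of_notMem (fun h' => h h'.1)]
  rw [e1]
  have h1 := supb (deg_Ph (deg_dbl hR) (y, y) t) j (2 ^ N) (fun _ => 1) measurable_const 1
    zero_le_one (fun _ => by simp) (fun y => by simp [eVariationOn.constant_on]) (fun x => by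
      simp [eVariationOn.constant_on])
  rw [← ofReal_norm] at h1
  have h2 := c2_nonneg (D + 2)
  exact (ENNReal.ofReal_le_ofReal_iff (by simp only [SS]; positivity)).mp h1

/-- the pieces of the line -/
def A1 (R : Polynomial ℝ) (t : ℝ) (k : ℕ) : Set ℝ := {x | (x, x) ∈ AA (dbl R) t k}

lemma A1_zero (R : Polynomial ℝ) (t : ℝ) : A1 R t 0 = (B1 R 1 t)ᶜ := by
  ext x
  simp only [A1, AA, mem_ofPred_eq, mem_compl_iff, B1_diag]

lemma A1_succ (R : Polynomial ℝ) (t : ℝ) (j : ℕ) :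
    A1 R t (j + 1) = B1 R (2 ^ j) t \ B1 R (2 ^ (j + 1)) t := by
  ext x
  simp only [A1, AA, mem_ofPred_eq, Set.mem_sdiff, B1_diag]

lemma A1_meas (R : Polynomial ℝ) (t : ℝ) (k : ℕ) : MeasurableSet (A1 R t k) := by
  have h : Measurable fun x : ℝ => ((x, x) : ℝ × ℝ) := by fun_prop
  exact h (AA_meas _ _ _)

lemma I1_vol : volume I1 = 2 := by
  rw [Real.volume_Icc]
  norm_num

/-- the sup bound of a piece of the line -/
lemma sup_line {D : ℕ} {R : Polynomial ℝ} (hR : R.natDegree ≤ D) (y t : ℝ) (k : ℕ) :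
    ‖∫ x, (I1 ∩ A1 R t k).indicator (fun x => e1 R x * qe y t x) x‖ ≤ 2 * √(SS D 1 k) := by
  rw [integral_indicator (measurableSet_Icc.inter (A1_meas R t k))]
  have hcont : Continuous fun x => e1 R x * qe y t x := (e1_cont R).mul (qe_cont y t)
  have hf : IsFiniteMeasure ((volume : Measure ℝ).restrict I1) := ⟨by
    rw [Measure.restrict_apply_univ, I1_vol]
    norm_num⟩
  have hint : ∀ A : Set ℝ, A ⊆ I1 → IntegrableOn (fun x => e1 R x * qe y t x) A := fun A hA =>
    (hcont.integrableOn_Icc).mono_set hA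
  cases k with
  | zero =>
    have h0 : SS D 1 0 = 4 := by simp [SS]
    rw [h0, show (4 : ℝ) = 2 ^ 2 by norm_num, Real.sqrt_sq (by norm_num)]
    have h1 : ‖∫ x in I1 ∩ A1 R t 0, e1 R x * qe y t x‖ ≤
        1 * ((volume : Measure ℝ).restrict (I1 ∩ A1 R t 0)).real univ := by
      have : IsFiniteMeasure ((volume : Measure ℝ).restrict (I1 ∩ A1 R t 0)) := ⟨by
        rw [Measure.restrict_apply_univ]
        exact lt_of_le_of_lt (measure_mono inter_subset_left) (by rw [I1_vol]; norm_num)⟩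
      exact norm_integral_le_of_norm_le_const (ae_of_all _ fun x => (e1q_norm R y t x).le)
    refine h1.trans ?_
    rw [one_mul, Measure.real, Measure.restrict_apply_univ]
    have h2 : (volume (I1 ∩ A1 R t 0)).toReal ≤ (volume I1).toReal :=
      ENNReal.toReal_mono (by rw [I1_vol]; norm_num) (measure_mono inter_subset_left)
    rw [I1_vol] at h2
    simp only [ENNReal.toReal_ofNat] at h2
    linarith
  | succ j =>
    have h3 : ∫ x in I1 ∩ A1 R t (j + 1), e1 R x * qe y t x =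
        sl R (2 ^ j) y t - sl R (2 ^ (j + 1)) y t := by
      have hsub : I1 ∩ B1 R (2 ^ (j + 1)) t ⊆ I1 ∩ B1 R (2 ^ j) t := by
        apply inter_subset_inter_right
        intro x hx
        rw [B1_diag] at hx ⊢
        exact BB_anti (dbl R) (2 ^ j) (2 ^ (j + 1)) t (by positivity)
          (pow_le_pow_right₀ (by norm_num) (by omega)) hx
      have h4 := setIntegral_sdiff (μ := (volume : Measure ℝ)) (measurableSet_Icc.inter
        (B1_meas R (2 ^ (j + 1)) t)) (hint _ inter_subset_left) hsub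
      have h5 : I1 ∩ A1 R t (j + 1) = (I1 ∩ B1 R (2 ^ j) t) \ (I1 ∩ B1 R (2 ^ (j + 1)) t) := by
        rw [A1_succ]
        ext x
        simp only [mem_inter_iff, Set.mem_sdiff]
        tauto
      rw [h5, h4]
      rfl
    rw [h3]
    have h6 := sl_bound hR j y t
    have h7 := sl_bound hR (j + 1) y t
    have h8 : √(SS D 1 (j + 1 + 1)) ≤ √(SS D 1 (j + 1)) := by
      apply Real.sqrt_le_sqrt
      simp only [SS]
      have h2 := c2_nonneg (D + 2)
      have h9 : (0 : ℝ) ≤ j := Nat.cast_nonneg j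
      have h10 : (1 + ((j + 1 : ℕ) : ℝ)) / 2 ^ (j + 1) ≤ (1 + (j : ℝ)) / 2 ^ j := by
        rw [div_le_div_iff₀ (by positivity) (by positivity), pow_succ]
        push_cast
        have : (0 : ℝ) < 2 ^ j := by positivity
        nlinarith
      have h11 : 2 * (c2 (D + 2) * 1 * (1 + ((j + 1 : ℕ) : ℝ)) / 2 ^ (j + 1)) =
          2 * c2 (D + 2) * ((1 + ((j + 1 : ℕ) : ℝ)) / 2 ^ (j + 1)) := by ring
      have h12 : 2 * (c2 (D + 2) * 1 * (1 + (j : ℝ)) / 2 ^ j) =
          2 * c2 (D + 2) * ((1 + (j : ℝ)) / 2 ^ j) := by ring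
      rw [h11, h12]
      exact mul_le_mul_of_nonneg_left h10 (by positivity)
    calc ‖sl R (2 ^ j) y t - sl R (2 ^ (j + 1)) y t‖ ≤
        ‖sl R (2 ^ j) y t‖ + ‖sl R (2 ^ (j + 1)) y t‖ := norm_sub_le _ _
      _ ≤ _ := by linarith

end Pool.Agent.Y183.PR
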