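import Pool.Agent.Y183.PR.A
set_option autoImplicit false

/-! Groups of one or two coordinates: products of polynomial phases, the sup bound of a piece. -/

namespace Pool.Agent.Y183.PR

open MeasureTheory Set Filter Topology Complex
open scoped ENNReal NNReal
open Pool.Agent.Y183.PP
open Pool.Agent.W771.MD (qe em)
open Pool.Agent.Y183.LS (BA)

variable {m J I : ℕ}

/-- the grouping of the coordinates: `J` pairs and `I` single coordinates -/
abbrev Ix (J I m : ℕ) : Type := (Fin J ⊕ Fin J) ⊕ Fin I ≃ Fin m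

/-- the polynomials of the pairs and of the single coordinates -/
abbrev Bk (J I : ℕ) : Type := (Fin J → Poly) × (Fin I → Polynomial ℝ)

/-- the degree is at most `D` -/
def Dg (D : ℕ) (φ : Bk J I) : Prop :=
  (∀ j, (φ.1 j).totalDegree ≤ D) ∧ ∀ l, (φ.2 l).natDegree ≤ D

/-- the pairs -/
def Pr (e : Ix J I m) (v : Fin m → ℝ) : Fin J → ℝ × ℝ :=
  fun j => (v (e (Sum.inl (Sum.inl j))), v (e (Sum.inl (Sum.inr j))))

/-- the single coordinates -/
def Qr (e : Ix J I m) (v : Fin m → ℝ) : Fin I → ℝ := fun l => v (e (Sum.inr l))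

lemma PQ_mp (e : Ix J I m) : MeasurePreserving (fun v => (Pr e v, Qr e v)) := by
  have h1 := (volume_measurePreserving_piCongrLeft (fun _ : Fin m => ℝ) e).symm
  have h3 := volume_measurePreserving_sumPiEquivProdPi (fun _ : (Fin J ⊕ Fin J) ⊕ Fin I => ℝ)
  have h4 := volume_measurePreserving_sumPiEquivProdPi (fun _ : Fin J ⊕ Fin J => ℝ)
  have h5 := (volume_measurePreserving_arrowProdEquivProdArrow ℝ ℝ (Fin J)).symm
  have h6 := (h5.comp h4).prod (MeasurePreserving.id (volume : Measure (Fin I → ℝ)))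
  have h7 := (h6.comp h3).comp h1
  exact h7

lemma Pr_meas (e : Ix J I m) (j : Fin J) : Measurable fun v => Pr e v j :=
  (measurable_pi_apply j).comp (measurable_fst.comp (PQ_mp e).measurable)

lemma Qr_meas (e : Ix J I m) (l : Fin I) : Measurable fun v => Qr e v l :=
  (measurable_pi_apply l).comp (measurable_snd.comp (PQ_mp e).measurable)

lemma int_PQ (e : Ix J I m) (F : Fin J → ℝ × ℝ → ℂ) (hF : ∀ j, StronglyMeasurable (F j))
    (G : Fin I → ℝ → ℂ) (hG : ∀ l, StronglyMeasurable (G l)) :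
    ∫ v : Fin m → ℝ, (∏ j, F j (Pr e v j)) * ∏ l, G l (Qr e v l) =
      (∏ j, ∫ z, F j z) * ∏ l, ∫ x, G l x := by
  have h3 := (PQ_mp e).map_eq
  have h4 : StronglyMeasurable fun w : (Fin J → ℝ × ℝ) × (Fin I → ℝ) =>
      (∏ j, F j (w.1 j)) * ∏ l, G l (w.2 l) := by
    apply StronglyMeasurable.mul
    · apply Finset.stronglyMeasurable_fun_prod
      intro j _
      exact (hF j).comp_measurable ((measurable_pi_apply j).comp measurable_fst)
    · apply Finset.stronglyMeasurable_fun_prod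
      intro l _
      exact (hG l).comp_measurable ((measurable_pi_apply l).comp measurable_snd)
  have h5 : ∫ v : Fin m → ℝ, (∏ j, F j (Pr e v j)) * ∏ l, G l (Qr e v l) =
      ∫ w : (Fin J → ℝ × ℝ) × (Fin I → ℝ), (∏ j, F j (w.1 j)) * ∏ l, G l (w.2 l) := by
    rw [← h3, integral_map (PQ_mp e).measurable.aemeasurable h4.aestronglyMeasurable]
  have h6 : ∫ w : Fin J → ℝ × ℝ, ∏ j, F j (w j) = ∏ j, ∫ z, F j z := by
    rw [volume_pi, integral_fintype_prod_eq_prod]
  have h7 : ∫ w : Fin I → ℝ, ∏ l, G l (w l) = ∏ l, ∫ x, G l x := by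
    rw [volume_pi, integral_fintype_prod_eq_prod]
  rw [h5, Measure.volume_eq_prod, integral_prod_mul (fun w : Fin J → ℝ × ℝ => ∏ j, F j (w j))
    (fun w : Fin I → ℝ => ∏ l, G l (w l)), h6, h7]

/-- the twist -/
noncomputable def tw (e : Ix J I m) (φ : Bk J I) (v : Fin m → ℝ) : ℂ :=
  (∏ j, ex (φ.1 j) (Pr e v j)) * ∏ l, e1 (φ.2 l) (Qr e v l)

lemma tw_cont (e : Ix J I m) (φ : Bk J I) : Continuous (tw e φ) := by
  apply Continuous.mul
  · apply continuous_finsetProd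
    intro j _
    apply (ex_cont _).comp
    unfold Pr
    fun_prop
  · apply continuous_finsetProd
    intro l _
    apply (e1_cont _).comp
    unfold Qr
    fun_prop

lemma tw_norm (e : Ix J I m) (φ : Bk J I) (v : Fin m → ℝ) : ‖tw e φ v‖ = 1 := by
  unfold tw
  rw [norm_mul, norm_prod, norm_prod, Finset.prod_eq_one (fun j _ => ex_norm _ _),
    Finset.prod_eq_one (fun l _ => e1_norm _ _), mul_one]

lemma tw_em (e : Ix J I m) (φ : Bk J I) (y : Fin m → ℝ) (t : ℝ)
    (v : Fin m → ℝ) : tw e φ v * em y t v = (∏ j, ex (Ph (φ.1 j) (Pr e y j) t) (Pr e v j)) *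
      ∏ l, (e1 (φ.2 l) (Qr e v l) * qe (Qr e y l) t (Qr e v l)) := by
  have h1 : em y t v = (∏ j, (qe (Pr e y j).1 t (Pr e v j).1 * qe (Pr e y j).2 t (Pr e v j).2)) *
      ∏ l, qe (Qr e y l) t (Qr e v l) := by
    unfold Pool.Agent.W771.MD.em
    rw [← e.prod_comp, Fintype.prod_sum_type, Fintype.prod_sum_type, ← Finset.prod_mul_distrib]
    rfl
  rw [h1]
  unfold tw
  rw [mul_mul_mul_comm, ← Finset.prod_mul_distrib, ← Finset.prod_mul_distrib]
  congr 1
  apply Finset.prod_congr rfl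
  intro j _
  rw [Pool.Agent.Y183.PQ.ex_Ph0]

/-- the product piece -/
def Qs (e : Ix J I m) (φ : Bk J I) (t : ℝ) (i : Fin J ⊕ Fin I → ℕ) :
    Set (Fin m → ℝ) := {v | (∀ j, Pr e v j ∈ SQ ∩ AA (φ.1 j) t (i (Sum.inl j))) ∧
      ∀ l, Qr e v l ∈ I1 ∩ A1 (φ.2 l) t (i (Sum.inr l))}

lemma Qs_meas (e : Ix J I m) (φ : Bk J I) (t : ℝ) (i : Fin J ⊕ Fin I → ℕ) :
    MeasurableSet (Qs e φ t i) := by
  have : Qs e φ t i = (⋂ j, (fun v => Pr e v j) ⁻¹' (SQ ∩ AA (φ.1 j) t (i (Sum.inl j)))) ∩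
      ⋂ l, (fun v => Qr e v l) ⁻¹' (I1 ∩ A1 (φ.2 l) t (i (Sum.inr l))) := by
    ext v; simp [Qs]
  rw [this]
  exact (MeasurableSet.iInter fun j => Pr_meas e j (SQ_meas.inter (AA_meas _ _ _))).inter
    (MeasurableSet.iInter fun l => Qr_meas e l (measurableSet_Icc.inter (A1_meas _ _ _)))

lemma mem_SQ (e : Ix J I m) (v : Fin m → ℝ) :
    v ∈ BA 1 m ↔ (∀ j, Pr e v j ∈ SQ) ∧ ∀ l, Qr e v l ∈ I1 := by
  constructor
  · intro h
    exact ⟨fun j => ⟨⟨h.1 _, h.2 _⟩, ⟨h.1 _, h.2 _⟩⟩, fun l => ⟨h.1 _, h.2 _⟩⟩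
  · intro h
    have h3 : ∀ k, -1 ≤ v k ∧ v k ≤ 1 := by
      intro k
      obtain ⟨k', rfl⟩ := e.surjective k
      rcases k' with (j | j) | l
      · exact ⟨(h.1 j).1.1, (h.1 j).1.2⟩
      · exact ⟨(h.1 j).2.1, (h.1 j).2.2⟩
      · exact ⟨(h.2 l).1, (h.2 l).2⟩
    exact ⟨fun k => (h3 k).1, fun k => (h3 k).2⟩

lemma Qs_sub (e : Ix J I m) (φ : Bk J I) (t : ℝ) (i : Fin J ⊕ Fin I → ℕ) :
    Qs e φ t i ⊆ BA 1 m := fun v hv => (mem_SQ e v).2 ⟨fun j => (hv.1 j).1, fun l => (hv.2 l).1⟩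

/-- the bound of a piece -/
noncomputable def S2 (D : ℕ) (i : Fin J ⊕ Fin I → ℕ) : ℝ :=
  (∏ j, SS D 1 (i (Sum.inl j))) * ∏ l, (2 * √(SS D 1 (i (Sum.inr l))))

lemma S2_nonneg (D : ℕ) (i : Fin J ⊕ Fin I → ℕ) : 0 ≤ S2 D i := by
  unfold S2
  apply mul_nonneg
  · exact Finset.prod_nonneg fun j _ => SS_nonneg D 1 zero_le_one _
  · exact Finset.prod_nonneg fun l _ => by positivity

/-- **the sup bound of a product piece** -/
lemma sup1 {D : ℕ} (e : Ix J I m) {φ : Bk J I} (hφ : Dg D φ) (y : Fin m → ℝ) (t : ℝ)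
    (i : Fin J ⊕ Fin I → ℕ) :
    ‖∫ v in Qs e φ t i, tw e φ v * em y t v‖ ≤ S2 D i := by
  have h1 : ∀ v : Fin m → ℝ, (Qs e φ t i).indicator (fun v => tw e φ v * em y t v) v =
      (∏ j, (SQ ∩ AA (φ.1 j) t (i (Sum.inl j))).indicator
        (fun z => ex (Ph (φ.1 j) (Pr e y j) t) z) (Pr e v j)) *
      ∏ l, (I1 ∩ A1 (φ.2 l) t (i (Sum.inr l))).indicator
        (fun x => e1 (φ.2 l) x * qe (Qr e y l) t x) (Qr e v l) := by
    intro v
    by_cases h : v ∈ Qs e φ t i
    · rw [indicator_of_mem h, tw_em]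
      congr 1
      · apply Finset.prod_congr rfl
        intro j _
        rw [indicator_of_mem (h.1 j)]
      · apply Finset.prod_congr rfl
        intro l _
        rw [indicator_of_mem (h.2 l)]
    · rw [indicator_of_notMem h]
      by_cases h2 : ∃ j, Pr e v j ∉ SQ ∩ AA (φ.1 j) t (i (Sum.inl j))
      · obtain ⟨j, hj⟩ := h2
        rw [Finset.prod_eq_zero (Finset.mem_univ j), zero_mul]
        rw [indicator_of_notMem hj]
      · push Not at h2
        have h3 : ∃ l, Qr e v l ∉ I1 ∩ A1 (φ.2 l) t (i (Sum.inr l)) := by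
          by_contra hc
          push Not at hc
          exact h ⟨h2, hc⟩
        obtain ⟨l, hl⟩ := h3
        have h0 : ∏ l, (I1 ∩ A1 (φ.2 l) t (i (Sum.inr l))).indicator
            (fun x => e1 (φ.2 l) x * qe (Qr e y l) t x) (Qr e v l) = 0 := by
          apply Finset.prod_eq_zero (Finset.mem_univ l)
          rw [indicator_of_notMem hl]
        rw [h0, mul_zero]
  rw [← integral_indicator (Qs_meas e φ t i)]
  simp only [h1]
  rw [int_PQ e (fun j => (SQ ∩ AA (φ.1 j) t (i (Sum.inl j))).indicator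
    (fun z => ex (Ph (φ.1 j) (Pr e y j) t) z)) ?_ (fun l => (I1 ∩ A1 (φ.2 l) t
      (i (Sum.inr l))).indicator (fun x => e1 (φ.2 l) x * qe (Qr e y l) t x)) ?_,
      norm_mul, norm_prod, norm_prod]
  · unfold S2
    apply mul_le_mul
    · apply Finset.prod_le_prod (fun _ _ => norm_nonneg _)
      intro j _
      exact Pool.Agent.Y183.PQ.sup_one (hφ.1 j) _ t _
    · apply Finset.prod_le_prod (fun _ _ => norm_nonneg _)
      intro l _
      exact sup_line (hφ.2 l) _ t _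
    · exact Finset.prod_nonneg fun _ _ => norm_nonneg _
    · exact Finset.prod_nonneg fun j _ => SS_nonneg D 1 zero_le_one _
  · intro j
    exact ((ex_cont _).measurable.indicator (SQ_meas.inter (AA_meas _ _ _))).stronglyMeasurable
  · intro l
    exact (((e1_cont _).mul (qe_cont _ _)).measurable.indicator
      (measurableSet_Icc.inter (A1_meas _ _ _))).stronglyMeasurable

end Pool.Agent.Y183.PR
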