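import Pool.Agent.Y183.PR.B
set_option autoImplicit false

/-! The estimate for fixed time. -/

namespace Pool.Agent.Y183.PR

open MeasureTheory Set Filter Topology Complex
open scoped ENNReal NNReal
open Pool.Agent.Y183.PP
open Pool.Agent.W771.MD (qe em)
open Pool.Agent.Y183.LS (BA BA1_vol)
open Pool.Agent.Y183.PQ (Av AvS Av_sq Av_meas AvS_meas AvS_int sm_meas BA1_fin em_contV em_mul sup2
  L2Q Av_L2 Av_memLp Av_intOn sup3 interp3)

variable {m J I : ℕ}

/-- the decomposition of the cube -/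
lemma dec (e : Ix J I m) (φ : Bk J I) (t : ℝ) :
    ∃ F : Finset (Fin J ⊕ Fin I → ℕ), ∀ (g : (Fin m → ℝ) → ℂ) (v : Fin m → ℝ), v ∈ BA 1 m →
      g v = ∑ i ∈ F, (Qs e φ t i).indicator g v := by
  choose N hN using fun j => BB_empty (φ.1 j) t
  choose M hM using fun l => BB_empty (dbl (φ.2 l)) t
  refine ⟨Fintype.piFinset fun b => Finset.range (Sum.elim N M b + 1), ?_⟩
  intro g v hv
  rw [mem_SQ e] at hv
  set f : Fin J ⊕ Fin I → ℕ → ℂ := Sum.elim
    (fun j k => (AA (φ.1 j) t k).indicator (fun _ => (1 : ℂ)) (Pr e v j))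
    (fun l k => (A1 (φ.2 l) t k).indicator (fun _ => (1 : ℂ)) (Qr e v l)) with hf
  have h1 : ∀ b, ∑ k ∈ Finset.range (Sum.elim N M b + 1), f b k = 1 := by
    rintro (j | l)
    · simp only [hf, Sum.elim_inl]
      rw [← AA_sum (φ.1 j) t (fun _ => 1) (N j), indicator_of_mem (hN j _ (hv.1 j))]
    · simp only [hf, Sum.elim_inr]
      have e3 : ∀ k, (A1 (φ.2 l) t k).indicator (fun _ => (1 : ℂ)) (Qr e v l) =
          (AA (dbl (φ.2 l)) t k).indicator (fun _ => (1 : ℂ)) (Qr e v l, Qr e v l) := by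
        intro k
        by_cases h : (Qr e v l, Qr e v l) ∈ AA (dbl (φ.2 l)) t k
        · rw [indicator_of_mem h, indicator_of_mem (show Qr e v l ∈ A1 (φ.2 l) t k from h)]
        · rw [indicator_of_notMem h, indicator_of_notMem (show Qr e v l ∉ A1 (φ.2 l) t k from h)]
      simp only [e3]
      rw [← AA_sum (dbl (φ.2 l)) t (fun _ => 1) (M l),
        indicator_of_mem (hM l _ ⟨hv.2 l, hv.2 l⟩)]
  have h2 : ∑ i ∈ Fintype.piFinset fun b => Finset.range (Sum.elim N M b + 1), ∏ b, f b (i b)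
      = 1 := by
    have h0 := Finset.prod_univ_sum (fun b => Finset.range (Sum.elim N M b + 1)) (fun b k => f b k)
    rw [← h0]
    exact Finset.prod_eq_one fun b _ => h1 b
  have h3 : ∀ i : Fin J ⊕ Fin I → ℕ, (Qs e φ t i).indicator g v = g v * ∏ b, f b (i b) := by
    intro i
    by_cases h : v ∈ Qs e φ t i
    · rw [indicator_of_mem h, Finset.prod_eq_one, mul_one]
      rintro (j | l) _
      · simp only [hf, Sum.elim_inl]
        rw [indicator_of_mem (h.1 j).2]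
      · simp only [hf, Sum.elim_inr]
        rw [indicator_of_mem (h.2 l).2]
    · rw [indicator_of_notMem h]
      have h4 : ∃ b, f b (i b) = 0 := by
        by_contra hc
        push Not at hc
        refine h ⟨fun j => ⟨hv.1 j, ?_⟩, fun l => ⟨hv.2 l, ?_⟩⟩
        · by_contra hj
          apply hc (Sum.inl j)
          simp only [hf, Sum.elim_inl]
          rw [indicator_of_notMem hj]
        · by_contra hl
          apply hc (Sum.inr l)
          simp only [hf, Sum.elim_inr]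
          rw [indicator_of_notMem hl]
      obtain ⟨b, hb⟩ := h4
      rw [Finset.prod_eq_zero (Finset.mem_univ b) hb, mul_zero]
  simp only [h3]
  rw [← Finset.mul_sum, h2, mul_one]

/-- the operator in the paired variables -/
noncomputable def TT (e : Ix J I m) (φ : Bk J I) (H : (Fin m → ℝ) → ℂ)
    (y : Fin m → ℝ) (t : ℝ) : ℂ := ∫ v in BA 1 m, H v * (tw e φ v * em y t v)

lemma W_norm (e : Ix J I m) (φ : Bk J I) (y : Fin m → ℝ) (t : ℝ)
    (v : Fin m → ℝ) : ‖tw e φ v * em y t v‖ ≤ 1 := by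
  rw [norm_mul, tw_norm, Pool.Agent.Y183.LS.em_nrm, mul_one]

lemma W_meas (e : Ix J I m) (φ : Bk J I) (y : Fin m → ℝ) (t : ℝ) :
    Measurable fun v => tw e φ v * em y t v :=
  (tw_cont e φ).measurable.mul (em_contV y t).measurable

/-- the factor of a piece -/
noncomputable def XX (D m : ℕ) {J I : ℕ} (δ θ : ℝ) (i : Fin J ⊕ Fin I → ℕ) : ℝ≥0∞ :=
  (ENNReal.ofReal (S2 D i) * ENNReal.ofReal (δ ^ (-((m : ℝ) / 2)))) ^ θ

/-- **the estimate for fixed time** -/
lemma fixT {D : ℕ} (e : Ix J I m) {φ : Bk J I}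
    (hφ : Dg D φ) (δ : ℝ) (hδ : 0 < δ) (q θ : ℝ) (hθ : 0 ≤ θ)
    (hθq : θ ≤ q - 2) (a : (Fin J ⊕ Fin I → ℕ) → ℝ≥0∞) (ha0 : ∀ i, a i ≠ 0) (ha : ∀ i, a i ≠ ∞)
    (H : (Fin m → ℝ) → ℂ) (hH : Measurable H) (hH2 : ∫⁻ v, ‖H v‖ₑ ^ 2 ≠ ∞) (t : ℝ) :
    ∫⁻ y : Fin m → ℝ, ‖TT e φ (Av δ H) y t‖ₑ ^ q ≤
      (∑' i, a i) ^ (q - 1) * ∑' i, a i ^ (1 - q) * (XX D m δ θ i *
        ((2 ^ m) ^ ((q - 2 - θ) / 2) * (∫⁻ v, ‖H v‖ₑ ^ 2) ^ ((q - 2) / 2) *
          ∫⁻ v in Qs e φ t i, AvS δ H v)) := by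
  obtain ⟨F, hF⟩ := dec e φ t
  set N : ℝ≥0∞ := ∫⁻ v, ‖H v‖ₑ ^ 2 with hN
  have hdec : ∀ y, TT e φ (Av δ H) y t =
      ∑ i ∈ F, ∫ v in Qs e φ t i, Av δ H v * (tw e φ v * em y t v) := by
    intro y
    unfold TT
    have h1 : ∀ i : Fin J ⊕ Fin I → ℕ, ∫ v in Qs e φ t i, Av δ H v * (tw e φ v * em y t v) =
        ∫ v in BA 1 m, (Qs e φ t i).indicator (fun v => Av δ H v * (tw e φ v * em y t v)) v := by
      intro i
      rw [← integral_indicator (Qs_meas e φ t i), ← integral_indicator measurableSet_Icc,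
        indicator_indicator, inter_eq_right.mpr (Qs_sub e φ t i)]
    simp only [h1]
    rw [← integral_finsetSum]
    · apply setIntegral_congr_fun measurableSet_Icc
      intro v hv
      exact hF (fun v => Av δ H v * (tw e φ v * em y t v)) v hv
    · intro i _
      exact (Av_intOn δ hH hH2 _ (W_meas e φ y t) (W_norm e φ y t) (BA 1 m) le_rfl).indicator
        (Qs_meas e φ t i)
  have hpart : ∀ i, ∫⁻ y : Fin m → ℝ, ‖∫ v in Qs e φ t i, Av δ H v * (tw e φ v * em y t v)‖ₑ ^ q ≤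
      XX D m δ θ i * ((2 ^ m) ^ ((q - 2 - θ) / 2) * N ^ ((q - 2) / 2) *
        ∫⁻ v in Qs e φ t i, AvS δ H v) := by
    intro i
    have hs1 : ∀ y : Fin m → ℝ, ‖∫ v in Qs e φ t i, Av δ H v * (tw e φ v * em y t v)‖ₑ ≤
        N ^ (1 / 2 : ℝ) * (ENNReal.ofReal (S2 D i) *
          ENNReal.ofReal (δ ^ (-((m : ℝ) / 2)))) := by
      intro y
      apply sup2 δ hδ _ (Qs_meas e φ t i) (Qs_sub e φ t i) _ (W_meas e φ y t) (W_norm e φ y t) _ _
        H hH hH2
      intro η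
      have e1 : ∀ v, tw e φ v * em y t v * em η 0 v = tw e φ v * em (y + η) t v := by
        intro v
        rw [← em_mul]
        ring
      simp only [e1]
      rw [← ofReal_norm]
      exact ENNReal.ofReal_le_ofReal (sup1 e hφ (y + η) t i)
    have hs2 : ∀ y : Fin m → ℝ, ‖∫ v in Qs e φ t i, Av δ H v * (tw e φ v * em y t v)‖ₑ ≤
        N ^ (1 / 2 : ℝ) * (2 ^ m) ^ (1 / 2 : ℝ) := fun y =>
      sup3 δ _ (Qs_sub e φ t i) _ (W_norm e φ y t) H hH
    have hL := L2Q δ (Qs e φ t i) (Qs_meas e φ t i) (Qs_sub e φ t i) (tw e φ)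
      (tw_cont e φ).measurable (fun v => (tw_norm e φ v).le) H hH hH2 t
    have hNh : N ^ (1 / 2 : ℝ) ≠ ∞ := ENNReal.rpow_ne_top_of_nonneg (by norm_num) hH2
    have h3 := interp3 volume _ _ _ _ q θ hθ hθq hs1 hs2
      (ENNReal.mul_ne_top hNh (ENNReal.mul_ne_top ENNReal.ofReal_ne_top ENNReal.ofReal_ne_top))
      (ENNReal.mul_ne_top hNh (ENNReal.rpow_ne_top_of_nonneg (by norm_num)
        (ENNReal.pow_ne_top (by norm_num)))) hL
    refine h3.trans (le_of_eq ?_)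
    unfold XX
    have e0 : (N ^ (1 / 2 : ℝ) * (2 ^ m) ^ (1 / 2 : ℝ)) ^ (q - 2 - θ) =
        N ^ (1 / 2 * (q - 2 - θ)) * (2 ^ m) ^ (1 / 2 * (q - 2 - θ)) := by
      rw [ENNReal.mul_rpow_of_nonneg _ _ (by linarith), ← ENNReal.rpow_mul, ← ENNReal.rpow_mul]
    rw [ENNReal.mul_rpow_of_nonneg _ _ hθ, e0, ← ENNReal.rpow_mul]
    have e1 : N ^ ((q - 2) / 2) = N ^ (1 / 2 * θ) * N ^ (1 / 2 * (q - 2 - θ)) := by
      rw [← ENNReal.rpow_add_of_nonneg _ _ (by linarith) (by linarith)]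
      congr 1
      ring
    rw [e1, show (q - 2 - θ) / 2 = 1 / 2 * (q - 2 - θ) by ring]
    ring
  have hmeas : ∀ i, Measurable fun y : Fin m → ℝ =>
      ‖∫ v in Qs e φ t i, Av δ H v * (tw e φ v * em y t v)‖ₑ ^ q := by
    intro i
    apply Measurable.pow_const
    apply Measurable.enorm
    apply StronglyMeasurable.measurable
    apply StronglyMeasurable.integral_prod_right'
      (f := fun w : (Fin m → ℝ) × (Fin m → ℝ) => Av δ H w.2 * (tw e φ w.2 * em w.1 t w.2))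
    apply Measurable.stronglyMeasurable
    apply Measurable.mul ((Av_meas δ hH).comp measurable_snd)
    apply Measurable.mul ((tw_cont e φ).measurable.comp measurable_snd)
    unfold Pool.Agent.W771.MD.em qe
    fun_prop
  calc ∫⁻ y : Fin m → ℝ, ‖TT e φ (Av δ H) y t‖ₑ ^ q ≤
      ∫⁻ y : Fin m → ℝ, (∑ i ∈ F, a i) ^ (q - 1) * ∑ i ∈ F, a i ^ (1 - q) *
        ‖∫ v in Qs e φ t i, Av δ H v * (tw e φ v * em y t v)‖ₑ ^ q := by
        apply lintegral_mono
        intro y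
        simp only
        rw [hdec]
        refine le_trans ?_ (wsum F a
          (fun i => ‖∫ v in Qs e φ t i, Av δ H v * (tw e φ v * em y t v)‖ₑ) q (by linarith) ha0 ha)
        have hq0 : 0 ≤ q := by linarith
        gcongr
        exact enorm_sum_le _ _
    _ = (∑ i ∈ F, a i) ^ (q - 1) * ∑ i ∈ F, a i ^ (1 - q) *
        ∫⁻ y : Fin m → ℝ, ‖∫ v in Qs e φ t i, Av δ H v * (tw e φ v * em y t v)‖ₑ ^ q := by
        rw [lintegral_const_mul', lintegral_finsetSum]
        · congr 1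
          apply Finset.sum_congr rfl
          intro k _
          rw [lintegral_const_mul _ (hmeas k)]
        · intro k _
          exact (hmeas k).const_mul _
        · apply ENNReal.rpow_ne_top_of_nonneg (by linarith)
          exact (ENNReal.sum_lt_top.mpr fun k _ => (ha k).lt_top).ne
    _ ≤ (∑' i, a i) ^ (q - 1) * ∑ i ∈ F, a i ^ (1 - q) * (XX D m δ θ i *
        ((2 ^ m) ^ ((q - 2 - θ) / 2) * N ^ ((q - 2) / 2) * ∫⁻ v in Qs e φ t i, AvS δ H v)) := by
        exact mul_le_mul' (ENNReal.rpow_le_rpow (ENNReal.sum_le_tsum F) (by linarith))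
          (Finset.sum_le_sum fun k _ => mul_le_mul_right (hpart k) _)
    _ ≤ _ := by
        gcongr
        exact ENNReal.sum_le_tsum F

end Pool.Agent.Y183.PR
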