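import Pool.Agent.Y183.PR.C
set_option autoImplicit false

/-! Sums over the pieces, the integration in time. -/

namespace Pool.Agent.Y183.PR

open MeasureTheory Set Filter Topology Complex
open scoped ENNReal NNReal
open Pool.Agent.Y183.PP
open Pool.Agent.W771.MD (qe em)
open Pool.Agent.Y183.LS (BA BA1_vol)
open Pool.Agent.Y183.PQ (Av AvS Av_sq Av_meas AvS_meas AvS_int sm_meas U tsum_pow cD cD_one cD_top
  sumX sum_up)

variable {m J I : ℕ}

lemma AA_joint (ψ : Poly) (k : ℕ) :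
    MeasurableSet {w : ℝ × (ℝ × ℝ) | w.2 ∈ AA ψ w.1 k} := by
  cases k with
  | zero => exact (BB_joint ψ 1).compl
  | succ k => exact (BB_joint ψ _).diff (BB_joint ψ _)

lemma Qs_joint (e : Ix J I m) (φ : Bk J I) (i : Fin J ⊕ Fin I → ℕ) :
    MeasurableSet {w : ℝ × (Fin m → ℝ) | w.2 ∈ Qs e φ w.1 i} := by
  have h : {w : ℝ × (Fin m → ℝ) | w.2 ∈ Qs e φ w.1 i} =
      (⋂ j, (fun w : ℝ × (Fin m → ℝ) => (w.1, Pr e w.2 j)) ⁻¹'
        {w : ℝ × (ℝ × ℝ) | w.2 ∈ SQ ∩ AA (φ.1 j) w.1 (i (Sum.inl j))}) ∩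
      ⋂ l, (fun w : ℝ × (Fin m → ℝ) => (w.1, (Qr e w.2 l, Qr e w.2 l))) ⁻¹'
        {w : ℝ × (ℝ × ℝ) | w.2 ∈ SQ ∩ AA (dbl (φ.2 l)) w.1 (i (Sum.inr l))} := by
    ext w
    simp only [Qs, A1, SQ, mem_ofPred_eq, mem_inter_iff, mem_iInter, mem_preimage, mem_prod,
      and_self]
  rw [h]
  apply MeasurableSet.inter
  · refine MeasurableSet.iInter fun j => ?_
    have hm : Measurable (fun w : ℝ × (Fin m → ℝ) => (w.1, Pr e w.2 j)) :=
      measurable_fst.prodMk ((Pr_meas e j).comp measurable_snd)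
    apply hm
    exact MeasurableSet.inter (measurable_snd SQ_meas) (AA_joint _ _)
  · refine MeasurableSet.iInter fun l => ?_
    have hq := (Qr_meas e l).comp (measurable_snd : Measurable (fun w : ℝ × (Fin m → ℝ) => w.2))
    have hm : Measurable (fun w : ℝ × (Fin m → ℝ) => (w.1, (Qr e w.2 l, Qr e w.2 l))) :=
      measurable_fst.prodMk (hq.prodMk hq)
    apply hm
    exact MeasurableSet.inter (measurable_snd SQ_meas) (AA_joint _ _)

lemma card_eq (e : Ix J I m) : m = 2 * J + I := by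
  have h := Fintype.card_congr e
  simp only [Fintype.card_sum, Fintype.card_fin] at h
  omega

/-- the measure of the set of times -/
lemma tvol (hm : 0 < m) (e : Ix J I m) (φ : Bk J I) (i : Fin J ⊕ Fin I → ℕ)
    (v : Fin m → ℝ) : volume {t : ℝ | v ∈ Qs e φ t i} ≤
      (∏ j, ENNReal.ofReal ((2 : ℝ) ^ (2 / (m : ℝ) * (i (Sum.inl j) : ℝ)))) *
      ∏ l, ENNReal.ofReal ((2 : ℝ) ^ (1 / (m : ℝ) * (i (Sum.inr l) : ℝ))) := by
  set X := volume {t : ℝ | v ∈ Qs e φ t i} with hX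
  have hm0 : (0 : ℝ) < m := by exact_mod_cast hm
  have h1 : ∀ j, X ≤ ENNReal.ofReal (2 ^ (i (Sum.inl j))) := by
    intro j
    refine le_trans (measure_mono ?_) (vol_BB (φ.1 j) (2 ^ (i (Sum.inl j))) (by positivity)
      (Pr e v j))
    intro t ht
    exact AA_sub (φ.1 j) t _ (ht.1 j).2
  have h1' : ∀ l, X ≤ ENNReal.ofReal (2 ^ (i (Sum.inr l))) := by
    intro l
    refine le_trans (measure_mono ?_) (vol_BB (dbl (φ.2 l)) (2 ^ (i (Sum.inr l))) (by positivity)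
      (Qr e v l, Qr e v l))
    intro t ht
    exact AA_sub (dbl (φ.2 l)) t _ (ht.2 l).2
  have hcard : (m : ℝ) = 2 * J + I := by
    have := card_eq e
    exact_mod_cast this
  have h2 : X = (∏ _j : Fin J, X ^ (2 / (m : ℝ))) * ∏ _l : Fin I, X ^ (1 / (m : ℝ)) := by
    rw [Finset.prod_const, Finset.prod_const, Finset.card_univ, Finset.card_univ, Fintype.card_fin,
      Fintype.card_fin, ← ENNReal.rpow_natCast, ← ENNReal.rpow_natCast, ← ENNReal.rpow_mul,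
      ← ENNReal.rpow_mul, ← ENNReal.rpow_add_of_nonneg _ _ (by positivity) (by positivity)]
    have e3 : 2 / (m : ℝ) * J + 1 / m * I = 1 := by
      rw [div_mul_eq_mul_div, div_mul_eq_mul_div, ← add_div, one_mul, ← hcard, div_self hm0.ne']
    rw [e3, ENNReal.rpow_one]
  have h3 : ∀ (n : ℕ) (c : ℝ), 0 ≤ c → X ≤ ENNReal.ofReal (2 ^ n) →
      X ^ c ≤ ENNReal.ofReal ((2 : ℝ) ^ (c * (n : ℝ))) := by
    intro n c hc h
    calc X ^ c ≤ ENNReal.ofReal (2 ^ n) ^ c := ENNReal.rpow_le_rpow h hc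
      _ = _ := by
        rw [ENNReal.ofReal_rpow_of_pos (by positivity), ← Real.rpow_natCast,
          ← Real.rpow_mul (by norm_num)]
        congr 2
        ring
  calc X = (∏ _j : Fin J, X ^ (2 / (m : ℝ))) * ∏ _l : Fin I, X ^ (1 / (m : ℝ)) := h2
    _ ≤ _ := mul_le_mul' (Finset.prod_le_prod' fun j _ => h3 _ _ (by positivity) (h1 j))
      (Finset.prod_le_prod' fun l _ => h3 _ _ (by positivity) (h1' l))

/-- the sum over the indices of a product -/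
lemma tsum_two (J I : ℕ) (f g : ℕ → ℝ≥0∞) :
    ∑' i : Fin J ⊕ Fin I → ℕ, (∏ j, f (i (Sum.inl j))) * ∏ l, g (i (Sum.inr l)) =
      (∑' k, f k) ^ J * (∑' k, g k) ^ I := by
  rw [← (Equiv.sumArrowEquivProdArrow (Fin J) (Fin I) ℕ).symm.tsum_eq]
  have h : ∀ c : (Fin J → ℕ) × (Fin I → ℕ),
      (∏ j, f ((Equiv.sumArrowEquivProdArrow (Fin J) (Fin I) ℕ).symm c (Sum.inl j))) *
      ∏ l, g ((Equiv.sumArrowEquivProdArrow (Fin J) (Fin I) ℕ).symm c (Sum.inr l)) =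
      (∏ j, f (c.1 j)) * ∏ l, g (c.2 l) := fun c => rfl
  refine (tsum_congr h).trans ?_
  rw [ENNReal.tsum_prod (f := fun (a : Fin J → ℕ) (b : Fin I → ℕ) =>
    (∏ j, f (a j)) * ∏ l, g (b l))]
  simp only [ENNReal.tsum_mul_left]
  rw [ENNReal.tsum_mul_right, tsum_pow, tsum_pow]

/-- **the space-time estimate** of the averages, under a local estimate in time -/
lemma stm (m J I : ℕ) (hm : 0 < m) (q θ κ₀ : ℝ) (hκ0 : 0 ≤ κ₀) (hκ : 2 * κ₀ / m < θ)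
    (hθq : θ ≤ q - 2) : ∃ C : ℝ≥0, ∀ (D : ℕ) (e : Ix J I m) (φ : Bk J I),
    Dg D φ → ∀ δ : ℝ, 0 < δ → ∀ (𝓧 : Type) [MeasurableSpace 𝓧]
    (ρ : Measure 𝓧) [SFinite ρ] (Hf : 𝓧 × ℝ → (Fin m → ℝ) → ℂ),
    Measurable (Function.uncurry Hf) → (∀ w, ∫⁻ v, ‖Hf w v‖ₑ ^ 2 ≠ ∞) →
    ∀ (B : ℝ≥0∞) (Ψ : (Fin m → ℝ) → ℝ≥0∞), Measurable Ψ →
    (∀ (z : Fin m → ℝ) (T : Set ℝ), MeasurableSet T → ∫⁻ t in T, (∫⁻ x, (∫⁻ v, ‖Hf (x, t) v‖ₑ ^ 2) ^
      ((q - 2) / 2) * ‖Hf (x, t) z‖ₑ ^ 2 ∂ρ) ≤ B * (volume T) ^ κ₀ * Ψ z) →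
    ∫⁻ t : ℝ, (∫⁻ x, (∫⁻ y : Fin m → ℝ, ‖TT e φ (Av δ (Hf (x, t))) y t‖ₑ ^ q) ∂ρ) ≤
      C * (cD D ^ θ) ^ (J + I) * ENNReal.ofReal (δ ^ (-((m : ℝ) / 2 * θ))) * (B * ∫⁻ z, Ψ z) := by
  have hm0 : (0 : ℝ) < m := by exact_mod_cast hm
  have hθ0 : 0 ≤ θ := by
    have : 0 ≤ 2 * κ₀ / m := by positivity
    linarith
  obtain ⟨a, K0, ha0, hat, has, hK0, hsum⟩ := sumX q θ (2 * κ₀ / m) (by linarith) hθ0 hκ
  obtain ⟨a', K0', ha0', hat', has', hK0', hsum'⟩ := sumX q (θ / 2) (κ₀ / m) (by linarith)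
    (by linarith) (by
      rw [lt_div_iff₀ (by norm_num)]
      refine lt_of_le_of_lt (le_of_eq ?_) hκ
      ring)
  set K1 : ℝ≥0∞ := (∑' k, a k) ^ J * (∑' k, a' k) ^ I with hK1
  set K2 : ℝ≥0∞ := K0 ^ J * (2 ^ θ * K0') ^ I with hK2
  set K3 : ℝ≥0∞ := (2 ^ m) ^ ((q - 2 - θ) / 2) with hK3
  have h2θ : (2 : ℝ≥0∞) ^ θ ≠ ∞ := ENNReal.rpow_ne_top_of_nonneg hθ0 (by norm_num)
  have hK1t : K1 ^ (q - 1) ≠ ∞ :=
    ENNReal.rpow_ne_top_of_nonneg (by linarith) (ENNReal.mul_ne_top (ENNReal.pow_ne_top has)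
      (ENNReal.pow_ne_top has'))
  have hK2t : K2 ≠ ∞ := ENNReal.mul_ne_top (ENNReal.pow_ne_top hK0)
    (ENNReal.pow_ne_top (ENNReal.mul_ne_top h2θ hK0'))
  have hK3t : K3 ≠ ∞ := ENNReal.rpow_ne_top_of_nonneg (by linarith)
    (ENNReal.pow_ne_top (by norm_num))
  refine ⟨(K1 ^ (q - 1) * (K3 * K2)).toNNReal, ?_⟩
  rw [ENNReal.coe_toNNReal (ENNReal.mul_ne_top hK1t (ENNReal.mul_ne_top hK3t hK2t))]
  intro D e φ hφ δ hδ 𝓧 _ ρ _ Hf hHf hN B Ψ hΨ hTH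
  -- the weights
  set A : (Fin J ⊕ Fin I → ℕ) → ℝ≥0∞ := fun i =>
    (∏ j, a (i (Sum.inl j))) * ∏ l, a' (i (Sum.inr l)) with hA
  have hA0 : ∀ i, A i ≠ 0 := fun i => mul_ne_zero (Finset.prod_ne_zero_iff.mpr fun j _ => ha0 _)
    (Finset.prod_ne_zero_iff.mpr fun j _ => ha0' _)
  have hAt : ∀ i, A i ≠ ∞ := fun i => ENNReal.mul_ne_top (ENNReal.prod_ne_top fun j _ => hat _)
    (ENNReal.prod_ne_top fun j _ => hat' _)
  have hAs : ∑' i, A i = K1 := tsum_two J I a a'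
  have hHs : ∀ w : 𝓧 × ℝ, Measurable (Hf w) := fun w =>
    hHf.comp (measurable_const.prodMk measurable_id)
  have hNm : Measurable fun w : 𝓧 × ℝ => ∫⁻ v, ‖Hf w v‖ₑ ^ 2 :=
    Measurable.lintegral_prod_right' (f := fun w : (𝓧 × ℝ) × (Fin m → ℝ) => ‖Hf w.1 w.2‖ₑ ^ 2)
      (hHf.enorm.pow_const 2)
  -- the kernel
  set k : (Fin J ⊕ Fin I → ℕ) → (𝓧 × ℝ) × ((Fin m → ℝ) × (Fin m → ℝ)) → ℝ≥0∞ := fun i w =>
      {w : ℝ × (Fin m → ℝ) | w.2 ∈ Qs e φ w.1 i}.indicator (fun _ => (1 : ℝ≥0∞)) (w.1.2, w.2.1) *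
        ((∫⁻ v, ‖Hf w.1 v‖ₑ ^ 2) ^ ((q - 2) / 2) * ‖Hf w.1 (w.2.1 - δ • w.2.2)‖ₑ ^ 2) with hk
  have hkm : ∀ i, Measurable (k i) := by
    intro i
    apply Measurable.mul
    · exact (measurable_const.indicator (Qs_joint e φ i)).comp
        ((measurable_snd.comp measurable_fst).prodMk (measurable_fst.comp measurable_snd))
    · apply Measurable.mul
      · exact (hNm.comp measurable_fst).pow_const _
      · have : Measurable fun w : (𝓧 × ℝ) × ((Fin m → ℝ) × (Fin m → ℝ)) =>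
            (w.1, w.2.1 - δ • w.2.2) := by fun_prop
        exact ((hHf.comp this).enorm.pow_const 2)
  set VU : Measure ((Fin m → ℝ) × (Fin m → ℝ)) := (volume : Measure (Fin m → ℝ)).prod (U m) with hVU
  have hkey : ∀ i t x, (∫⁻ v, ‖Hf (x, t) v‖ₑ ^ 2) ^ ((q - 2) / 2) *
      (∫⁻ v in Qs e φ t i, AvS δ (Hf (x, t)) v) = ∫⁻ w, k i ((x, t), w) ∂VU := by
    intro i t x
    have hp : (∫⁻ v, ‖Hf (x, t) v‖ₑ ^ 2) ^ ((q - 2) / 2) ≠ ∞ :=
      ENNReal.rpow_ne_top_of_nonneg (by linarith) (hN (x, t))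
    have hpr : ∫⁻ w, k i ((x, t), w) ∂VU =
        ∫⁻ v, (∫⁻ h, k i ((x, t), (v, h)) ∂(U m)) ∂(volume : Measure (Fin m → ℝ)) :=
      lintegral_prod (fun w => k i ((x, t), w))
        ((hkm i).comp (measurable_const.prodMk measurable_id)).aemeasurable
    rw [← lintegral_indicator (Qs_meas e φ t i), ← lintegral_const_mul' _ _ hp, hpr]
    apply lintegral_congr
    intro v
    by_cases hv : v ∈ Qs e φ t i
    · have hv2 : ((t, v) : ℝ × (Fin m → ℝ)) ∈ {w : ℝ × (Fin m → ℝ) | w.2 ∈ Qs e φ w.1 i} := hv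
      simp only [hk]
      rw [indicator_of_mem hv, indicator_of_mem hv2]
      simp only [one_mul]
      rw [lintegral_const_mul' _ _ hp]
      rfl
    · have hv2 : ((t, v) : ℝ × (Fin m → ℝ)) ∉ {w : ℝ × (Fin m → ℝ) | w.2 ∈ Qs e φ w.1 i} := hv
      simp only [hk]
      rw [indicator_of_notMem hv, indicator_of_notMem hv2]
      simp
  set PP2 : (Fin J ⊕ Fin I → ℕ) → ℝ≥0∞ := fun i =>
    (∏ j, ENNReal.ofReal ((2 : ℝ) ^ (2 * κ₀ / m * (i (Sum.inl j) : ℝ)))) *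
      ∏ l, ENNReal.ofReal ((2 : ℝ) ^ (κ₀ / m * (i (Sum.inr l) : ℝ))) with hPP2
  -- the time integral of a piece
  have hIle : ∀ i, ∫⁻ t : ℝ, (∫⁻ x, (∫⁻ w, k i ((x, t), w) ∂VU) ∂ρ) ≤
      B * PP2 i * ∫⁻ z, Ψ z := by
    intro i
    have s2 : ∀ t : ℝ, ∫⁻ x, (∫⁻ w, k i ((x, t), w) ∂VU) ∂ρ =
        ∫⁻ w, (∫⁻ x, k i ((x, t), w) ∂ρ) ∂VU := by
      intro t
      apply lintegral_lintegral_swap
      have : Measurable fun p : 𝓧 × ((Fin m → ℝ) × (Fin m → ℝ)) => k i ((p.1, t), p.2) :=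
        (hkm i).comp (by fun_prop)
      exact this.aemeasurable
    simp only [s2]
    rw [lintegral_lintegral_swap]
    swap
    · have h9 : Measurable fun p : (ℝ × ((Fin m → ℝ) × (Fin m → ℝ))) × 𝓧 =>
          k i ((p.2, p.1.1), p.1.2) := (hkm i).comp (by fun_prop)
      exact (Measurable.lintegral_prod_right' h9).aemeasurable
    have s3 : ∀ w : (Fin m → ℝ) × (Fin m → ℝ), ∫⁻ t : ℝ, (∫⁻ x, k i ((x, t), w) ∂ρ) ≤
        B * PP2 i * Ψ (w.1 - δ • w.2) := by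
      intro w
      have hTm : MeasurableSet {t : ℝ | w.1 ∈ Qs e φ t i} := by
        have h7 : {t : ℝ | w.1 ∈ Qs e φ t i} = (fun t : ℝ => (t, w.1)) ⁻¹'
            {w : ℝ × (Fin m → ℝ) | w.2 ∈ Qs e φ w.1 i} := rfl
        rw [h7]
        exact (Qs_joint e φ i).preimage (by fun_prop)
      have h8 := hTH (w.1 - δ • w.2) {t : ℝ | w.1 ∈ Qs e φ t i} hTm
      have e2 : ∫⁻ t : ℝ, (∫⁻ x, k i ((x, t), w) ∂ρ) = ∫⁻ t in {t : ℝ | w.1 ∈ Qs e φ t i},
          (∫⁻ x, (∫⁻ v, ‖Hf (x, t) v‖ₑ ^ 2) ^ ((q - 2) / 2) *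
            ‖Hf (x, t) (w.1 - δ • w.2)‖ₑ ^ 2 ∂ρ) := by
        rw [← lintegral_indicator hTm]
        apply lintegral_congr
        intro t
        by_cases ht : w.1 ∈ Qs e φ t i
        · have ht1 : t ∈ {t : ℝ | w.1 ∈ Qs e φ t i} := ht
          have ht2 : ((t, w.1) : ℝ × (Fin m → ℝ)) ∈ {w : ℝ × (Fin m → ℝ) | w.2 ∈ Qs e φ w.1 i} := ht
          rw [indicator_of_mem ht1]
          apply lintegral_congr
          intro x
          simp only [hk]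
          rw [indicator_of_mem ht2, one_mul]
        · have ht1 : t ∉ {t : ℝ | w.1 ∈ Qs e φ t i} := ht
          have ht2 : ((t, w.1) : ℝ × (Fin m → ℝ)) ∉ {w : ℝ × (Fin m → ℝ) | w.2 ∈ Qs e φ w.1 i} := ht
          rw [indicator_of_notMem ht1]
          have h0 : ∀ x, k i ((x, t), w) = 0 := by
            intro x
            simp only [hk]
            rw [indicator_of_notMem ht2, zero_mul]
          simp only [h0, lintegral_zero]
      rw [e2]
      refine h8.trans ?_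
      gcongr
      calc volume {t : ℝ | w.1 ∈ Qs e φ t i} ^ κ₀ ≤
          ((∏ j, ENNReal.ofReal ((2 : ℝ) ^ (2 / (m : ℝ) * (i (Sum.inl j) : ℝ)))) *
            ∏ l, ENNReal.ofReal ((2 : ℝ) ^ (1 / (m : ℝ) * (i (Sum.inr l) : ℝ)))) ^ κ₀ :=
            ENNReal.rpow_le_rpow (tvol hm e φ i w.1) hκ0
        _ = PP2 i := by
          rw [ENNReal.mul_rpow_of_nonneg _ _ hκ0, ← ENNReal.prod_rpow_of_nonneg hκ0,
            ← ENNReal.prod_rpow_of_nonneg hκ0]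
          simp only [hPP2]
          congr 1
          · apply Finset.prod_congr rfl
            intro j _
            rw [ENNReal.ofReal_rpow_of_pos (by positivity), ← Real.rpow_mul (by norm_num)]
            congr 2
            ring
          · apply Finset.prod_congr rfl
            intro j _
            rw [ENNReal.ofReal_rpow_of_pos (by positivity), ← Real.rpow_mul (by norm_num)]
            congr 2
            ring
    refine (lintegral_mono s3).trans ?_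
    have hΨ2 : Measurable fun w : (Fin m → ℝ) × (Fin m → ℝ) => Ψ (w.1 - δ • w.2) :=
      hΨ.comp (sm_meas δ)
    rw [lintegral_const_mul _ hΨ2]
    gcongr
    rw [hVU, lintegral_prod _ hΨ2.aemeasurable, lintegral_lintegral_swap hΨ2.aemeasurable]
    have s4 : ∀ h : Fin m → ℝ, ∫⁻ v, Ψ (v - δ • h) = ∫⁻ v, Ψ v := fun h =>
      lintegral_sub_right_eq_self (fun v => Ψ v) (δ • h)
    simp only [s4]
    rw [lintegral_const, measure_univ, mul_one]
  -- measurability of the pieces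
  have hm1 : ∀ i, Measurable fun p : ℝ × 𝓧 => ∫⁻ w, k i ((p.2, p.1), w) ∂VU := by
    intro i
    have h1 : Measurable fun p : (ℝ × 𝓧) × ((Fin m → ℝ) × (Fin m → ℝ)) =>
        k i ((p.1.2, p.1.1), p.2) := (hkm i).comp (by fun_prop)
    exact Measurable.lintegral_prod_right' h1
  have hm2 : ∀ i, Measurable fun t : ℝ => ∫⁻ x, (∫⁻ w, k i ((x, t), w) ∂VU) ∂ρ := by
    intro i
    exact Measurable.lintegral_prod_right' (hm1 i)
  -- sum up
  set c : (Fin J ⊕ Fin I → ℕ) → ℝ≥0∞ := fun i => A i ^ (1 - q) * (XX D m δ θ i * K3) with hc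
  have hfix : ∀ t x, ∫⁻ y : Fin m → ℝ, ‖TT e φ (Av δ (Hf (x, t))) y t‖ₑ ^ q ≤
      K1 ^ (q - 1) * ∑' i, c i * ∫⁻ w, k i ((x, t), w) ∂VU := by
    intro t x
    have h1 := fixT e hφ δ hδ q θ hθ0 hθq A hA0 hAt (Hf (x, t)) (hHs _) (hN _) t
    rw [hAs] at h1
    refine h1.trans (le_of_eq ?_)
    congr 1
    apply tsum_congr
    intro i
    rw [← hkey i t x, hc]
    simp only
    ring
  have hsumle : ∑' i, c i * (B * PP2 i * ∫⁻ z, Ψ z) ≤
      ENNReal.ofReal (δ ^ (-((m : ℝ) / 2 * θ))) * (K3 * (K2 * (cD D ^ θ) ^ (J + I))) *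
        (B * ∫⁻ z, Ψ z) := by
    set F1 : ℕ → ℝ≥0∞ := fun k => a k ^ (1 - q) * (ENNReal.ofReal (SS D 1 k) ^ θ *
        ENNReal.ofReal ((2 : ℝ) ^ (2 * κ₀ / m * (k : ℝ)))) with hF1
    set F2 : ℕ → ℝ≥0∞ := fun k => 2 ^ θ * (a' k ^ (1 - q) * (ENNReal.ofReal (SS D 1 k) ^ (θ / 2) *
        ENNReal.ofReal ((2 : ℝ) ^ (κ₀ / m * (k : ℝ))))) with hF2
    have h1 : ∀ i : Fin J ⊕ Fin I → ℕ, c i * (B * PP2 i * ∫⁻ z, Ψ z) =
        (ENNReal.ofReal (δ ^ (-((m : ℝ) / 2 * θ))) * K3 * (B * ∫⁻ z, Ψ z)) *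
        ((∏ j, F1 (i (Sum.inl j))) * ∏ l, F2 (i (Sum.inr l))) := by
      intro i
      simp only [hF1, hF2]
      rw [Finset.prod_mul_distrib, Finset.prod_mul_distrib, Finset.prod_mul_distrib,
        Finset.prod_mul_distrib, Finset.prod_mul_distrib]
      have hpw : ∀ (n : ℕ) (b : ℕ → ℝ≥0∞) (hb0 : ∀ k, b k ≠ 0) (hbt : ∀ k, b k ≠ ∞)
          (ι : Fin n → ℕ), (∏ j, b (ι j)) ^ (1 - q) = ∏ j, b (ι j) ^ (1 - q) := by
        intro n b hb0 hbt ι
        have : (1 - q) = -(q - 1) := by ring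
        rw [this, ENNReal.rpow_neg, ← ENNReal.prod_rpow_of_nonneg (by linarith),
          ENNReal.prod_inv_distrib]
        · apply Finset.prod_congr rfl
          intro j _
          rw [ENNReal.rpow_neg]
        · intro j _ l _ _
          left
          exact (ENNReal.rpow_pos (pos_iff_ne_zero.mpr (hb0 _)) (hbt _)).ne'
      have h2 : A i ^ (1 - q) = (∏ j, a (i (Sum.inl j)) ^ (1 - q)) *
          ∏ l, a' (i (Sum.inr l)) ^ (1 - q) := by
        rw [hA]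
        simp only
        rw [ENNReal.mul_rpow_of_ne_top (ENNReal.prod_ne_top fun j _ => hat _)
          (ENNReal.prod_ne_top fun j _ => hat' _), hpw J a ha0 hat, hpw I a' ha0' hat']
      have h3 : XX (J := J) (I := I) D m δ θ i = ((∏ j, ENNReal.ofReal (SS D 1 (i (Sum.inl j))) ^ θ) *
          ((∏ _l : Fin I, 2 ^ θ) * ∏ l, ENNReal.ofReal (SS D 1 (i (Sum.inr l))) ^ (θ / 2))) *
          ENNReal.ofReal (δ ^ (-((m : ℝ) / 2 * θ))) := by
        unfold XX S2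
        rw [ENNReal.mul_rpow_of_nonneg _ _ hθ0, ENNReal.ofReal_mul
          (Finset.prod_nonneg fun j _ => SS_nonneg D 1 zero_le_one _), ENNReal.ofReal_prod_of_nonneg
          (fun j _ => SS_nonneg D 1 zero_le_one _), ENNReal.ofReal_prod_of_nonneg
          (fun j _ => by positivity), ENNReal.mul_rpow_of_nonneg _ _ hθ0,
          ← ENNReal.prod_rpow_of_nonneg hθ0, ← ENNReal.prod_rpow_of_nonneg hθ0,
          ENNReal.ofReal_rpow_of_pos (by positivity), ← Real.rpow_mul hδ.le]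
        have e5 : ∀ l : Fin I, ENNReal.ofReal (2 * √(SS D 1 (i (Sum.inr l)))) ^ θ =
            2 ^ θ * ENNReal.ofReal (SS D 1 (i (Sum.inr l))) ^ (θ / 2) := by
          intro l
          rw [ENNReal.ofReal_mul (by norm_num), ENNReal.mul_rpow_of_nonneg _ _ hθ0,
            Real.sqrt_eq_rpow, ← ENNReal.ofReal_rpow_of_nonneg (SS_nonneg D 1 zero_le_one _)
            (by norm_num), ← ENNReal.rpow_mul]
          congr 2
          · norm_num
          · ring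
        simp only [e5]
        rw [Finset.prod_mul_distrib]
        congr 3
        ring
      rw [hc]
      simp only
      rw [h2, h3]
      simp only [hPP2]
      ring
    simp only [h1]
    rw [ENNReal.tsum_mul_left, tsum_two J I F1 F2]
    have hF1s : ∑' k, F1 k ≤ K0 * cD D ^ θ := hsum D
    have hF2s : ∑' k, F2 k ≤ 2 ^ θ * K0' * cD D ^ θ := by
      simp only [hF2]
      rw [ENNReal.tsum_mul_left, mul_assoc]
      gcongr
      refine (hsum' D).trans ?_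
      gcongr
      · exact cD_one D
      · linarith
    calc (ENNReal.ofReal (δ ^ (-((m : ℝ) / 2 * θ))) * K3 * (B * ∫⁻ z, Ψ z)) *
          ((∑' k, F1 k) ^ J * (∑' k, F2 k) ^ I) ≤
        (ENNReal.ofReal (δ ^ (-((m : ℝ) / 2 * θ))) * K3 * (B * ∫⁻ z, Ψ z)) *
          ((K0 * cD D ^ θ) ^ J * (2 ^ θ * K0' * cD D ^ θ) ^ I) := mul_le_mul_right
            (mul_le_mul' (pow_le_pow_left' hF1s J) (pow_le_pow_left' hF2s I)) _
      _ = _ := by
        rw [mul_pow, mul_pow (2 ^ θ * K0') (cD D ^ θ) I, hK2, pow_add]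
        ring
  have hfin := sum_up ρ (K1 ^ (q - 1)) hK1t c (fun i p => ∫⁻ w, k i ((p.2, p.1), w) ∂VU) hm1
    (fun t x => ∫⁻ y : Fin m → ℝ, ‖TT e φ (Av δ (Hf (x, t))) y t‖ₑ ^ q) hfix
  refine hfin.trans ?_
  refine (mul_le_mul_right (ENNReal.tsum_le_tsum fun i => mul_le_mul_right (hIle i) (c i)) _).trans ?_
  refine (mul_le_mul_right hsumle _).trans (le_of_eq ?_)
  ring

end Pool.Agent.Y183.PR
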