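import Pool.Agent.Y183.PR.D
set_option autoImplicit false

/-! From averages to functions of small regularity. -/

namespace Pool.Agent.Y183.PR

open MeasureTheory Set Filter Topology Complex
open scoped ENNReal NNReal
open Pool.Agent.Y183.PP
open Pool.Agent.Y183.PQ
open Pool.Agent.W771.MD (qe em)
open Pool.Agent.Y183.LS (BA BA1_vol)

variable {m J I : ℕ} {Y 𝓧 : Type} [MeasurableSpace Y] [MeasurableSpace 𝓧]

lemma TT_int (e : Ix J I m) (φ : Bk J I) (H : (Fin m → ℝ) → ℂ)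
    (hH : Measurable H) (hH2 : ∫⁻ v, ‖H v‖ₑ ^ 2 ≠ ∞) (y : Fin m → ℝ) (t : ℝ) :
    IntegrableOn (fun v => H v * (tw e φ v * em y t v)) (BA 1 m) := by
  have hf : IsFiniteMeasure ((volume : Measure (Fin m → ℝ)).restrict (BA 1 m)) := ⟨by
    rw [Measure.restrict_apply_univ]; exact BA1_fin.lt_top⟩
  have h1 : IntegrableOn H (BA 1 m) :=
    (sq_memLp H hH _ (ne_top_of_le_ne_top hH2 (setLIntegral_le_lintegral _ _))).integrable
      (by norm_num)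
  exact h1.mul_bdd (c := 1) (W_meas e φ y t).aestronglyMeasurable (ae_of_all _ (W_norm e φ y t))

lemma TT_le (e : Ix J I m) (φ : Bk J I) (H : (Fin m → ℝ) → ℂ)
    (hH : Measurable H) (y : Fin m → ℝ) (t : ℝ) :
    ‖TT e φ H y t‖ₑ ≤ (∫⁻ v, ‖H v‖ₑ ^ 2) ^ (1 / 2 : ℝ) * (2 ^ m) ^ (1 / 2 : ℝ) := by
  unfold TT
  refine (enorm_integral_le_lintegral_enorm _).trans ?_
  have h1 : ∀ v, ‖H v * (tw e φ v * em y t v)‖ₑ ≤ ‖H v‖ₑ := by
    intro v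
    rw [enorm_mul]
    calc ‖H v‖ₑ * ‖tw e φ v * em y t v‖ₑ ≤ ‖H v‖ₑ * 1 := by
          gcongr
          rw [← ofReal_norm, ← ENNReal.ofReal_one]
          exact ENNReal.ofReal_le_ofReal (W_norm e φ y t v)
      _ = _ := mul_one _
  refine (lintegral_mono h1).trans ((Pool.Agent.Y183.LS.cs_cube H hH).trans ?_)
  gcongr
  exact Measure.restrict_le_self

lemma TT_sub (e : Ix J I m) (φ : Bk J I) (H1 H2 : (Fin m → ℝ) → ℂ)
    (hH1 : Measurable H1) (hH12 : ∫⁻ v, ‖H1 v‖ₑ ^ 2 ≠ ∞) (hH2 : Measurable H2)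
    (hH22 : ∫⁻ v, ‖H2 v‖ₑ ^ 2 ≠ ∞) (y : Fin m → ℝ) (t : ℝ) :
    TT e φ (fun v => H1 v - H2 v) y t = TT e φ H1 y t - TT e φ H2 y t := by
  unfold TT
  rw [← integral_sub (TT_int e φ H1 hH1 hH12 y t) (TT_int e φ H2 hH2 hH22 y t)]
  congr 1
  ext v
  ring

lemma TT_add (e : Ix J I m) (φ : Bk J I) (H1 H2 : (Fin m → ℝ) → ℂ)
    (hH1 : Measurable H1) (hH12 : ∫⁻ v, ‖H1 v‖ₑ ^ 2 ≠ ∞) (hH2 : Measurable H2)
    (hH22 : ∫⁻ v, ‖H2 v‖ₑ ^ 2 ≠ ∞) (y : Fin m → ℝ) (t : ℝ) :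
    TT e φ (fun v => H1 v + H2 v) y t = TT e φ H1 y t + TT e φ H2 y t := by
  unfold TT
  rw [← integral_add (TT_int e φ H1 hH1 hH12 y t) (TT_int e φ H2 hH2 hH22 y t)]
  congr 1
  ext v
  ring

lemma TT_joint (e : Ix J I m) (φ : Bk J I)
    (G : 𝓧 × ℝ → (Fin m → ℝ) → ℂ) (hG : Measurable (Function.uncurry G)) :
    Measurable fun a : ℝ × (𝓧 × (Fin m → ℝ)) => TT e φ (G (a.2.1, a.1)) a.2.2 a.1 := by
  unfold TT
  apply StronglyMeasurable.measurable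
  apply StronglyMeasurable.integral_prod_right'
    (f := fun b : (ℝ × (𝓧 × (Fin m → ℝ))) × (Fin m → ℝ) =>
      G (b.1.2.1, b.1.1) b.2 * (tw e φ b.2 * em b.1.2.2 b.1.1 b.2))
  apply Measurable.stronglyMeasurable
  apply Measurable.mul
  · exact hG.comp (by fun_prop : Measurable fun b : (ℝ × (𝓧 × (Fin m → ℝ))) × (Fin m → ℝ) =>
      ((b.1.2.1, b.1.1), b.2))
  · apply Measurable.mul ((tw_cont e φ).measurable.comp measurable_snd)
    unfold Pool.Agent.W771.MD.em qe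
    fun_prop

end Pool.Agent.Y183.PR
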