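import Pool.Agent.Y183.PR.K
set_option autoImplicit false

/-! The case of a rough variable: the estimate. -/

namespace Pool.Agent.Y183.PR

open MeasureTheory Set Filter Topology Complex
open scoped ENNReal NNReal
open Pool.Agent.Y183.PP hiding HF
open Pool.Agent.Y183.PQ
open Pool.Agent.W771.MD (qe em)
open Pool.Agent.W771 (II N2 M2 E1 ph)
open Pool.Agent.Y183.LS (BA BA1_vol)

/-- choice of the exponent -/
lemma exp_rough (m : ℕ) (hm : 0 < m) (q : ℝ)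
    (hq : 2 * ((m : ℝ) + 2) / (m + 1) < q) : ∃ θ : ℝ, 2 * ((m : ℝ) / (m + 1)) / m < θ ∧ θ ≤ q - 2 ∧
      0 ≤ (m : ℝ) / 2 * θ / q ∧ (m : ℝ) / 2 * θ / q < (m : ℝ) / (2 * (m + 2)) := by
  have hm0 : (0 : ℝ) < m := by exact_mod_cast hm
  have hq' : 2 * ((m : ℝ) + 2) < q * (m + 1) := by rwa [div_lt_iff₀ (by linarith)] at hq
  have hq0 : 0 < q := by
    by_contra hc
    push Not at hc
    nlinarith
  have h1 : 2 / ((m : ℝ) + 1) < q - 2 := by
    rw [div_lt_iff₀ (by linarith)]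
    linarith
  have h2 : 2 / ((m : ℝ) + 1) < q / (m + 2) := by
    rw [div_lt_div_iff₀ (by linarith) (by linarith)]
    linarith
  set M := min (q - 2) (q / (m + 2)) with hM
  have h3 : 2 / ((m : ℝ) + 1) < M := lt_min h1 h2
  have h4 : M ≤ q - 2 := min_le_left _ _
  have h5 : M ≤ q / (m + 2) := min_le_right _ _
  have h6 : 2 * ((m : ℝ) / (m + 1)) / m = 2 / (m + 1) := by
    field_simp
  have h7 : 0 < 2 / ((m : ℝ) + 1) := by positivity
  have h9 : 0 < (2 / ((m : ℝ) + 1) + M) / 2 := by linarith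
  refine ⟨(2 / (m + 1) + M) / 2, by rw [h6]; linarith, by linarith, by positivity, ?_⟩
  rw [div_lt_div_iff₀ hq0 (by linarith)]
  have h8 : (2 / ((m : ℝ) + 1) + M) / 2 < q / (m + 2) := by linarith
  rw [lt_div_iff₀ (by linarith)] at h8
  nlinarith

/-- **the case of a rough variable** -/
theorem roughT (m : ℕ) (hm : 0 < m) (J I : ℕ) (q p : ℝ)
    (hq : 2 * ((m : ℝ) + 2) / (m + 1) < q) (hp2 : 2 ≤ p)
    (hp : ((m : ℝ) + 1) * q < p * ((m + 1) * (q - 1) - 2)) : ∃ C : ℝ≥0,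
    ∀ (D : ℕ) (e : Ix J I m) (φ : Bk J I), Dg D φ →
    ∀ g : ℝ → (Fin m → ℝ) → ℂ, Measurable (Function.uncurry g) →
    ∀ K : ℝ≥0∞, K ≠ ∞ → NN2 mI p g ≤ K ^ 2 →
    (∀ h : Fin m → ℝ, NN2 mI p (fun u z => g u (z + h) - g u z) ≤
      (K * ENNReal.ofReal (‖h‖ ^ ((m : ℝ) / (2 * (m + 2))))) ^ 2) →
    ∫⁻ t : ℝ, (∫⁻ x : ℝ, (∫⁻ y : Fin m → ℝ, ‖TT e φ (HF mI kp g (x, t)) y t‖ₑ ^ q)) ≤
      (C * cD D ^ (J + I) * K) ^ q := by
  obtain ⟨θ, hθ1, hθ2, hθ3, hθ4⟩ := exp_rough m hm q hq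
  have hm1 : 1 ≤ m := by omega
  have hm0 : (1 : ℝ) ≤ m := by exact_mod_cast hm1
  have hθ0 : 0 < θ := lt_of_le_of_lt (by positivity) hθ1
  have hq2 : 2 < q := by linarith
  have hq0 : 0 < q := by linarith
  have hq' : 2 < ((m : ℝ) + 1) * (q - 2) := by
    rw [div_lt_iff₀ (by linarith)] at hq
    nlinarith
  obtain ⟨C, hC⟩ := stm m J I hm q θ ((m : ℝ) / (m + 1)) (by positivity) hθ1 hθ2
  obtain ⟨C0, hC00, hC0⟩ := TH_odd m hm1 q p hq2 hq' hp2 hp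
  obtain ⟨C1, hC1⟩ := closure q (by linarith) ((m : ℝ) / (2 * (m + 2))) ((m : ℝ) / 2 * θ / q) hθ3 hθ4
  refine ⟨C1 * (C * C0) ^ (1 / q), ?_⟩
  intro D e φ hφ g hg K hK hN hKh
  have hcl := hC1 m J I ℝ ℝ e φ mI volume kp kp_meas kp_norm p hp2
    ((((C * C0) ^ (1 / q) : ℝ≥0) : ℝ≥0∞) * cD D ^ (J + I)) ?_ g hg K hK hN hKh
  · refine hcl.trans (le_of_eq ?_)
    rw [ENNReal.coe_mul]
    congr 1
    ring
  · -- the estimate of the averages
    intro g hg hgN δ hδ hδ1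
    -- a positive constant
    set N := NN2 mI p g with hNd
    have key : ∀ A : ℝ≥0∞, A ≠ 0 → A ≠ ∞ → N ≤ A ^ 2 →
        Pool.Agent.Y183.PQ.ST volume q (fun a => TT e φ (Av δ (HF mI kp g (a.2.1, a.1))) a.2.2 a.1) ≤
          C * (cD D ^ θ) ^ (J + I) * ENNReal.ofReal (δ ^ (-((m : ℝ) / 2 * θ))) *
            ((C0 * A ^ (q - 2)) * N) := by
      intro A hA0 hAt hNA
      have hΨ : Measurable fun z : Fin m → ℝ => (∫⁻ u, ‖g u z‖ₑ ^ p ∂mI) ^ (2 / p) := by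
        apply Measurable.pow_const
        exact Measurable.lintegral_prod_right' (f := fun w : (Fin m → ℝ) × ℝ => ‖g w.2 w.1‖ₑ ^ p)
          ((hg.comp measurable_swap).enorm.pow_const p)
      exact hC D e φ hφ δ hδ ℝ volume (HF mI kp g) (HF_meas mI kp kp_meas g hg)
        (fun w => Gsq mI kp kp_meas kp_norm p hp2 g hg hgN w) (C0 * A ^ (q - 2))
        (fun z => (∫⁻ u, ‖g u z‖ₑ ^ p ∂mI) ^ (2 / p)) hΨ (hC0 g hg A hA0 hAt hNA)
    have hgoal : ∀ X : ℝ≥0∞, Pool.Agent.Y183.PQ.ST volume q (fun a => TT e φ (Av δ (HF mI kp g (a.2.1, a.1))) a.2.2 a.1) ≤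
        C * (cD D ^ θ) ^ (J + I) * ENNReal.ofReal (δ ^ (-((m : ℝ) / 2 * θ))) * (C0 * X ^ q) → X ^ 2 = N →
        Pool.Agent.Y183.PQ.ST volume q (fun a => TT e φ (Av δ (HF mI kp g (a.2.1, a.1))) a.2.2 a.1) ≤
          ((((C * C0) ^ (1 / q) : ℝ≥0) : ℝ≥0∞) * cD D ^ (J + I) *
            ENNReal.ofReal (δ ^ (-((m : ℝ) / 2 * θ / q))) * N ^ (1 / 2 : ℝ)) ^ q := by
      intro X h1 h2
      refine h1.trans ?_
      have e4 : N ^ (1 / 2 : ℝ) = X := by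
        rw [← h2, ← ENNReal.rpow_natCast, ← ENNReal.rpow_mul]
        norm_num
      rw [e4, ENNReal.mul_rpow_of_nonneg _ _ hq0.le, ENNReal.mul_rpow_of_nonneg _ _ hq0.le,
        ENNReal.mul_rpow_of_nonneg _ _ hq0.le,
        ENNReal.ofReal_rpow_of_pos (by positivity), ← Real.rpow_mul hδ.le,
        ENNReal.coe_rpow_of_nonneg _ (by positivity), ← ENNReal.rpow_mul ((C * C0 : ℝ≥0) : ℝ≥0∞)]
      have e2 : 1 / q * q = 1 := by field_simp
      have e3 : -((m : ℝ) / 2 * θ / q) * q = -((m : ℝ) / 2 * θ) := by field_simp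
      rw [e2, e3, ENNReal.rpow_one, ENNReal.coe_mul]
      have h5 := cD_pow D (J + I) θ q (by linarith)
      calc C * (cD D ^ θ) ^ (J + I) * ENNReal.ofReal (δ ^ (-((m : ℝ) / 2 * θ))) * (C0 * X ^ q) ≤
          C * (cD D ^ (J + I)) ^ q * ENNReal.ofReal (δ ^ (-((m : ℝ) / 2 * θ))) * (C0 * X ^ q) := by gcongr
        _ = _ := by ring
    by_cases hN0 : N = 0
    · apply hgoal 0 _ (by rw [hN0]; norm_num)
      have h3 := key 1 one_ne_zero ENNReal.one_ne_top (by rw [hN0]; exact zero_le)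
      rw [hN0, mul_zero, mul_zero] at h3
      exact h3.trans zero_le
    · have hX0 : N ^ (1 / 2 : ℝ) ≠ 0 := (ENNReal.rpow_pos (pos_iff_ne_zero.mpr hN0) hgN).ne'
      have hXt : N ^ (1 / 2 : ℝ) ≠ ∞ := ENNReal.rpow_ne_top_of_nonneg (by norm_num) hgN
      have hX2 : (N ^ (1 / 2 : ℝ)) ^ 2 = N := by
        rw [← ENNReal.rpow_natCast, ← ENNReal.rpow_mul]
        norm_num
      apply hgoal (N ^ (1 / 2 : ℝ)) _ hX2
      refine (key (N ^ (1 / 2 : ℝ)) hX0 hXt hX2.ge).trans (le_of_eq ?_)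
      have e5 : (N ^ (1 / 2 : ℝ)) ^ (q - 2) * N = (N ^ (1 / 2 : ℝ)) ^ q := by
        nth_rewrite 2 [← hX2]
        rw [← ENNReal.rpow_natCast (N ^ (1 / 2 : ℝ)) 2, ← ENNReal.rpow_add_of_nonneg _ _
          (by linarith) (by positivity)]
        congr 1
        push_cast
        ring
      rw [mul_assoc (C0 : ℝ≥0∞), e5]

end Pool.Agent.Y183.PR
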