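import Pool.Agent.Y183.PR.M
import Pool.Agent.Y247.QT.G
set_option autoImplicit false

/-! Change of variables; the extension operator. -/

namespace Pool.Agent.Y183.PR

open MeasureTheory Set Filter Topology Complex Matrix
open scoped ENNReal NNReal
open Pool.Agent.Y183.PP hiding HF
open Pool.Agent.W771.MD (qe em)
open Pool.Agent.W771 (II)
open Pool.Agent.Y183.LS (BA)
open Pool.Agent.Y183.PQ (HF NN2 mI kp cD)
open Pool.Agent.Y247.QT (MM MM_det MM_det_abs MM_mulVec MM_sq MM_cube MM_norm lint_mat int_mat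
  lint_mat_prod mulVec_cont)

lemma em_cexp {n : ℕ} (y : Fin n → ℝ) (t : ℝ) (v : Fin n → ℝ) : em y t v =
    cexp (2 * Real.pi * I * ((∑ j, v j * y j + (∑ j, v j ^ 2) * t : ℝ) : ℂ)) := by
  unfold Pool.Agent.W771.MD.em Pool.Agent.W771.MD.qe
  rw [← Complex.exp_sum, ← Finset.mul_sum]
  congr 2
  rw [Finset.sum_mul, ← Finset.sum_add_distrib]
  push_cast
  rfl

section scaling
variable {m J I : ℕ}

/-- the polynomial in the scaled variables -/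
noncomputable def sc2 (c : ℝ) (P : Poly) : Poly :=
  MvPolynomial.aeval (fun i => MvPolynomial.C c * MvPolynomial.X i : Fin 2 → Poly) P

lemma ev_sc2 (c : ℝ) (P : Poly) (z : ℝ × ℝ) : ev (sc2 c P) z = ev P (c * z.1, c * z.2) := by
  unfold ev sc2
  rw [MvPolynomial.aeval_def, MvPolynomial.eval₂_eq', map_sum, MvPolynomial.eval_eq']
  apply Finset.sum_congr rfl
  intro d _
  simp [Fin.prod_univ_two, mul_pow]

lemma deg_sc2 {D : ℕ} (c : ℝ) {P : Poly} (hP : P.totalDegree ≤ D) : (sc2 c P).totalDegree ≤ D := by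
  unfold sc2
  rw [MvPolynomial.aeval_def, MvPolynomial.eval₂_eq']
  refine (MvPolynomial.totalDegree_finsetSum _ _).trans (Finset.sup_le ?_)
  intro d hd
  refine le_trans ?_ hP
  refine le_trans ?_ (MvPolynomial.le_totalDegree hd)
  refine (MvPolynomial.totalDegree_mul _ _).trans ?_
  have h1 : ((algebraMap ℝ Poly) (MvPolynomial.coeff d P)).totalDegree = 0 :=
    MvPolynomial.totalDegree_C _
  rw [h1, zero_add]
  refine (MvPolynomial.totalDegree_finsetProd _ _).trans ?_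
  rw [Finsupp.sum_fintype _ _ (fun _ => rfl)]
  apply Finset.sum_le_sum
  intro i _
  refine (MvPolynomial.totalDegree_pow _ _).trans ?_
  have h2 : (MvPolynomial.C c * MvPolynomial.X i : Poly).totalDegree ≤ 1 := by
    refine (MvPolynomial.totalDegree_mul _ _).trans ?_
    rw [MvPolynomial.totalDegree_C, MvPolynomial.totalDegree_X]
  calc d i * _ ≤ d i * 1 := Nat.mul_le_mul_left _ h2
    _ = d i := mul_one _

/-- the polynomial in the scaled variable -/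
noncomputable def sc1 (c : ℝ) (R : Polynomial ℝ) : Polynomial ℝ :=
  R.comp (Polynomial.C c * Polynomial.X)

lemma eval_sc1 (c : ℝ) (R : Polynomial ℝ) (x : ℝ) : (sc1 c R).eval x = R.eval (c * x) := by
  unfold sc1
  simp [Polynomial.eval_comp]

lemma deg_sc1 {D : ℕ} (c : ℝ) {R : Polynomial ℝ} (hR : R.natDegree ≤ D) :
    (sc1 c R).natDegree ≤ D := by
  unfold sc1
  refine Polynomial.natDegree_comp_le.trans ?_
  calc R.natDegree * (Polynomial.C c * Polynomial.X : Polynomial ℝ).natDegree ≤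
        R.natDegree * 1 := Nat.mul_le_mul_left _
          ((Polynomial.natDegree_C_mul_le _ _).trans Polynomial.natDegree_X_le)
    _ ≤ D := by rwa [mul_one]

/-- all the polynomials in the scaled variables -/
noncomputable def scB (c : ℝ) (φ : Bk J I) : Bk J I :=
  (fun j => sc2 c (φ.1 j), fun l => sc1 c (φ.2 l))

lemma Dg_scB {D : ℕ} (c : ℝ) {φ : Bk J I} (h : Dg D φ) : Dg D (scB c φ) :=
  ⟨fun j => deg_sc2 c (h.1 j), fun l => deg_sc1 c (h.2 l)⟩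

lemma tw_scB (e : Ix J I m) (φ : Bk J I) (c : ℝ) (v : Fin m → ℝ) :
    tw e (scB c φ) v = tw e φ (c • v) := by
  unfold tw scB
  simp only
  congr 1
  · apply Finset.prod_congr rfl
    intro j _
    unfold ex
    rw [ev_sc2]
    rfl
  · apply Finset.prod_congr rfl
    intro l _
    unfold e1
    rw [eval_sc1]
    rfl

lemma TT_ext (e : Ix J I m) (φ : Bk J I) (g : (Fin m → ℝ) → ℂ) (y : Fin m → ℝ) (t : ℝ) :
    Pool.Agent.H728R3.SR.ext (fun ξ => g ξ * tw e φ ξ) (y, t) = TT e φ g y t := by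
  unfold Pool.Agent.H728R3.SR.ext TT
  congr 1
  ext v
  rw [em_cexp]
  ring

end scaling

section rot
variable {m : ℕ} (U : Matrix (Fin (m + 1)) (Fin (m + 1)) ℝ) (hU : Uᵀ * U = 1)

include hU in
lemma ext_mat (W : (Fin (m + 1) → ℝ) → ℂ) (hW : Measurable W)
    (g : (Fin (m + 1) → ℝ) → ℂ) (hg : Measurable g) (hz : ∀ ξ, ξ ∉ BA 1 (m + 1) → g ξ = 0)
    (x : Fin (m + 1) → ℝ) (t : ℝ) :
    Pool.Agent.H728R3.SR.ext (fun ξ => g ξ * W ξ) (x, t) =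
      |(MM U).det| * Pool.Agent.H728R3.SR.ext (fun ζ => g (MM U *ᵥ ζ) * W (MM U *ᵥ ζ))
        ((MM U)ᵀ *ᵥ x, ((m : ℝ) + 1) ^ 2 * t) := by
  set Cu := Icc (fun _ : Fin (m + 1) => (-1 : ℝ)) (fun _ => 1) with hCu
  have hCm : MeasurableSet Cu := measurableSet_Icc
  have e1 : Pool.Agent.H728R3.SR.ext (fun ξ => g ξ * W ξ) (x, t) = ∫ ξ, g ξ * (W ξ *
      cexp (2 * Real.pi * I * ((∑ j, ξ j * x j + (∑ j, ξ j ^ 2) * t : ℝ) : ℂ))) := by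
    unfold Pool.Agent.H728R3.SR.ext
    rw [← integral_indicator hCm]
    congr 1
    ext ξ
    by_cases h : ξ ∈ Cu
    · rw [indicator_of_mem h]
      simp only
      ring
    · rw [indicator_of_notMem h, hz ξ h, zero_mul]
  have hmeas : Measurable (fun ξ : Fin (m + 1) → ℝ => g ξ * (W ξ *
      cexp (2 * Real.pi * I * ((∑ j, ξ j * x j + (∑ j, ξ j ^ 2) * t : ℝ) : ℂ)))) := by
    refine hg.mul (hW.mul ?_)
    apply Continuous.measurable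
    fun_prop
  rw [e1, int_mat (MM U) (MM_det U hU) _ hmeas]
  congr 1
  unfold Pool.Agent.H728R3.SR.ext
  rw [← integral_indicator hCm]
  congr 1
  ext ζ
  by_cases h : ζ ∈ Cu
  · rw [indicator_of_mem h]
    simp only
    have e4 : ∑ j, (MM U *ᵥ ζ) j * x j = ∑ j, ζ j * ((MM U)ᵀ *ᵥ x) j := by
      have h1 : (MM U *ᵥ ζ) ⬝ᵥ x = ζ ⬝ᵥ ((MM U)ᵀ *ᵥ x) := by
        rw [dotProduct_comm, dotProduct_mulVec, ← mulVec_transpose, dotProduct_comm]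
      exact h1
    rw [MM_sq U hU, e4]
    have e5 : (∑ j, ζ j ^ 2) * ((m : ℝ) + 1) ^ 2 * t = (∑ j, ζ j ^ 2) * (((m : ℝ) + 1) ^ 2 * t) := by
      ring
    rw [e5]
    ring
  · rw [indicator_of_notMem h]
    have h2 : g (MM U *ᵥ ζ) = 0 := hz _ fun hc => h (MM_cube U hU ζ hc)
    rw [h2, zero_mul]

include hU in
/-- the norm of the extension -/
lemma lint_rot (W : (Fin (m + 1) → ℝ) → ℂ) (hW : Measurable W)
    (g : (Fin (m + 1) → ℝ) → ℂ) (hg : Measurable g) (hz : ∀ ξ, ξ ∉ BA 1 (m + 1) → g ξ = 0)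
    (q : ℝ) (hq : 0 ≤ q) :
    ∫⁻ y : (Fin (m + 1) → ℝ) × ℝ, ‖Pool.Agent.H728R3.SR.ext (fun ξ => g ξ * W ξ) y‖ₑ ^ q ≤
      ENNReal.ofReal (((m : ℝ) + 1) ^ (m + 1)) ^ q * ∫⁻ y : (Fin (m + 1) → ℝ) × ℝ,
        ‖Pool.Agent.H728R3.SR.ext (fun ζ => g (MM U *ᵥ ζ) * W (MM U *ᵥ ζ)) y‖ₑ ^ q := by
  have hdet := MM_det U hU
  have hdabs := MM_det_abs U hU
  have hm0 : (0 : ℝ) ≤ m := Nat.cast_nonneg m
  have hfm : Measurable fun ζ : Fin (m + 1) → ℝ => g (MM U *ᵥ ζ) * W (MM U *ᵥ ζ) :=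
    (hg.comp (mulVec_cont (MM U)).measurable).mul (hW.comp (mulVec_cont (MM U)).measurable)
  have hEm := (Pool.Agent.W771.MD.ext_meas (m + 1) _ hfm).enorm.pow_const q
  have e1 : ∀ y : (Fin (m + 1) → ℝ) × ℝ,
      ‖Pool.Agent.H728R3.SR.ext (fun ξ => g ξ * W ξ) y‖ₑ ^ q =
      ENNReal.ofReal (((m : ℝ) + 1) ^ (m + 1)) ^ q * ‖Pool.Agent.H728R3.SR.ext
        (fun ζ => g (MM U *ᵥ ζ) * W (MM U *ᵥ ζ)) ((MM U)ᵀ *ᵥ y.1, ((m : ℝ) + 1) ^ 2 * y.2)‖ₑ ^ q := by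
    rintro ⟨x, t⟩
    rw [ext_mat U hU W hW g hg hz x t, hdabs, enorm_mul, ENNReal.mul_rpow_of_nonneg _ _ hq]
    congr 2
    rw [← ofReal_norm]
    congr 1
    rw [Complex.norm_real, Real.norm_eq_abs, abs_of_nonneg (by positivity)]
  simp only [e1]
  have hc : ENNReal.ofReal (((m : ℝ) + 1) ^ (m + 1)) ^ q ≠ ∞ :=
    ENNReal.rpow_ne_top_of_nonneg hq ENNReal.ofReal_ne_top
  rw [lintegral_const_mul' _ _ hc]
  refine mul_le_mul_right ?_ _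
  have hdetT : ((MM U)ᵀ).det ≠ 0 := by rwa [det_transpose]
  have h2 := lint_mat_prod ((MM U)ᵀ) hdetT (((m : ℝ) + 1) ^ 2) (by positivity) (fun y =>
    ‖Pool.Agent.H728R3.SR.ext (fun ζ => g (MM U *ᵥ ζ) * W (MM U *ᵥ ζ)) y‖ₑ ^ q) hEm
  rw [h2, det_transpose]
  have h3 : ENNReal.ofReal |((MM U).det)⁻¹| ≤ 1 := by
    rw [← ENNReal.ofReal_one]
    apply ENNReal.ofReal_le_ofReal
    rw [abs_inv, hdabs]
    exact inv_le_one_of_one_le₀ (one_le_pow₀ (by linarith))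
  have h4 : ENNReal.ofReal |(((m : ℝ) + 1) ^ 2)⁻¹| ≤ 1 := by
    rw [← ENNReal.ofReal_one]
    apply ENNReal.ofReal_le_ofReal
    rw [abs_inv, abs_of_nonneg (by positivity)]
    exact inv_le_one_of_one_le₀ (one_le_pow₀ (by linarith))
  calc _ ≤ 1 * (1 * ∫⁻ y : (Fin (m + 1) → ℝ) × ℝ,
        ‖Pool.Agent.H728R3.SR.ext (fun ζ => g (MM U *ᵥ ζ) * W (MM U *ᵥ ζ)) y‖ₑ ^ q) :=
        mul_le_mul' h3 (mul_le_mul' h4 le_rfl)
    _ = _ := by rw [one_mul, one_mul]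

include hU in
lemma nrm_rot (p : ℝ) (G : (Fin (m + 1) → ℝ) → ℝ≥0∞) (hG : Measurable G) :
    ∫⁻ ζ, G (MM U *ᵥ ζ) ^ p ≤ ∫⁻ ξ, G ξ ^ p := by
  rw [lint_mat (MM U) (MM_det U hU) (fun ξ => G ξ ^ p) (hG.pow_const p)]
  have hm0 : (0 : ℝ) ≤ m := Nat.cast_nonneg m
  have h3 : ENNReal.ofReal |((MM U).det)⁻¹| ≤ 1 := by
    rw [← ENNReal.ofReal_one]
    apply ENNReal.ofReal_le_ofReal
    rw [abs_inv, MM_det_abs U hU]
    exact inv_le_one_of_one_le₀ (one_le_pow₀ (by linarith))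
  calc _ ≤ 1 * ∫⁻ ξ, G ξ ^ p := mul_le_mul' h3 le_rfl
    _ = _ := one_mul _

include hU in
lemma reg_rot (p s : ℝ) (hp : 0 ≤ p) (hs0 : 0 ≤ s) (hs1 : s ≤ 1) (g : (Fin (m + 1) → ℝ) → ℂ)
    (hg : Measurable g) (K : ℝ≥0∞)
    (hM : ∀ h : Fin (m + 1) → ℝ, ∫⁻ ξ, ‖g (ξ + h) - g ξ‖ₑ ^ p ≤
      (K * ENNReal.ofReal (‖h‖ ^ s)) ^ p) (h : Fin (m + 1) → ℝ) :
    ∫⁻ ζ, ‖g (MM U *ᵥ (ζ + h)) - g (MM U *ᵥ ζ)‖ₑ ^ p ≤
      (ENNReal.ofReal (((m : ℝ) + 1) ^ 2) * K * ENNReal.ofReal (‖h‖ ^ s)) ^ p := by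
  have hm0 : (0 : ℝ) ≤ m := Nat.cast_nonneg m
  simp only [mulVec_add]
  have h1 := nrm_rot U hU p (fun ξ => ‖g (ξ + MM U *ᵥ h) - g ξ‖ₑ)
    (((hg.comp (measurable_id.add_const _)).sub hg).enorm)
  refine h1.trans ((hM (MM U *ᵥ h)).trans ?_)
  apply ENNReal.rpow_le_rpow _ hp
  rw [mul_comm (ENNReal.ofReal (((m : ℝ) + 1) ^ 2)) K, mul_assoc]
  gcongr
  rw [← ENNReal.ofReal_mul (by positivity)]
  apply ENNReal.ofReal_le_ofReal
  have hone : (1 : ℝ) ≤ ((m : ℝ) + 1) ^ 2 := one_le_pow₀ (by linarith)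
  calc ‖MM U *ᵥ h‖ ^ s ≤ (((m : ℝ) + 1) ^ 2 * ‖h‖) ^ s :=
        Real.rpow_le_rpow (norm_nonneg _) (MM_norm U hU h) hs0
    _ = (((m : ℝ) + 1) ^ 2) ^ s * ‖h‖ ^ s := Real.mul_rpow (by positivity) (norm_nonneg _)
    _ ≤ ((m : ℝ) + 1) ^ 2 * ‖h‖ ^ s := by
        gcongr
        calc (((m : ℝ) + 1) ^ 2) ^ s ≤ (((m : ℝ) + 1) ^ 2) ^ (1 : ℝ) :=
              Real.rpow_le_rpow_of_exponent_le hone hs1
          _ = _ := Real.rpow_one _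

end rot

/-- **all variables in groups of one or two, rotated coordinates** -/
theorem fullE (m J I : ℕ) (q : ℝ) (hq : 2 * (((m + 1 : ℕ) : ℝ) + 1) / ((m + 1 : ℕ) : ℝ) < q) :
    ∃ C : ℝ≥0, ∀ (D : ℕ) (e : Ix J I (m + 1)) (φ : Bk J I), Dg D φ →
    ∀ V : Matrix (Fin (m + 1)) (Fin (m + 1)) ℝ, Vᵀ * V = 1 →
    ∀ g : (Fin (m + 1) → ℝ) → ℂ, Measurable g → (∀ ξ, ξ ∉ BA 1 (m + 1) → g ξ = 0) →
    ∀ K : ℝ≥0∞, K ≠ ∞ → ∫⁻ ξ, ‖g ξ‖ₑ ^ 2 ≤ K ^ 2 →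
    (∀ h : Fin (m + 1) → ℝ, ∫⁻ ξ, ‖g (ξ + h) - g ξ‖ₑ ^ 2 ≤
      (K * ENNReal.ofReal (‖h‖ ^ (((m + 1 : ℕ) : ℝ) / (2 * (((m + 1 : ℕ) : ℝ) + 1))))) ^ 2) →
    ∫⁻ y : (Fin (m + 1) → ℝ) × ℝ,
      ‖Pool.Agent.H728R3.SR.ext (fun ξ => g ξ * tw e φ (V *ᵥ ξ)) y‖ₑ ^ q ≤
        (C * cD D ^ (J + I) * K) ^ q := by
  obtain ⟨C, hC⟩ := fullT (m + 1) (by omega) J I q hq
  have hm0 : (0 : ℝ) ≤ m := Nat.cast_nonneg m
  have hn0 : (0 : ℝ) < ((m + 1 : ℕ) : ℝ) := by positivity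
  have hq0 : 0 < q := lt_trans (by positivity) hq
  set s : ℝ := ((m + 1 : ℕ) : ℝ) / (2 * (((m + 1 : ℕ) : ℝ) + 1)) with hs
  have hs0 : 0 ≤ s := by positivity
  have hs1 : s ≤ 1 := by
    rw [hs, div_le_one (by positivity)]
    linarith
  have hDt : ENNReal.ofReal (((m : ℝ) + 1) ^ (m + 1)) * (C : ℝ≥0∞) *
      ENNReal.ofReal (((m : ℝ) + 1) ^ 2) ≠ ∞ :=
    ENNReal.mul_ne_top (ENNReal.mul_ne_top ENNReal.ofReal_ne_top ENNReal.coe_ne_top)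
      ENNReal.ofReal_ne_top
  refine ⟨(ENNReal.ofReal (((m : ℝ) + 1) ^ (m + 1)) * (C : ℝ≥0∞) *
      ENNReal.ofReal (((m : ℝ) + 1) ^ 2)).toNNReal, ?_⟩
  intro D e φ hφ V hV g hg hz K hK hN hM
  rw [ENNReal.coe_toNNReal hDt]
  set U : Matrix (Fin (m + 1)) (Fin (m + 1)) ℝ := Vᵀ with hUd
  have hVV : V * Vᵀ = 1 := mul_eq_one_comm.mp hV
  have hU : Uᵀ * U = 1 := by rw [hUd, transpose_transpose, hVV]
  have hW : Measurable fun ξ : Fin (m + 1) → ℝ => tw e φ (V *ᵥ ξ) :=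
    (tw_cont e φ).measurable.comp (mulVec_cont V).measurable
  have h1 := lint_rot U hU _ hW g hg hz q hq0.le
  refine h1.trans ?_
  have e2 : ∀ ζ : Fin (m + 1) → ℝ, g (MM U *ᵥ ζ) * tw e φ (V *ᵥ (MM U *ᵥ ζ)) =
      g (MM U *ᵥ ζ) * tw e (scB ((m : ℝ) + 1) φ) ζ := by
    intro ζ
    rw [tw_scB, MM_mulVec, mulVec_smul, mulVec_mulVec, hUd, hVV, one_mulVec]
  simp only [e2]
  set g' : (Fin (m + 1) → ℝ) → ℂ := fun ζ => g (MM U *ᵥ ζ) with hg'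
  have hg'm : Measurable g' := hg.comp (mulVec_cont (MM U)).measurable
  have hcast : ∀ f : (Fin (m + 1) → ℝ) → ℂ, ∀ K : ℝ≥0∞, ∫⁻ ξ, ‖f ξ‖ₑ ^ (2 : ℝ) = ∫⁻ ξ, ‖f ξ‖ₑ ^ 2 := by
    intro f K
    simp only [ENNReal.rpow_ofNat]
  have hone : (1 : ℝ≥0∞) ≤ ENNReal.ofReal (((m : ℝ) + 1) ^ 2) := by
    rw [← ENNReal.ofReal_one]
    apply ENNReal.ofReal_le_ofReal
    exact one_le_pow₀ (by linarith)
  have hmain := hC D e (scB ((m : ℝ) + 1) φ) (Dg_scB _ hφ) g' hg'm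
    (ENNReal.ofReal (((m : ℝ) + 1) ^ 2) * K) (ENNReal.mul_ne_top ENNReal.ofReal_ne_top hK) (by
      have h2 := nrm_rot U hU 2 (fun ξ => ‖g ξ‖ₑ) hg.enorm
      simp only [ENNReal.rpow_ofNat] at h2
      refine h2.trans (hN.trans (pow_le_pow_left' ?_ 2))
      calc K = 1 * K := (one_mul K).symm
        _ ≤ _ := mul_le_mul' hone le_rfl) (by
      intro h
      have h2 := reg_rot U hU 2 s (by norm_num) hs0 hs1 g hg K (by
        intro h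
        simp only [ENNReal.rpow_ofNat]
        exact hM h) h
      simp only [ENNReal.rpow_ofNat] at h2
      exact h2)
  have hEm : Measurable fun y : (Fin (m + 1) → ℝ) × ℝ => ‖Pool.Agent.H728R3.SR.ext
      (fun ζ => g' ζ * tw e (scB ((m : ℝ) + 1) φ) ζ) y‖ₑ ^ q :=
    (Pool.Agent.W771.MD.ext_meas (m + 1) _ (hg'm.mul (tw_cont e _).measurable)).enorm.pow_const q
  have e3 : ∫⁻ y : (Fin (m + 1) → ℝ) × ℝ, ‖Pool.Agent.H728R3.SR.ext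
      (fun ζ => g' ζ * tw e (scB ((m : ℝ) + 1) φ) ζ) y‖ₑ ^ q =
      ∫⁻ t : ℝ, (∫⁻ y : Fin (m + 1) → ℝ, ‖TT e (scB ((m : ℝ) + 1) φ) g' y t‖ₑ ^ q) := by
    rw [Measure.volume_eq_prod, lintegral_prod_symm _ hEm.aemeasurable]
    simp only [TT_ext]
  rw [e3]
  refine (mul_le_mul_right hmain _).trans (le_of_eq ?_)
  rw [← ENNReal.mul_rpow_of_nonneg _ _ hq0.le]
  congr 1
  ring

end Pool.Agent.Y183.PR
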