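import Pool.Agent.Y183.PR.N
set_option autoImplicit false

/-! The extension operator: one rough variable. -/

namespace Pool.Agent.Y183.PR

open MeasureTheory Set Filter Topology Complex Matrix
open scoped ENNReal NNReal
open Pool.Agent.Y183.PP hiding HF
open Pool.Agent.W771.MD (qe em nuC LL FFn Cb nuC_eq FFn_meas cons_meas LL_eq1 ext_LL II_scale two_mem)
open Pool.Agent.W771 (II ph E1)
open Pool.Agent.Y183.LS (BA)
open Pool.Agent.Y183.PQ (HF NN2 mI kp cD cutI gam gam_fin E1_cut cutI_mem cutI_zero)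

variable {m J I : ℕ}

/-- the function of two variables -/
def uv (g : (Fin (m + 1) → ℝ) → ℂ) (u : ℝ) (v : Fin m → ℝ) : ℂ := g (Fin.cons (2 * u) v)

lemma uv_meas (g : (Fin (m + 1) → ℝ) → ℂ) (hg : Measurable g) :
    Measurable (Function.uncurry (uv g)) := by
  have h : Measurable fun w : ℝ × (Fin m → ℝ) => ((2 * w.1, w.2) : ℝ × (Fin m → ℝ)) := by fun_prop
  exact hg.comp (cons_meas.comp h)

lemma uv_sub (g : (Fin (m + 1) → ℝ) → ℂ) (h : Fin m → ℝ) :
    (fun u z => uv g u (z + h) - uv g u z) =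
      uv (fun ξ => g (ξ + Fin.cons 0 h) - g ξ) := by
  ext u z
  unfold uv
  rw [Pool.Agent.Y247.QT.cons_add]

/-- the norms -/
lemma uv_norm (p : ℝ) (hp : 0 < p) (g : (Fin (m + 1) → ℝ) → ℂ) (hg : Measurable g) :
    NN2 mI p (uv g) ≤
      ∫⁻ v : Fin m → ℝ, (∫⁻ u in Icc (-1 : ℝ) 1, ‖g (Fin.cons u v)‖ₑ ^ p) ^ (2 / p) := by
  unfold Pool.Agent.Y183.PQ.NN2
  apply lintegral_mono
  intro v
  apply ENNReal.rpow_le_rpow _ (by positivity)
  have hm1 : Measurable fun u : ℝ => ‖g (Fin.cons u v)‖ₑ ^ p := by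
    have : Measurable fun u : ℝ => ((u, v) : ℝ × (Fin m → ℝ)) := by fun_prop
    exact (hg.comp (cons_meas.comp this)).enorm.pow_const p
  exact II_scale (fun u => ‖g (Fin.cons u v)‖ₑ ^ p) hm1

lemma FFn_uv (g : (Fin (m + 1) → ℝ) → ℂ) : FFn g = cutI (uv g) := rfl

/-- the rough variable and the others -/
lemma ext_rough (e : Ix J I m) (φ : Bk J I) (p : ℝ) (hp2 : 2 ≤ p) (g : (Fin (m + 1) → ℝ) → ℂ)
    (hg : Measurable g) (hN : NN2 mI p (uv g) ≠ ∞) (x : ℝ) (y : Fin m → ℝ) (t : ℝ) :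
    Pool.Agent.H728R3.SR.ext (fun ξ => g ξ * tw e φ (Fin.tail ξ)) (Fin.cons x y, t) =
      2 * TT e φ (HF mI kp (uv g) (x, t)) y t := by
  rw [ext_LL]
  congr 1
  have e1 : LL (FFn fun ξ => g ξ * tw e φ (Fin.tail ξ)) (-4 * Real.pi * x) (-8 * Real.pi * t)
      (em y t) = LL (FFn g) (-4 * Real.pi * x) (-8 * Real.pi * t)
        (fun v => tw e φ v * em y t v) := by
    unfold Pool.Agent.W771.MD.LL
    congr 1
    ext w
    have h1 : FFn (fun ξ => g ξ * tw e φ (Fin.tail ξ)) w.1 w.2 = FFn g w.1 w.2 * tw e φ w.2 := by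
      unfold Pool.Agent.W771.MD.FFn
      by_cases hu : w.1 ∈ II
      · rw [indicator_of_mem hu, indicator_of_mem hu]
        simp only [Fin.tail_cons]
      · rw [indicator_of_notMem hu, indicator_of_notMem hu, zero_mul]
    rw [h1]
    ring
  have hi : Integrable (Function.uncurry (FFn g)) ((volume : Measure ℝ).prod (nuC m)) := by
    have hFm := FFn_meas g hg
    refine ⟨hFm.aestronglyMeasurable, ?_⟩
    unfold HasFiniteIntegral
    rw [lintegral_prod_symm _ hFm.enorm.aemeasurable]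
    have hgam := gam_fin mI p hp2 (uv g) (uv_meas g hg) hN
    have e3 : ∀ v : Fin m → ℝ, ∫⁻ u : ℝ, ‖Function.uncurry (FFn g) (u, v)‖ₑ = gam mI (uv g) v := by
      intro v
      unfold Pool.Agent.Y183.PQ.gam
      rw [← lintegral_indicator measurableSet_Icc]
      apply lintegral_congr
      intro u
      by_cases hu : u ∈ II
      · rw [indicator_of_mem hu]
        simp only [Function.uncurry, FFn_uv]
        rw [cutI_mem _ u hu]
      · rw [indicator_of_notMem hu]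
        simp only [Function.uncurry, FFn_uv]
        rw [cutI_zero _ u hu, enorm_zero]
    simp only [e3]
    have hgm : Measurable fun v => gam mI (uv g) v := by
      unfold Pool.Agent.Y183.PQ.gam
      exact Measurable.lintegral_prod_right' (f := fun w : (Fin m → ℝ) × ℝ => ‖uv g w.2 w.1‖ₑ)
        (((uv_meas g hg).comp measurable_swap).enorm)
    have hCS := ENNReal.lintegral_mul_le_Lp_mul_Lq (nuC m)
      Real.HolderConjugate.two_two (f := fun v => gam mI (uv g) v) (g := fun _ => (1 : ℝ≥0∞))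
      hgm.aemeasurable aemeasurable_const
    simp only [ENNReal.rpow_ofNat, Pi.mul_apply, one_pow, mul_one, lintegral_const, one_mul] at hCS
    refine lt_of_le_of_lt hCS ?_
    apply ENNReal.mul_lt_top
    · apply ENNReal.rpow_lt_top_of_nonneg (by norm_num)
      exact ne_top_of_le_ne_top hgam (lintegral_mono' Measure.restrict_le_self le_rfl)
    · exact ENNReal.rpow_lt_top_of_nonneg (by norm_num) (measure_ne_top _ _)
  rw [e1, LL_eq1 (FFn g) hi _ _ _ (W_meas e φ y t) (W_norm e φ y t)]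
  unfold TT
  have e4 : ∀ v, E1 (FFn g) (-4 * Real.pi * x) (-8 * Real.pi * t) v = HF mI kp (uv g) (x, t) v := by
    intro v
    rw [FFn_uv, E1_cut]
    rfl
  simp only [e4]
  have e5 : (nuC m : Measure (Fin m → ℝ)) = volume.restrict (BA 1 m) := nuC_eq
  show ∫ v, _ ∂(nuC m) = _
  rw [e5]

/-- **one rough variable, the others in groups of one or two** -/
theorem roughE (m J I : ℕ) (hm : 0 < m) (q p : ℝ) (hq : 2 * ((m : ℝ) + 2) / (m + 1) < q)
    (hp2 : 2 ≤ p) (hp : ((m : ℝ) + 1) * q < p * ((m + 1) * (q - 1) - 2)) : ∃ C : ℝ≥0,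
    ∀ (D : ℕ) (e : Ix J I m) (φ : Bk J I), Dg D φ → ∀ g : (Fin (m + 1) → ℝ) → ℂ, Measurable g →
    ∀ K : ℝ≥0∞, K ≠ ∞ →
    ∫⁻ v : Fin m → ℝ, (∫⁻ u in Icc (-1 : ℝ) 1, ‖g (Fin.cons u v)‖ₑ ^ p) ^ (2 / p) ≤ K ^ 2 →
    (∀ h : Fin m → ℝ, ∫⁻ v : Fin m → ℝ, (∫⁻ u in Icc (-1 : ℝ) 1,
      ‖g (Fin.cons u (v + h)) - g (Fin.cons u v)‖ₑ ^ p) ^ (2 / p) ≤
        (K * ENNReal.ofReal (‖h‖ ^ ((m : ℝ) / (2 * (m + 2))))) ^ 2) →
    ∫⁻ y : (Fin (m + 1) → ℝ) × ℝ,
      ‖Pool.Agent.H728R3.SR.ext (fun ξ => g ξ * tw e φ (Fin.tail ξ)) y‖ₑ ^ q ≤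
        (C * cD D ^ (J + I) * K) ^ q := by
  obtain ⟨C, hC⟩ := roughT m hm J I q p hq hp2 hp
  have hm0 : (0 : ℝ) < m := by exact_mod_cast hm
  have hq0 : 0 < q := lt_trans (by positivity) hq
  have hp0 : 0 < p := by linarith
  refine ⟨2 * C, ?_⟩
  intro D e φ hφ g hg K hK hN hM
  have hN' : NN2 mI p (uv g) ≤ K ^ 2 := (uv_norm p hp0 g hg).trans hN
  have hNt : NN2 mI p (uv g) ≠ ∞ := ne_top_of_le_ne_top (ENNReal.pow_ne_top hK) hN'
  have hmain := hC D e φ hφ (uv g) (uv_meas g hg) K hK hN' (by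
    intro h
    rw [uv_sub]
    have hgm : Measurable fun ξ : Fin (m + 1) → ℝ => g (ξ + Fin.cons 0 h) - g ξ :=
      (hg.comp (measurable_id.add_const _)).sub hg
    refine (uv_norm p hp0 _ hgm).trans (le_trans (le_of_eq ?_) (hM h))
    simp only [← Pool.Agent.Y247.QT.cons_add])
  have hfm : Measurable fun ξ : Fin (m + 1) → ℝ => g ξ * tw e φ (Fin.tail ξ) := by
    refine hg.mul ((tw_cont e φ).measurable.comp ?_)
    unfold Fin.tail
    fun_prop
  rw [Pool.Agent.W771.MD.lint_cons _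
    ((Pool.Agent.W771.MD.ext_meas (m + 1) _ hfm).enorm.pow_const q)]
  have h2q : (2 : ℝ≥0∞) ^ q ≠ ∞ := ENNReal.rpow_ne_top_of_nonneg hq0.le (by norm_num)
  have e1 : ∀ (t x : ℝ) (y : Fin m → ℝ), ‖Pool.Agent.H728R3.SR.ext
      (fun ξ => g ξ * tw e φ (Fin.tail ξ)) (Fin.cons x y, t)‖ₑ ^ q =
      2 ^ q * ‖TT e φ (HF mI kp (uv g) (x, t)) y t‖ₑ ^ q := by
    intro t x y
    rw [ext_rough e φ p hp2 g hg hNt x y t, enorm_mul, ENNReal.mul_rpow_of_nonneg _ _ hq0.le]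
    congr 2
    rw [← ofReal_norm]
    norm_num
  simp only [e1, lintegral_const_mul' _ _ h2q]
  refine (mul_le_mul_right hmain _).trans (le_of_eq ?_)
  rw [← ENNReal.mul_rpow_of_nonneg _ _ hq0.le]
  congr 1
  push_cast
  ring

end Pool.Agent.Y183.PR
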