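import Pool.Agent.Y183.PR.O
set_option autoImplicit false

/-! One rough variable in rotated coordinates. -/

namespace Pool.Agent.Y183.PR

open MeasureTheory Set Filter Topology Complex Matrix
open scoped ENNReal NNReal
open Pool.Agent.Y183.PP hiding HF
open Pool.Agent.W771.MD (cons_meas)
open Pool.Agent.Y183.LS (BA BA1_vol)
open Pool.Agent.Y183.PQ (cD)
open Pool.Agent.Y247.QT (MM MM_det MM_det_abs MM_mulVec MM_sq MM_cube MM_norm mulVec_cont lint_cons'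
  cons_add cons_norm)

variable {m J I : ℕ}

/-- the mixed norm of a function of bounded support -/
lemma mix_le (p : ℝ) (hp : 2 ≤ p) (H : (Fin (m + 1) → ℝ) → ℂ) (hH : Measurable H)
    (S : Set (Fin m → ℝ)) (hS : MeasurableSet S) (hSv : volume S ≤ 2 ^ (m + 1))
    (hz : ∀ u v, v ∉ S → H (Fin.cons u v) = 0) (A : ℝ≥0∞) (hA : ∫⁻ ζ, ‖H ζ‖ₑ ^ p ≤ A ^ p) :
    ∫⁻ v : Fin m → ℝ, (∫⁻ u in Icc (-1 : ℝ) 1, ‖H (Fin.cons u v)‖ₑ ^ p) ^ (2 / p) ≤
      (2 ^ (m + 1) * A) ^ 2 := by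
  have hp0 : 0 < p := by linarith
  set G : (Fin m → ℝ) → ℝ≥0∞ := fun v => ∫⁻ u in Icc (-1 : ℝ) 1, ‖H (Fin.cons u v)‖ₑ ^ p with hG
  have hHp : Measurable (fun ζ => ‖H ζ‖ₑ ^ p) := hH.enorm.pow_const p
  have hGm : Measurable G := by
    have h1 : Measurable (fun w : (Fin m → ℝ) × ℝ => ‖H (Fin.cons w.2 w.1)‖ₑ ^ p) :=
      hHp.comp (cons_meas.comp measurable_swap)
    exact Measurable.lintegral_prod_right' h1
  have hG0 : ∀ v, v ∉ S → G v = 0 := by
    intro v hv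
    simp only [hG, hz _ v hv, enorm_zero, ENNReal.zero_rpow_of_pos hp0, lintegral_zero]
  have hGA : ∫⁻ v, G v ≤ A ^ p := by
    refine le_trans ?_ hA
    rw [← lint_cons' _ hHp, lintegral_lintegral_swap]
    · exact setLIntegral_le_lintegral _ _
    · exact (hHp.comp (cons_meas.comp measurable_swap)).aemeasurable
  have h1 : ∫⁻ v, G v ^ (2 / p) = ∫⁻ v in S, G v ^ (2 / p) := by
    rw [← lintegral_indicator hS]
    apply lintegral_congr
    intro v
    by_cases h : v ∈ S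
    · rw [indicator_of_mem h]
    · rw [indicator_of_notMem h, hG0 v h, ENNReal.zero_rpow_of_pos (by positivity)]
  show ∫⁻ v, G v ^ (2 / p) ≤ _
  rw [h1]
  have h2 := Pool.Agent.W771.MD.jens (volume.restrict S) (fun v => G v ^ (2 / p))
    (hGm.pow_const _) (p / 2) (by linarith)
  have h3 : ∀ v, (G v ^ (2 / p)) ^ (p / 2) = G v := by
    intro v
    rw [← ENNReal.rpow_mul]
    have : 2 / p * (p / 2) = 1 := by field_simp
    rw [this, ENNReal.rpow_one]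
  simp only [h3] at h2
  rw [Measure.restrict_apply_univ] at h2
  have hone : (1 : ℝ≥0∞) ≤ 2 ^ (m + 1) := one_le_pow₀ (by norm_num)
  have h4 : (∫⁻ v in S, G v ^ (2 / p)) ^ (p / 2) ≤ ((2 ^ (m + 1) * A) ^ 2) ^ (p / 2) := by
    refine h2.trans ?_
    calc volume S ^ (p / 2 - 1) * ∫⁻ v in S, G v ≤ (2 ^ (m + 1)) ^ p * A ^ p := by
          refine mul_le_mul' ?_ ((setLIntegral_le_lintegral _ _).trans hGA)
          calc volume S ^ (p / 2 - 1) ≤ (2 ^ (m + 1)) ^ (p / 2 - 1) :=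
                ENNReal.rpow_le_rpow hSv (by linarith)
            _ ≤ _ := ENNReal.rpow_le_rpow_of_exponent_le hone (by linarith)
      _ = _ := by
          rw [← ENNReal.mul_rpow_of_nonneg _ _ hp0.le, ← ENNReal.rpow_natCast (_ * _) 2,
            ← ENNReal.rpow_mul]
          congr 1
          push_cast
          ring
  have h5 := ENNReal.rpow_le_rpow h4 (by positivity : (0 : ℝ) ≤ 2 / p)
  rw [← ENNReal.rpow_mul, ← ENNReal.rpow_mul] at h5
  have : p / 2 * (2 / p) = 1 := by field_simp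
  rwa [this, ENNReal.rpow_one, ENNReal.rpow_one] at h5

/-- **one rough variable in rotated coordinates** -/
theorem roughR (m J I : ℕ) (hm : 0 < m) (q p : ℝ) (hq : 2 * ((m : ℝ) + 2) / (m + 1) < q)
    (hp2 : 2 ≤ p) (hp : ((m : ℝ) + 1) * q < p * ((m + 1) * (q - 1) - 2)) : ∃ C : ℝ≥0,
    ∀ (D : ℕ) (e : Ix J I m) (φ : Bk J I), Dg D φ →
    ∀ V : Matrix (Fin (m + 1)) (Fin (m + 1)) ℝ, Vᵀ * V = 1 →
    ∀ b : ℝ → ℂ, Measurable b → (∀ u, ‖b u‖ ≤ 1) →
    ∀ g : (Fin (m + 1) → ℝ) → ℂ, Measurable g → (∀ ξ, ξ ∉ BA 1 (m + 1) → g ξ = 0) →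
    ∀ K : ℝ≥0∞, K ≠ ∞ → (∫⁻ ξ, ‖g ξ‖ₑ ^ p ≤ K ^ p) →
    (∀ h : Fin (m + 1) → ℝ, ∫⁻ ξ, ‖g (ξ + h) - g ξ‖ₑ ^ p ≤
      (K * ENNReal.ofReal (‖h‖ ^ ((m : ℝ) / (2 * (m + 2))))) ^ p) →
    ∫⁻ y : (Fin (m + 1) → ℝ) × ℝ, ‖Pool.Agent.H728R3.SR.ext
      (fun ξ => g ξ * (b ((V *ᵥ ξ) 0) * tw e φ (Fin.tail (V *ᵥ ξ)))) y‖ₑ ^ q ≤
        (C * cD D ^ (J + I) * K) ^ q := by
  obtain ⟨C, hC⟩ := roughE m J I hm q p hq hp2 hp
  have hm0 : (0 : ℝ) ≤ m := Nat.cast_nonneg m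
  have hm1 : (0 : ℝ) < m := by exact_mod_cast hm
  have hq0 : 0 < q := lt_trans (by positivity) hq
  have hp0 : 0 < p := by linarith
  set s : ℝ := (m : ℝ) / (2 * (m + 2)) with hs
  have hs0 : 0 ≤ s := by positivity
  have hs1 : s ≤ 1 := by
    rw [hs, div_le_one (by positivity)]
    linarith
  have h2t : (2 : ℝ≥0∞) ^ (m + 1) ≠ ∞ := ENNReal.pow_ne_top (by norm_num)
  have hDt : ENNReal.ofReal (((m : ℝ) + 1) ^ (m + 1)) * (C : ℝ≥0∞) *
      (2 ^ (m + 1) * ENNReal.ofReal (((m : ℝ) + 1) ^ 2)) ≠ ∞ :=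
    ENNReal.mul_ne_top (ENNReal.mul_ne_top ENNReal.ofReal_ne_top ENNReal.coe_ne_top)
      (ENNReal.mul_ne_top h2t ENNReal.ofReal_ne_top)
  refine ⟨(ENNReal.ofReal (((m : ℝ) + 1) ^ (m + 1)) * (C : ℝ≥0∞) *
      (2 ^ (m + 1) * ENNReal.ofReal (((m : ℝ) + 1) ^ 2))).toNNReal, ?_⟩
  intro D e φ hφ V hV b hb hb1 g hg hz K hK hN hM
  rw [ENNReal.coe_toNNReal hDt]
  set U : Matrix (Fin (m + 1)) (Fin (m + 1)) ℝ := Vᵀ with hUd
  have hVV : V * Vᵀ = 1 := mul_eq_one_comm.mp hV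
  have hU : Uᵀ * U = 1 := by rw [hUd, transpose_transpose, hVV]
  have htail : Measurable fun ξ : Fin (m + 1) → ℝ => Fin.tail ξ := by
    unfold Fin.tail
    fun_prop
  have hW0 : Measurable fun ζ : Fin (m + 1) → ℝ => b (ζ 0) * tw e φ (Fin.tail ζ) :=
    (hb.comp (measurable_pi_apply 0)).mul ((tw_cont e φ).measurable.comp htail)
  have hW : Measurable fun ξ : Fin (m + 1) → ℝ => b ((V *ᵥ ξ) 0) * tw e φ (Fin.tail (V *ᵥ ξ)) :=
    hW0.comp (mulVec_cont V).measurable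
  have h1 := lint_rot U hU _ hW g hg hz q hq0.le
  refine h1.trans ?_
  set g' : (Fin (m + 1) → ℝ) → ℂ := fun ζ => g (MM U *ᵥ ζ) * b (((m : ℝ) + 1) * ζ 0) with hg'
  have hg'm : Measurable g' := (hg.comp (mulVec_cont (MM U)).measurable).mul (hb.comp (by fun_prop))
  have e2 : ∀ ζ : Fin (m + 1) → ℝ, g (MM U *ᵥ ζ) *
      (b ((V *ᵥ (MM U *ᵥ ζ)) 0) * tw e φ (Fin.tail (V *ᵥ (MM U *ᵥ ζ)))) =
      g' ζ * tw e (scB ((m : ℝ) + 1) φ) (Fin.tail ζ) := by
    intro ζ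
    have h2 : V *ᵥ (MM U *ᵥ ζ) = ((m : ℝ) + 1) • ζ := by
      rw [MM_mulVec, mulVec_smul, mulVec_mulVec, hUd, hVV, one_mulVec]
    rw [h2, tw_scB]
    simp only [hg', Pi.smul_apply, smul_eq_mul]
    rw [mul_assoc]
    rfl
  simp only [e2]
  have hb1e : ∀ u, ‖b u‖ₑ ≤ 1 := by
    intro u
    rw [← ofReal_norm, ← ENNReal.ofReal_one]
    exact ENNReal.ofReal_le_ofReal (hb1 u)
  have hone : (1 : ℝ≥0∞) ≤ ENNReal.ofReal (((m : ℝ) + 1) ^ 2) := by
    rw [← ENNReal.ofReal_one]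
    apply ENNReal.ofReal_le_ofReal
    exact one_le_pow₀ (by linarith)
  have hg'0 : ∀ u (v : Fin m → ℝ), v ∉ BA 1 m → g' (Fin.cons u v) = 0 := by
    intro u v hv
    have h2 : g (MM U *ᵥ (Fin.cons u v : Fin (m + 1) → ℝ)) = 0 := by
      apply hz
      intro hc
      apply hv
      have h3 := MM_cube U hU _ hc
      exact ⟨fun i => by simpa using h3.1 i.succ, fun i => by simpa using h3.2 i.succ⟩
    simp only [hg', h2, zero_mul]
  have hBv : volume (BA 1 m) = 2 ^ m := BA1_vol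
  have hmain := hC D e (scB ((m : ℝ) + 1) φ) (Dg_scB _ hφ) g' hg'm
    (2 ^ (m + 1) * (ENNReal.ofReal (((m : ℝ) + 1) ^ 2) * K))
    (ENNReal.mul_ne_top h2t (ENNReal.mul_ne_top ENNReal.ofReal_ne_top hK)) (by
      apply mix_le p hp2 g' hg'm (BA 1 m) measurableSet_Icc _ hg'0
      · calc ∫⁻ ζ, ‖g' ζ‖ₑ ^ p ≤ ∫⁻ ζ, ‖g (MM U *ᵥ ζ)‖ₑ ^ p := by
              apply lintegral_mono
              intro ζ
              apply ENNReal.rpow_le_rpow _ hp0.le
              simp only [hg', enorm_mul]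
              calc _ ≤ ‖g (MM U *ᵥ ζ)‖ₑ * 1 := mul_le_mul' le_rfl (hb1e _)
                _ = _ := mul_one _
          _ ≤ K ^ p := (nrm_rot U hU p (fun ξ => ‖g ξ‖ₑ) hg.enorm).trans hN
          _ ≤ _ := by
              apply ENNReal.rpow_le_rpow _ hp0.le
              calc K = 1 * K := (one_mul K).symm
                _ ≤ _ := mul_le_mul' hone le_rfl
      · rw [hBv, pow_succ]
        calc (2 : ℝ≥0∞) ^ m = 2 ^ m * 1 := (mul_one _).symm
          _ ≤ _ := mul_le_mul' le_rfl (by norm_num)) (by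
      intro h
      set hh : Fin (m + 1) → ℝ := Fin.cons 0 h with hhd
      have e3 : ∀ u (v : Fin m → ℝ), g' (Fin.cons u (v + h)) - g' (Fin.cons u v) =
          (fun ζ => g' (ζ + hh) - g' ζ) (Fin.cons u v) := by
        intro u v
        simp only
        rw [cons_add]
      simp only [e3]
      rw [mul_assoc]
      have hSm : MeasurableSet (BA 1 m ∪ {v : Fin m → ℝ | v + h ∈ BA 1 m}) :=
        measurableSet_Icc.union ((measurable_id.add_const h) measurableSet_Icc)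
      refine mix_le p hp2 (fun ζ => g' (ζ + hh) - g' ζ)
        ((hg'm.comp (measurable_id.add_const _)).sub hg'm)
        (BA 1 m ∪ {v : Fin m → ℝ | v + h ∈ BA 1 m}) hSm ?_ ?_ _ ?_
      · refine (measure_union_le _ _).trans ?_
        have e4 : volume {v : Fin m → ℝ | v + h ∈ BA 1 m} = volume (BA 1 m) :=
          measure_preimage_add_right volume h (BA 1 m)
        rw [e4, hBv, pow_succ]
        apply le_of_eq
        ring
      · intro u v hv
        simp only [mem_union, mem_ofPred_eq, not_or] at hv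
        show g' (Fin.cons u v + hh) - g' (Fin.cons u v) = 0
        rw [hhd, ← cons_add, hg'0 u v hv.1, hg'0 u (v + h) hv.2, sub_zero]
      · have hdiff : ∀ ζ, g' (ζ + hh) - g' ζ = (g (MM U *ᵥ (ζ + hh)) - g (MM U *ᵥ ζ)) *
            b (((m : ℝ) + 1) * ζ 0) := by
          intro ζ
          simp only [hg']
          have : (ζ + hh) 0 = ζ 0 := by simp [hhd]
          rw [this]
          ring
        calc ∫⁻ ζ, ‖g' (ζ + hh) - g' ζ‖ₑ ^ p ≤
            ∫⁻ ζ, ‖g (MM U *ᵥ (ζ + hh)) - g (MM U *ᵥ ζ)‖ₑ ^ p := by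
              apply lintegral_mono
              intro ζ
              apply ENNReal.rpow_le_rpow _ hp0.le
              rw [hdiff, enorm_mul]
              calc _ ≤ ‖g (MM U *ᵥ (ζ + hh)) - g (MM U *ᵥ ζ)‖ₑ * 1 := mul_le_mul' le_rfl (hb1e _)
                _ = _ := mul_one _
          _ ≤ (ENNReal.ofReal (((m : ℝ) + 1) ^ 2) * K * ENNReal.ofReal (‖hh‖ ^ s)) ^ p :=
              reg_rot U hU p s hp0.le hs0 hs1 g hg K hM hh
          _ ≤ _ := by
              apply ENNReal.rpow_le_rpow _ hp0.le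
              apply mul_le_mul' le_rfl
              apply ENNReal.ofReal_le_ofReal
              exact Real.rpow_le_rpow (norm_nonneg _) (cons_norm h) hs0)
  refine (mul_le_mul_right hmain _).trans (le_of_eq ?_)
  rw [← ENNReal.mul_rpow_of_nonneg _ _ hq0.le]
  congr 1
  ring

end Pool.Agent.Y183.PR
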