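import Pool.Agent.Y183.PR.P
set_option autoImplicit false

/-! Sums of polynomials over the orbits of an involution of the coordinates. -/

namespace Pool.Agent.Y183.PR

open MeasureTheory Set Filter Topology Complex Matrix
open scoped ENNReal NNReal
open Pool.Agent.Y183.PP hiding HF
open Pool.Agent.Y183.LS (BA)
open Pool.Agent.Y183.PQ (cD cD_one)

/-- the coordinates of an involution -/
lemma inv_equiv {n : ℕ} (σ : Fin n → Fin n) (hσ : ∀ i, σ (σ i) = i) :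
    ∃ (J I : ℕ) (e : Ix J I n), (∀ j, σ (e (Sum.inl (Sum.inl j))) = e (Sum.inl (Sum.inr j))) ∧
      ∀ l, σ (e (Sum.inr l)) = e (Sum.inr l) := by
  classical
  set A := {i : Fin n // i < σ i} with hA
  set F := {i : Fin n // σ i = i} with hF
  let eA : Fin (Fintype.card A) ≃ A := (Fintype.equivFin A).symm
  let eF : Fin (Fintype.card F) ≃ F := (Fintype.equivFin F).symm
  let f : (Fin (Fintype.card A) ⊕ Fin (Fintype.card A)) ⊕ Fin (Fintype.card F) → Fin n :=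
    Sum.elim (Sum.elim (fun j => (eA j).1) (fun j => σ (eA j).1)) (fun l => (eF l).1)
  have hinj : Function.Injective f := by
    rintro ((j | j) | j) ((k | k) | k) h
    · have h1 : (eA j).1 = (eA k).1 := h
      rw [eA.injective (Subtype.ext h1)]
    · exfalso
      have h1 : (eA j).1 = σ (eA k).1 := h
      have h2 := (eA j).2
      have h3 := (eA k).2
      rw [h1, hσ] at h2
      exact lt_asymm h2 h3
    · exfalso
      have h1 : (eA j).1 = (eF k).1 := h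
      have h2 := (eA j).2
      rw [h1, (eF k).2] at h2
      exact lt_irrefl _ h2
    · exfalso
      have h1 : σ (eA j).1 = (eA k).1 := h
      have h2 := (eA k).2
      have h3 := (eA j).2
      rw [← h1, hσ] at h2
      exact lt_asymm h2 h3
    · have h1 : σ (eA j).1 = σ (eA k).1 := h
      have h2 : (eA j).1 = (eA k).1 := by rw [← hσ (eA j).1, h1, hσ]
      rw [eA.injective (Subtype.ext h2)]
    · exfalso
      have h1 : σ (eA j).1 = (eF k).1 := h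
      have h2 : (eA j).1 = (eF k).1 := by
        rw [← hσ (eA j).1, h1, (eF k).2]
      have h3 := (eA j).2
      rw [h2, (eF k).2] at h3
      exact lt_irrefl _ h3
    · exfalso
      have h1 : (eF j).1 = (eA k).1 := h
      have h2 := (eA k).2
      rw [← h1, (eF j).2] at h2
      exact lt_irrefl _ h2
    · exfalso
      have h1 : (eF j).1 = σ (eA k).1 := h
      have h2 : (eA k).1 = (eF j).1 := by
        rw [← hσ (eA k).1, ← h1, (eF j).2]
      have h3 := (eA k).2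
      rw [h2, (eF j).2] at h3
      exact lt_irrefl _ h3
    · have h1 : (eF j).1 = (eF k).1 := h
      rw [eF.injective (Subtype.ext h1)]
  have hsur : Function.Surjective f := by
    intro i
    rcases lt_trichotomy i (σ i) with h | h | h
    · refine ⟨Sum.inl (Sum.inl (eA.symm ⟨i, h⟩)), ?_⟩
      show (eA (eA.symm ⟨i, h⟩)).1 = i
      rw [Equiv.apply_symm_apply]
    · refine ⟨Sum.inr (eF.symm ⟨i, h.symm⟩), ?_⟩
      show (eF (eF.symm ⟨i, h.symm⟩)).1 = i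
      rw [Equiv.apply_symm_apply]
    · refine ⟨Sum.inl (Sum.inr (eA.symm ⟨σ i, by rw [hσ]; exact h⟩)), ?_⟩
      show σ (eA (eA.symm ⟨σ i, by rw [hσ]; exact h⟩)).1 = i
      rw [Equiv.apply_symm_apply, hσ]
  refine ⟨_, _, Equiv.ofBijective f ⟨hinj, hsur⟩, fun j => rfl, fun l => (eF l).2⟩

/-- the sum of polynomials over an involution -/
noncomputable def phase {n : ℕ} (σ : Fin n → Fin n) (P : Fin n → Poly) (v : Fin n → ℝ) : ℝ :=
  ∑ i, MvPolynomial.eval ![v i, v (σ i)] (P i)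

/-- the restriction to the diagonal -/
noncomputable def dg (P : Poly) : Polynomial ℝ :=
  MvPolynomial.aeval (fun _ => Polynomial.X : Fin 2 → Polynomial ℝ) P

lemma eval_dg (P : Poly) (x : ℝ) : (dg P).eval x = ev P (x, x) := by
  unfold ev dg
  rw [MvPolynomial.aeval_def, MvPolynomial.eval₂_eq', Polynomial.eval_finsetSum,
    MvPolynomial.eval_eq']
  apply Finset.sum_congr rfl
  intro d _
  simp [Fin.prod_univ_two]

lemma deg_dg {D : ℕ} {P : Poly} (hP : P.totalDegree ≤ D) : (dg P).natDegree ≤ D := by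
  unfold dg
  rw [MvPolynomial.aeval_def, MvPolynomial.eval₂_eq']
  apply Polynomial.natDegree_sum_le_of_forall_le
  intro d hd
  refine le_trans ?_ hP
  refine le_trans ?_ (MvPolynomial.le_totalDegree hd)
  rw [Finsupp.sum_fintype _ _ (fun _ => rfl), Fin.prod_univ_two, Fin.sum_univ_two, ← pow_add]
  refine (Polynomial.natDegree_C_mul_le _ _).trans ?_
  exact Polynomial.natDegree_X_pow_le _

lemma phase_tw {n J I : ℕ} (σ : Fin n → Fin n) (hσ : ∀ i, σ (σ i) = i) (e : Ix J I n)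
    (h1 : ∀ j, σ (e (Sum.inl (Sum.inl j))) = e (Sum.inl (Sum.inr j)))
    (h2 : ∀ l, σ (e (Sum.inr l)) = e (Sum.inr l)) (D : ℕ) (P : Fin n → Poly)
    (hP : ∀ i, (P i).totalDegree ≤ D) : ∃ φ : Bk J I, Dg D φ ∧
      ∀ v, cexp (Complex.I * (phase σ P v : ℂ)) = tw e φ v := by
  refine ⟨(fun j => P (e (Sum.inl (Sum.inl j))) + sw (P (e (Sum.inl (Sum.inr j)))),
    fun l => dg (P (e (Sum.inr l)))), ⟨fun j => deg_add (hP _) (deg_sw (hP _)),
      fun l => deg_dg (hP _)⟩, ?_⟩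
  intro v
  have h3 : phase σ P v = (∑ j, ev (P (e (Sum.inl (Sum.inl j))) +
      sw (P (e (Sum.inl (Sum.inr j))))) (Pr e v j)) +
      ∑ l, (dg (P (e (Sum.inr l)))).eval (Qr e v l) := by
    unfold phase
    rw [← e.sum_comp, Fintype.sum_sum_type, Fintype.sum_sum_type, ← Finset.sum_add_distrib]
    congr 1
    · apply Finset.sum_congr rfl
      intro j _
      have h4 : σ (e (Sum.inl (Sum.inr j))) = e (Sum.inl (Sum.inl j)) := by
        rw [← h1, hσ]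
      rw [ev_add, ev_sw, h1, h4]
      rfl
    · apply Finset.sum_congr rfl
      intro l _
      rw [eval_dg, h2]
      rfl
  unfold tw ex e1
  rw [← Complex.exp_sum, ← Complex.exp_sum, ← Complex.exp_add, h3]
  congr 1
  push_cast
  rw [mul_add, Finset.mul_sum, Finset.mul_sum]
  congr 1
  · apply Finset.sum_congr rfl
    intro j _
    ring
  · apply Finset.sum_congr rfl
    intro j _
    ring

lemma cD_le (D J I n : ℕ) (h : J + I ≤ n) : cD D ^ (J + I) ≤ cD D ^ n :=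
  pow_le_pow_right₀ (cD_one D) h

/-- **the estimate for involutions** -/
theorem fullI (m : ℕ) (q : ℝ) (hq : 2 * (((m + 1 : ℕ) : ℝ) + 1) / ((m + 1 : ℕ) : ℝ) < q) :
    ∃ C : ℝ≥0, ∀ (D : ℕ) (σ : Fin (m + 1) → Fin (m + 1)), (∀ i, σ (σ i) = i) →
    ∀ P : Fin (m + 1) → Poly, (∀ i, (P i).totalDegree ≤ D) →
    ∀ V : Matrix (Fin (m + 1)) (Fin (m + 1)) ℝ, Vᵀ * V = 1 →
    ∀ g : (Fin (m + 1) → ℝ) → ℂ, Measurable g → (∀ ξ, ξ ∉ BA 1 (m + 1) → g ξ = 0) →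
    ∀ K : ℝ≥0∞, K ≠ ∞ → ∫⁻ ξ, ‖g ξ‖ₑ ^ 2 ≤ K ^ 2 →
    (∀ h : Fin (m + 1) → ℝ, ∫⁻ ξ, ‖g (ξ + h) - g ξ‖ₑ ^ 2 ≤
      (K * ENNReal.ofReal (‖h‖ ^ (((m + 1 : ℕ) : ℝ) / (2 * (((m + 1 : ℕ) : ℝ) + 1))))) ^ 2) →
    ∫⁻ y : (Fin (m + 1) → ℝ) × ℝ, ‖Pool.Agent.H728R3.SR.ext
      (fun ξ => g ξ * cexp (Complex.I * (phase σ P (V *ᵥ ξ) : ℂ))) y‖ₑ ^ q ≤
        (C * cD D ^ (m + 1) * K) ^ q := by
  choose C hC using fun J I => fullE m J I q hq
  have hq0 : 0 < q := lt_trans (by positivity) hq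
  refine ⟨∑ J ∈ Finset.range (m + 2), ∑ I ∈ Finset.range (m + 2), C J I, ?_⟩
  intro D σ hσ P hP V hV g hg hz K hK hN hM
  obtain ⟨J, I, e, h1, h2⟩ := inv_equiv σ hσ
  obtain ⟨φ, hφ, hφ2⟩ := phase_tw σ hσ e h1 h2 D P hP
  have hcard := card_eq e
  have h3 := hC J I D e φ hφ V hV g hg hz K hK hN hM
  simp only [hφ2]
  refine h3.trans ?_
  apply ENNReal.rpow_le_rpow _ hq0.le
  refine mul_le_mul' (mul_le_mul' ?_ (cD_le D J I (m + 1) (by omega))) le_rfl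
  have h4 : C J I ≤ ∑ J ∈ Finset.range (m + 2), ∑ I ∈ Finset.range (m + 2), C J I := by
    refine le_trans ?_ (Finset.single_le_sum (f := fun J => ∑ I ∈ Finset.range (m + 2), C J I)
      (fun _ _ => zero_le) (Finset.mem_range.mpr (show J < m + 2 by omega)))
    exact Finset.single_le_sum (f := fun I => C J I) (fun _ _ => zero_le)
      (Finset.mem_range.mpr (show I < m + 2 by omega))
  exact_mod_cast h4

lemma two_smul_det (m : ℕ) : ((((m : ℝ) + 1) • (1 : Matrix (Fin m) (Fin m) ℝ))).det =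
    ((m : ℝ) + 1) ^ m := by
  rw [det_smul, det_one, mul_one, Fintype.card_fin]

/-- the mixed norm of a scaled function -/
lemma mix_scale (m : ℕ) (p : ℝ) (hp : 0 < p) (H : (Fin (m + 1) → ℝ) → ℝ≥0∞) (hH : Measurable H) :
    ∫⁻ v : Fin m → ℝ, (∫⁻ u in Icc (-1 : ℝ) 1, H (((m : ℝ) + 1) • Fin.cons u v) ^ p) ^ (2 / p) ≤
      ∫⁻ v : Fin m → ℝ, (∫⁻ u : ℝ, H (Fin.cons u v) ^ p) ^ (2 / p) := by
  have hm0 : (0 : ℝ) ≤ m := Nat.cast_nonneg m
  have hc : ((m : ℝ) + 1) ≠ 0 := by positivity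
  have hcons : ∀ (u : ℝ) (v : Fin m → ℝ), (((m : ℝ) + 1) • Fin.cons u v : Fin (m + 1) → ℝ) =
      Fin.cons (((m : ℝ) + 1) * u) (((m : ℝ) + 1) • v) := by
    intro u v
    ext i
    refine Fin.cases ?_ (fun i => ?_) i <;> simp
  set G : (Fin m → ℝ) → ℝ≥0∞ := fun v => (∫⁻ u : ℝ, H (Fin.cons u v) ^ p) ^ (2 / p) with hG
  have hHp : Measurable fun w : ℝ × (Fin m → ℝ) => H (Fin.cons w.1 w.2) ^ p :=
    (hH.comp Pool.Agent.W771.MD.cons_meas).pow_const p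
  have hGm : Measurable G :=
    (Measurable.lintegral_prod_right' (hHp.comp measurable_swap)).pow_const _
  have h1 : ∀ v : Fin m → ℝ, (∫⁻ u in Icc (-1 : ℝ) 1, H (((m : ℝ) + 1) • Fin.cons u v) ^ p) ^ (2 / p) ≤
      G ((((m : ℝ) + 1) • (1 : Matrix (Fin m) (Fin m) ℝ)) *ᵥ v) := by
    intro v
    have e1 : (((m : ℝ) + 1) • (1 : Matrix (Fin m) (Fin m) ℝ)) *ᵥ v = ((m : ℝ) + 1) • v := by
      rw [smul_mulVec, one_mulVec]
    rw [e1]
    apply ENNReal.rpow_le_rpow _ (by positivity)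
    refine (setLIntegral_le_lintegral _ _).trans ?_
    simp only [hcons]
    have hm1 : Measurable fun u : ℝ => H (Fin.cons u (((m : ℝ) + 1) • v)) ^ p := by
      have : Measurable fun u : ℝ => ((u, ((m : ℝ) + 1) • v) : ℝ × (Fin m → ℝ)) := by fun_prop
      exact hHp.comp this
    rw [Pool.Agent.W771.lint_scale (fun u => H (Fin.cons u (((m : ℝ) + 1) • v)) ^ p) hm1 _ hc]
    have h3 : ENNReal.ofReal |((m : ℝ) + 1)⁻¹| ≤ 1 := by
      rw [← ENNReal.ofReal_one]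
      apply ENNReal.ofReal_le_ofReal
      rw [abs_inv, abs_of_nonneg (by positivity)]
      exact inv_le_one_of_one_le₀ (by linarith)
    calc _ ≤ 1 * _ := mul_le_mul' h3 le_rfl
      _ = _ := one_mul _
  refine (lintegral_mono h1).trans ?_
  have hdet : ((((m : ℝ) + 1) • (1 : Matrix (Fin m) (Fin m) ℝ))).det ≠ 0 := by
    rw [two_smul_det]
    positivity
  rw [Pool.Agent.Y247.QT.lint_mat _ hdet G hGm, two_smul_det]
  have h3 : ENNReal.ofReal |(((m : ℝ) + 1) ^ m)⁻¹| ≤ 1 := by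
    rw [← ENNReal.ofReal_one]
    apply ENNReal.ofReal_le_ofReal
    rw [abs_inv, abs_of_nonneg (by positivity)]
    exact inv_le_one_of_one_le₀ (one_le_pow₀ (by linarith))
  calc _ ≤ 1 * ∫⁻ v, G v := mul_le_mul' h3 le_rfl
    _ = _ := one_mul _

/-- **one rough coordinate, rotated, mixed norms** -/
theorem roughV (m J I : ℕ) (hm : 0 < m) (q p : ℝ) (hq : 2 * ((m : ℝ) + 2) / (m + 1) < q)
    (hp2 : 2 ≤ p) (hp : ((m : ℝ) + 1) * q < p * ((m + 1) * (q - 1) - 2)) : ∃ C : ℝ≥0,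
    ∀ (D : ℕ) (e : Ix J I m) (φ : Bk J I), Dg D φ →
    ∀ V : Matrix (Fin (m + 1)) (Fin (m + 1)) ℝ, Vᵀ * V = 1 →
    ∀ G : (Fin (m + 1) → ℝ) → ℂ, Measurable G → (∀ ξ, ξ ∉ BA 1 (m + 1) → G (V *ᵥ ξ) = 0) →
    ∀ K : ℝ≥0∞, K ≠ ∞ →
    ∫⁻ v : Fin m → ℝ, (∫⁻ u : ℝ, ‖G (Fin.cons u v)‖ₑ ^ p) ^ (2 / p) ≤ K ^ 2 →
    (∀ h : Fin m → ℝ, ∫⁻ v : Fin m → ℝ, (∫⁻ u : ℝ,
      ‖G (Fin.cons u (v + h)) - G (Fin.cons u v)‖ₑ ^ p) ^ (2 / p) ≤
        (K * ENNReal.ofReal (‖h‖ ^ ((m : ℝ) / (2 * (m + 2))))) ^ 2) →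
    ∫⁻ y : (Fin (m + 1) → ℝ) × ℝ, ‖Pool.Agent.H728R3.SR.ext
      (fun ξ => G (V *ᵥ ξ) * tw e φ (Fin.tail (V *ᵥ ξ))) y‖ₑ ^ q ≤
        (C * cD D ^ (J + I) * K) ^ q := by
  obtain ⟨C, hC⟩ := roughE m J I hm q p hq hp2 hp
  have hm0 : (0 : ℝ) ≤ m := Nat.cast_nonneg m
  have hm1 : (0 : ℝ) < m := by exact_mod_cast hm
  have hq0 : 0 < q := lt_trans (by positivity) hq
  have hp0 : 0 < p := by linarith
  set s : ℝ := (m : ℝ) / (2 * (m + 2)) with hs
  have hs0 : 0 ≤ s := by positivity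
  have hs1 : s ≤ 1 := by
    rw [hs, div_le_one (by positivity)]
    linarith
  have hDt : ENNReal.ofReal (((m : ℝ) + 1) ^ (m + 1)) * (C : ℝ≥0∞) *
      ENNReal.ofReal ((m : ℝ) + 1) ≠ ∞ :=
    ENNReal.mul_ne_top (ENNReal.mul_ne_top ENNReal.ofReal_ne_top ENNReal.coe_ne_top)
      ENNReal.ofReal_ne_top
  refine ⟨(ENNReal.ofReal (((m : ℝ) + 1) ^ (m + 1)) * (C : ℝ≥0∞) *
      ENNReal.ofReal ((m : ℝ) + 1)).toNNReal, ?_⟩
  intro D e φ hφ V hV G hG hz K hK hN hM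
  rw [ENNReal.coe_toNNReal hDt]
  set U : Matrix (Fin (m + 1)) (Fin (m + 1)) ℝ := Vᵀ with hUd
  have hVV : V * Vᵀ = 1 := mul_eq_one_comm.mp hV
  have hU : Uᵀ * U = 1 := by rw [hUd, transpose_transpose, hVV]
  have htail : Measurable fun ξ : Fin (m + 1) → ℝ => Fin.tail ξ := by
    unfold Fin.tail
    fun_prop
  have hW0 : Measurable fun ζ : Fin (m + 1) → ℝ => tw e φ (Fin.tail ζ) :=
    (tw_cont e φ).measurable.comp htail
  have hW : Measurable fun ξ : Fin (m + 1) → ℝ => tw e φ (Fin.tail (V *ᵥ ξ)) :=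
    hW0.comp (Pool.Agent.Y247.QT.mulVec_cont V).measurable
  have hGV : Measurable fun ξ : Fin (m + 1) → ℝ => G (V *ᵥ ξ) :=
    hG.comp (Pool.Agent.Y247.QT.mulVec_cont V).measurable
  have h1 := lint_rot U hU _ hW (fun ξ => G (V *ᵥ ξ)) hGV hz q hq0.le
  refine h1.trans ?_
  set g' : (Fin (m + 1) → ℝ) → ℂ := fun ζ => G (((m : ℝ) + 1) • ζ) with hg'
  have hg'm : Measurable g' := hG.comp (measurable_const_smul _)
  have e2 : ∀ ζ : Fin (m + 1) → ℝ, G (V *ᵥ (Pool.Agent.Y247.QT.MM U *ᵥ ζ)) *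
      tw e φ (Fin.tail (V *ᵥ (Pool.Agent.Y247.QT.MM U *ᵥ ζ))) =
      g' ζ * tw e (scB ((m : ℝ) + 1) φ) (Fin.tail ζ) := by
    intro ζ
    have h2 : V *ᵥ (Pool.Agent.Y247.QT.MM U *ᵥ ζ) = ((m : ℝ) + 1) • ζ := by
      rw [Pool.Agent.Y247.QT.MM_mulVec, mulVec_smul, mulVec_mulVec, hUd, hVV, one_mulVec]
    rw [h2, tw_scB]
    rfl
  simp only [e2]
  have hone : (1 : ℝ≥0∞) ≤ ENNReal.ofReal ((m : ℝ) + 1) := by
    rw [← ENNReal.ofReal_one]
    exact ENNReal.ofReal_le_ofReal (by linarith)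
  have hmain := hC D e (scB ((m : ℝ) + 1) φ) (Dg_scB _ hφ) g' hg'm
    (ENNReal.ofReal ((m : ℝ) + 1) * K) (ENNReal.mul_ne_top ENNReal.ofReal_ne_top hK) (by
      refine (mix_scale m p hp0 (fun ζ => ‖G ζ‖ₑ) hG.enorm).trans (hN.trans ?_)
      apply pow_le_pow_left'
      calc K = 1 * K := (one_mul K).symm
        _ ≤ _ := mul_le_mul' hone le_rfl) (by
      intro h
      have e3 : ∀ u (v : Fin m → ℝ), g' (Fin.cons u (v + h)) - g' (Fin.cons u v) =
          (fun ζ => G (ζ + Fin.cons 0 (((m : ℝ) + 1) • h)) - G ζ)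
            (((m : ℝ) + 1) • (Fin.cons u v : Fin (m + 1) → ℝ)) := by
        intro u v
        simp only [hg']
        congr 2
        ext i
        refine Fin.cases ?_ (fun i => ?_) i
        · simp
        · simp
          ring
      simp only [e3]
      have hdm : Measurable fun ζ : Fin (m + 1) → ℝ =>
          ‖G (ζ + (Fin.cons 0 (((m : ℝ) + 1) • h) : Fin (m + 1) → ℝ)) - G ζ‖ₑ :=
        ((hG.comp (measurable_id.add_const _)).sub hG).enorm
      have h4 := mix_scale m p hp0 (fun ζ : Fin (m + 1) → ℝ =>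
        ‖G (ζ + (Fin.cons 0 (((m : ℝ) + 1) • h) : Fin (m + 1) → ℝ)) - G ζ‖ₑ) hdm
      refine h4.trans ?_
      simp only [← Pool.Agent.Y247.QT.cons_add]
      refine (hM (((m : ℝ) + 1) • h)).trans ?_
      apply pow_le_pow_left'
      rw [mul_comm (ENNReal.ofReal ((m : ℝ) + 1)) K, mul_assoc]
      apply mul_le_mul' le_rfl
      rw [← ENNReal.ofReal_mul (by positivity)]
      apply ENNReal.ofReal_le_ofReal
      rw [norm_smul, Real.norm_eq_abs, abs_of_nonneg (by positivity),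
        Real.mul_rpow (by positivity) (norm_nonneg _)]
      gcongr
      calc ((m : ℝ) + 1) ^ s ≤ ((m : ℝ) + 1) ^ (1 : ℝ) :=
            Real.rpow_le_rpow_of_exponent_le (by linarith) hs1
        _ = _ := Real.rpow_one _)
  refine (mul_le_mul_right hmain _).trans (le_of_eq ?_)
  rw [← ENNReal.mul_rpow_of_nonneg _ _ hq0.le]
  congr 1
  ring

/-- **one rough coordinate, involutions** -/
theorem roughI (m : ℕ) (hm : 0 < m) (q p : ℝ) (hq : 2 * ((m : ℝ) + 2) / (m + 1) < q)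
    (hp2 : 2 ≤ p) (hp : ((m : ℝ) + 1) * q < p * ((m + 1) * (q - 1) - 2)) : ∃ C : ℝ≥0,
    ∀ (D : ℕ) (σ : Fin m → Fin m), (∀ i, σ (σ i) = i) →
    ∀ P : Fin m → Poly, (∀ i, (P i).totalDegree ≤ D) →
    ∀ V : Matrix (Fin (m + 1)) (Fin (m + 1)) ℝ, Vᵀ * V = 1 →
    ∀ G : (Fin (m + 1) → ℝ) → ℂ, Measurable G → (∀ ξ, ξ ∉ BA 1 (m + 1) → G (V *ᵥ ξ) = 0) →
    ∀ K : ℝ≥0∞, K ≠ ∞ →
    ∫⁻ v : Fin m → ℝ, (∫⁻ u : ℝ, ‖G (Fin.cons u v)‖ₑ ^ p) ^ (2 / p) ≤ K ^ 2 →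
    (∀ h : Fin m → ℝ, ∫⁻ v : Fin m → ℝ, (∫⁻ u : ℝ,
      ‖G (Fin.cons u (v + h)) - G (Fin.cons u v)‖ₑ ^ p) ^ (2 / p) ≤
        (K * ENNReal.ofReal (‖h‖ ^ ((m : ℝ) / (2 * (m + 2))))) ^ 2) →
    ∫⁻ y : (Fin (m + 1) → ℝ) × ℝ, ‖Pool.Agent.H728R3.SR.ext (fun ξ => G (V *ᵥ ξ) *
      cexp (Complex.I * (phase σ P (Fin.tail (V *ᵥ ξ)) : ℂ))) y‖ₑ ^ q ≤
        (C * cD D ^ (m + 1) * K) ^ q := by
  choose C hC using fun J I => roughV m J I hm q p hq hp2 hp
  have hq0 : 0 < q := lt_trans (by positivity) hq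
  refine ⟨∑ J ∈ Finset.range (m + 2), ∑ I ∈ Finset.range (m + 2), C J I, ?_⟩
  intro D σ hσ P hP V hV G hG hz K hK hN hM
  obtain ⟨J, I, e, h1, h2⟩ := inv_equiv σ hσ
  obtain ⟨φ, hφ, hφ2⟩ := phase_tw σ hσ e h1 h2 D P hP
  have hcard := card_eq e
  have h3 := hC J I D e φ hφ V hV G hG hz K hK hN hM
  simp only [hφ2]
  refine h3.trans ?_
  apply ENNReal.rpow_le_rpow _ hq0.le
  refine mul_le_mul' (mul_le_mul' ?_ (cD_le D J I (m + 1) (by omega))) le_rfl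
  have h4 : C J I ≤ ∑ J ∈ Finset.range (m + 2), ∑ I ∈ Finset.range (m + 2), C J I := by
    refine le_trans ?_ (Finset.single_le_sum (f := fun J => ∑ I ∈ Finset.range (m + 2), C J I)
      (fun _ _ => zero_le) (Finset.mem_range.mpr (show J < m + 2 by omega)))
    exact Finset.single_le_sum (f := fun I => C J I) (fun _ _ => zero_le)
      (Finset.mem_range.mpr (show I < m + 2 by omega))
  exact_mod_cast h4

end Pool.Agent.Y183.PR
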