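import Pool.Agent.Y183.PR.Q
set_option autoImplicit false

/-! Bounded functions of bounded variation. -/

namespace Pool.Agent.Y183.PR

open MeasureTheory Set Filter Topology Complex Matrix
open scoped ENNReal NNReal
open Pool.Agent.Y183.PP hiding HF
open Pool.Agent.Y183.LS (BA BA1_vol)
open Pool.Agent.Y183.PQ (cD cD_one)

/-- one rough coordinate, regularity in `L^p`, involutions -/
theorem roughRI (m : ℕ) (hm : 0 < m) (q p : ℝ) (hq : 2 * ((m : ℝ) + 2) / (m + 1) < q)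
    (hp2 : 2 ≤ p) (hp : ((m : ℝ) + 1) * q < p * ((m + 1) * (q - 1) - 2)) : ∃ C : ℝ≥0,
    ∀ (D : ℕ) (σ : Fin m → Fin m), (∀ i, σ (σ i) = i) →
    ∀ P : Fin m → Poly, (∀ i, (P i).totalDegree ≤ D) →
    ∀ V : Matrix (Fin (m + 1)) (Fin (m + 1)) ℝ, Vᵀ * V = 1 →
    ∀ b : ℝ → ℂ, Measurable b → (∀ u, ‖b u‖ ≤ 1) →
    ∀ g : (Fin (m + 1) → ℝ) → ℂ, Measurable g → (∀ ξ, ξ ∉ BA 1 (m + 1) → g ξ = 0) →
    ∀ K : ℝ≥0∞, K ≠ ∞ → (∫⁻ ξ, ‖g ξ‖ₑ ^ p ≤ K ^ p) →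
    (∀ h : Fin (m + 1) → ℝ, ∫⁻ ξ, ‖g (ξ + h) - g ξ‖ₑ ^ p ≤
      (K * ENNReal.ofReal (‖h‖ ^ ((m : ℝ) / (2 * (m + 2))))) ^ p) →
    ∫⁻ y : (Fin (m + 1) → ℝ) × ℝ, ‖Pool.Agent.H728R3.SR.ext (fun ξ => g ξ *
      (b ((V *ᵥ ξ) 0) * cexp (Complex.I * (phase σ P (Fin.tail (V *ᵥ ξ)) : ℂ)))) y‖ₑ ^ q ≤
        (C * cD D ^ (m + 1) * K) ^ q := by
  choose C hC using fun J I => roughR m J I hm q p hq hp2 hp
  have hq0 : 0 < q := lt_trans (by positivity) hq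
  refine ⟨∑ J ∈ Finset.range (m + 2), ∑ I ∈ Finset.range (m + 2), C J I, ?_⟩
  intro D σ hσ P hP V hV b hb hb1 g hg hz K hK hN hM
  obtain ⟨J, I, e, h1, h2⟩ := inv_equiv σ hσ
  obtain ⟨φ, hφ, hφ2⟩ := phase_tw σ hσ e h1 h2 D P hP
  have hcard := card_eq e
  have h3 := hC J I D e φ hφ V hV b hb hb1 g hg hz K hK hN hM
  simp only [hφ2]
  refine h3.trans ?_
  apply ENNReal.rpow_le_rpow _ hq0.le
  refine mul_le_mul' (mul_le_mul' ?_ (cD_le D J I (m + 1) (by omega))) le_rfl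
  have h4 : C J I ≤ ∑ J ∈ Finset.range (m + 2), ∑ I ∈ Finset.range (m + 2), C J I := by
    refine le_trans ?_ (Finset.single_le_sum (f := fun J => ∑ I ∈ Finset.range (m + 2), C J I)
      (fun _ _ => zero_le) (Finset.mem_range.mpr (show J < m + 2 by omega)))
    exact Finset.single_le_sum (f := fun I => C J I) (fun _ _ => zero_le)
      (Finset.mem_range.mpr (show I < m + 2 by omega))
  exact_mod_cast h4

/-- **bounded functions of bounded variation** -/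
theorem bvI (m : ℕ) (hm : 0 < m) (q : ℝ) (hq : 2 * ((m : ℝ) + 2) / (m + 1) < q) : ∃ C : ℝ≥0,
    ∀ (D : ℕ) (σ : Fin m → Fin m), (∀ i, σ (σ i) = i) →
    ∀ P : Fin m → Poly, (∀ i, (P i).totalDegree ≤ D) →
    ∀ V : Matrix (Fin (m + 1)) (Fin (m + 1)) ℝ, Vᵀ * V = 1 →
    ∀ b : ℝ → ℂ, Measurable b → (∀ u, ‖b u‖ ≤ 1) →
    ∀ g : (Fin (m + 1) → ℝ) → ℂ, Measurable g → (∀ ξ, ξ ∉ BA 1 (m + 1) → g ξ = 0) →
    (∀ ξ, ‖g ξ‖ ≤ 1) → ∀ W : ℝ≥0, 1 ≤ W →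
    (∀ h : Fin (m + 1) → ℝ, ∫⁻ ξ, ‖g (ξ + h) - g ξ‖ₑ ≤ W * ENNReal.ofReal ‖h‖) →
    ∫⁻ y : (Fin (m + 1) → ℝ) × ℝ, ‖Pool.Agent.H728R3.SR.ext (fun ξ => g ξ *
      (b ((V *ᵥ ξ) 0) * cexp (Complex.I * (phase σ P (Fin.tail (V *ᵥ ξ)) : ℂ)))) y‖ₑ ^ q ≤
        (C * cD D ^ (m + 1) * (W : ℝ≥0∞) ^ ((m : ℝ) / (2 * (m + 2)))) ^ q := by
  have hm0 : (1 : ℝ) ≤ m := by exact_mod_cast hm
  set p : ℝ := 2 * (m + 2) / m with hpd
  have hmp : (0 : ℝ) < m := by linarith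
  have hpm : p * m = 2 * (m + 2) := by
    rw [hpd]
    field_simp
  have hp2 : 2 ≤ p := by
    rw [hpd, le_div_iff₀ hmp]
    linarith
  have hp : ((m : ℝ) + 1) * q < p * ((m + 1) * (q - 1) - 2) := by
    rw [div_lt_iff₀ (by linarith)] at hq
    rw [hpd, div_mul_eq_mul_div, lt_div_iff₀ hmp]
    nlinarith
  set s : ℝ := (m : ℝ) / (2 * (m + 2)) with hs
  have hsp : s * p = 1 := by
    rw [hs, hpd]
    field_simp
  have hs0 : 0 ≤ s := by positivity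
  have hp0 : 0 ≤ p := by linarith
  obtain ⟨C, hC⟩ := roughRI m hm q p hq hp2 hp
  have hc2 : ((2 : ℝ≥0∞) ^ (m + 1)) ≠ ∞ := ENNReal.pow_ne_top (by norm_num)
  refine ⟨C * 2 ^ (m + 1), ?_⟩
  intro D σ hσ P hP V hV b hb hb1 g hg hz hbd W hW hM
  have hWt : (W : ℝ≥0∞) ^ s ≠ ∞ := ENNReal.rpow_ne_top_of_nonneg hs0 ENNReal.coe_ne_top
  set K : ℝ≥0∞ := 2 ^ (m + 1) * (W : ℝ≥0∞) ^ s with hK
  have hKt : K ≠ ∞ := ENNReal.mul_ne_top hc2 hWt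
  have hKp : K ^ p = (2 ^ (m + 1)) ^ p * W := by
    rw [hK, ENNReal.mul_rpow_of_nonneg _ _ hp0, ← ENNReal.rpow_mul, hsp, ENNReal.rpow_one]
  have hWe : (1 : ℝ≥0∞) ≤ W := by exact_mod_cast hW
  have hbe : ∀ ξ, ‖g ξ‖ₑ ≤ 1 := by
    intro ξ
    rw [← ofReal_norm, ← ENNReal.ofReal_one]
    exact ENNReal.ofReal_le_ofReal (hbd ξ)
  have hcm : MeasurableSet (BA 1 (m + 1)) := measurableSet_Icc
  have hcv : volume (BA 1 (m + 1)) = 2 ^ (m + 1) := BA1_vol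
  have h1le : (1 : ℝ≥0∞) ≤ 2 ^ (m + 1) := one_le_pow₀ (by norm_num)
  have hN : ∫⁻ ξ, ‖g ξ‖ₑ ^ p ≤ K ^ p := by
    calc ∫⁻ ξ, ‖g ξ‖ₑ ^ p ≤ ∫⁻ ξ, (BA 1 (m + 1)).indicator (fun _ => (1 : ℝ≥0∞)) ξ := by
          apply lintegral_mono
          intro ξ
          simp only
          by_cases h : ξ ∈ BA 1 (m + 1)
          · rw [indicator_of_mem h]
            exact ENNReal.rpow_le_one (hbe ξ) hp0
          · rw [indicator_of_notMem h, hz ξ h, enorm_zero, ENNReal.zero_rpow_of_pos (by linarith)]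
      _ = 2 ^ (m + 1) := by
          rw [lintegral_indicator hcm, lintegral_const, Measure.restrict_apply_univ, one_mul, hcv]
      _ ≤ (2 ^ (m + 1)) ^ p * 1 := by
          rw [mul_one]
          calc (2 : ℝ≥0∞) ^ (m + 1) = (2 ^ (m + 1)) ^ (1 : ℝ) := (ENNReal.rpow_one _).symm
            _ ≤ _ := ENNReal.rpow_le_rpow_of_exponent_le h1le (by linarith)
      _ ≤ (2 ^ (m + 1)) ^ p * W := by gcongr
      _ = _ := hKp.symm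
  have hM' : ∀ h : Fin (m + 1) → ℝ, ∫⁻ ξ, ‖g (ξ + h) - g ξ‖ₑ ^ p ≤
        (K * ENNReal.ofReal (‖h‖ ^ s)) ^ p := by
    intro h
    have e0 : ENNReal.ofReal (‖h‖ ^ s) ^ p = ENNReal.ofReal ‖h‖ := by
      rw [ENNReal.ofReal_rpow_of_nonneg (by positivity) hp0, ← Real.rpow_mul (norm_nonneg _), hsp,
        Real.rpow_one]
    have h2 : ∀ ξ, ‖g (ξ + h) - g ξ‖ₑ ^ p ≤ (2 : ℝ≥0∞) ^ (p - 1) * ‖g (ξ + h) - g ξ‖ₑ := by
      intro ξ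
      have h3 : ‖g (ξ + h) - g ξ‖ₑ ≤ 2 := by
        refine (enorm_sub_le).trans ?_
        calc ‖g (ξ + h)‖ₑ + ‖g ξ‖ₑ ≤ 1 + 1 := add_le_add (hbe _) (hbe _)
          _ = 2 := by norm_num
      calc ‖g (ξ + h) - g ξ‖ₑ ^ p = ‖g (ξ + h) - g ξ‖ₑ ^ ((p - 1) + 1) := by
            congr 1
            ring
        _ = ‖g (ξ + h) - g ξ‖ₑ ^ (p - 1) * ‖g (ξ + h) - g ξ‖ₑ := by
            rw [ENNReal.rpow_add_of_nonneg _ _ (by linarith) zero_le_one, ENNReal.rpow_one]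
        _ ≤ _ := by
            gcongr
            linarith
    have h2t : (2 : ℝ≥0∞) ^ (p - 1) ≠ ∞ :=
      ENNReal.rpow_ne_top_of_nonneg (by linarith) (by norm_num)
    calc ∫⁻ ξ, ‖g (ξ + h) - g ξ‖ₑ ^ p ≤ ∫⁻ ξ, (2 : ℝ≥0∞) ^ (p - 1) * ‖g (ξ + h) - g ξ‖ₑ :=
          lintegral_mono h2
      _ = (2 : ℝ≥0∞) ^ (p - 1) * ∫⁻ ξ, ‖g (ξ + h) - g ξ‖ₑ := lintegral_const_mul' _ _ h2t
      _ ≤ (2 ^ (m + 1)) ^ p * (W * ENNReal.ofReal ‖h‖) := by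
          refine mul_le_mul' ?_ (hM h)
          calc (2 : ℝ≥0∞) ^ (p - 1) ≤ 2 ^ p :=
                ENNReal.rpow_le_rpow_of_exponent_le (by norm_num) (by linarith)
            _ ≤ _ := by
                apply ENNReal.rpow_le_rpow _ hp0
                calc (2 : ℝ≥0∞) = 2 ^ 1 := (pow_one _).symm
                  _ ≤ _ := pow_le_pow_right₀ (by norm_num) (by omega)
      _ = _ := by
          rw [ENNReal.mul_rpow_of_nonneg _ _ hp0, e0, hKp]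
          ring
  refine (hC D σ hσ P hP V hV b hb hb1 g hg hz K hKt hN hM').trans (le_of_eq ?_)
  rw [hK]
  push_cast
  congr 1
  ring

end Pool.Agent.Y183.PR
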