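import Mathlib
set_option autoImplicit false

/-! The regularity is optimal. -/

namespace Pool.Agent.Y183.PR.Sharp

open MeasureTheory Set Filter Topology Complex
open scoped ENNReal NNReal

variable {n : ℕ}

/-- the cube of side `2 δ` -/
abbrev Q (n : ℕ) (δ : ℝ) : Set (Fin n → ℝ) := Icc (fun _ => -δ) (fun _ => δ)

lemma Q_vol (δ : ℝ) (hδ : 0 ≤ δ) : volume (Q n δ) = ENNReal.ofReal ((2 * δ) ^ n) := by
  rw [Real.volume_Icc_pi, Finset.prod_const, Finset.card_univ, Fintype.card_fin,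
    ← ENNReal.ofReal_pow (by linarith)]
  congr 2
  ring

/-- the test function -/
noncomputable def F (n : ℕ) (δ : ℝ) : (Fin n → ℝ) → ℂ := (Q n δ).indicator fun _ => 1

lemma F_meas (δ : ℝ) : Measurable (F n δ) := measurable_const.indicator measurableSet_Icc

lemma F_sq (δ : ℝ) (ξ : Fin n → ℝ) : ‖F n δ ξ‖ₑ ^ 2 = (Q n δ).indicator (fun _ => 1) ξ := by
  unfold F
  by_cases h : ξ ∈ Q n δ
  · rw [indicator_of_mem h, indicator_of_mem h]; simp
  · rw [indicator_of_notMem h, indicator_of_notMem h]; simp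

lemma F_norm (δ : ℝ) (hδ : 0 ≤ δ) : ∫⁻ ξ, ‖F n δ ξ‖ₑ ^ 2 = ENNReal.ofReal ((2 * δ) ^ n) := by
  simp only [F_sq]
  rw [lintegral_indicator_const measurableSet_Icc, one_mul, Q_vol δ hδ]

/-- one side of the boundary -/
lemma S_vol (δ h : ℝ) : volume {a : ℝ | a ∈ Icc (-δ) δ ∧ a + h ∉ Icc (-δ) δ} ≤
    ENNReal.ofReal |h| := by
  rcases le_total 0 h with hh | hh
  · have hsub : {a : ℝ | a ∈ Icc (-δ) δ ∧ a + h ∉ Icc (-δ) δ} ⊆ Icc (δ - h) δ := by
      rintro a ⟨h1, h2⟩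
      refine ⟨?_, h1.2⟩
      by_contra hc
      push Not at hc
      exact h2 ⟨by linarith [h1.1], by linarith⟩
    refine (measure_mono hsub).trans ?_
    rw [Real.volume_Icc, abs_of_nonneg hh]
    apply ENNReal.ofReal_le_ofReal
    linarith
  · have hsub : {a : ℝ | a ∈ Icc (-δ) δ ∧ a + h ∉ Icc (-δ) δ} ⊆ Icc (-δ) (-δ - h) := by
      rintro a ⟨h1, h2⟩
      refine ⟨h1.1, ?_⟩
      by_contra hc
      push Not at hc
      exact h2 ⟨by linarith, by linarith [h1.2]⟩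
    refine (measure_mono hsub).trans ?_
    rw [Real.volume_Icc, abs_of_nonpos hh]
    apply ENNReal.ofReal_le_ofReal
    linarith

lemma bd_vol (n : ℕ) (δ : ℝ) (hδ : 0 < δ) (h : Fin n → ℝ) :
    volume {ξ : Fin n → ℝ | ξ ∈ Q n δ ∧ ξ + h ∉ Q n δ} ≤
      ENNReal.ofReal (n * ((2 * δ) ^ n * (‖h‖ / (2 * δ)))) := by
  classical
  have hsub : {ξ : Fin n → ℝ | ξ ∈ Q n δ ∧ ξ + h ∉ Q n δ} ⊆
      ⋃ j : Fin n, Set.pi univ (Function.update (fun _ : Fin n => Icc (-δ) δ) j
        {a : ℝ | a ∈ Icc (-δ) δ ∧ a + h j ∉ Icc (-δ) δ}) := by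
    rintro ξ ⟨h1, h2⟩
    have h3 : ∃ j, ξ j + h j ∉ Icc (-δ) δ := by
      by_contra hc
      push Not at hc
      exact h2 ⟨fun j => (hc j).1, fun j => (hc j).2⟩
    obtain ⟨j, hj⟩ := h3
    refine mem_iUnion.mpr ⟨j, fun i _ => ?_⟩
    by_cases hij : i = j
    · subst hij
      rw [Function.update_self]
      exact ⟨⟨h1.1 i, h1.2 i⟩, hj⟩
    · rw [Function.update_of_ne hij]
      exact ⟨h1.1 i, h1.2 i⟩
  have hpi : ∀ j : Fin n, volume (Set.pi univ (Function.update (fun _ : Fin n => Icc (-δ) δ) j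
        {a : ℝ | a ∈ Icc (-δ) δ ∧ a + h j ∉ Icc (-δ) δ})) ≤
      ENNReal.ofReal ((2 * δ) ^ n * (‖h‖ / (2 * δ))) := by
    intro j
    rw [volume_pi_pi, ← Finset.mul_prod_erase Finset.univ _ (Finset.mem_univ j),
      Function.update_self]
    have h4 : ∏ i ∈ Finset.univ.erase j, volume (Function.update (fun _ : Fin n => Icc (-δ) δ) j
        {a : ℝ | a ∈ Icc (-δ) δ ∧ a + h j ∉ Icc (-δ) δ} i) = ENNReal.ofReal ((2 * δ) ^ (n - 1)) := by
      rw [Finset.prod_congr rfl (g := fun _ => ENNReal.ofReal (2 * δ))]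
      · rw [Finset.prod_const, Finset.card_erase_of_mem (Finset.mem_univ j), Finset.card_univ,
          Fintype.card_fin, ENNReal.ofReal_pow (by linarith)]
      · intro i hi
        rw [Function.update_of_ne (Finset.ne_of_mem_erase hi), Real.volume_Icc]
        congr 1
        ring
    rw [h4]
    have hn : 1 ≤ n := by
      have := j.isLt
      omega
    calc volume {a : ℝ | a ∈ Icc (-δ) δ ∧ a + h j ∉ Icc (-δ) δ} * ENNReal.ofReal ((2 * δ) ^ (n - 1)) ≤
        ENNReal.ofReal |h j| * ENNReal.ofReal ((2 * δ) ^ (n - 1)) := by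
          gcongr
          exact S_vol δ (h j)
      _ ≤ ENNReal.ofReal ‖h‖ * ENNReal.ofReal ((2 * δ) ^ (n - 1)) := by
          gcongr
          exact norm_le_pi_norm h j
      _ = _ := by
          rw [← ENNReal.ofReal_mul (norm_nonneg _)]
          congr 1
          have h5 : (2 * δ) ^ n = (2 * δ) ^ (n - 1) * (2 * δ) := by
            rw [← pow_succ]
            congr 1
            omega
          rw [h5]
          field_simp
  refine (measure_mono hsub).trans ((measure_iUnion_fintype_le _ _).trans ?_)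
  refine (Finset.sum_le_sum fun j _ => hpi j).trans ?_
  rw [Finset.sum_const, Finset.card_univ, Fintype.card_fin, nsmul_eq_mul,
    ENNReal.ofReal_mul (Nat.cast_nonneg n), ENNReal.ofReal_natCast]

/-- the regularity of the test function -/
lemma F_reg (hn : 1 ≤ n) (δ s : ℝ) (hδ : 0 < δ) (hs : 0 ≤ s) (hs1 : s ≤ 1 / 2) (h : Fin n → ℝ) :
    ∫⁻ ξ, ‖F n δ (ξ + h) - F n δ ξ‖ₑ ^ 2 ≤
      ENNReal.ofReal (2 * n * ((2 * δ) ^ n * (‖h‖ / (2 * δ)) ^ (2 * s))) := by
  set A1 : Set (Fin n → ℝ) := {ξ | ξ ∈ Q n δ ∧ ξ + h ∉ Q n δ} with hA1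
  set A2 : Set (Fin n → ℝ) := {ξ | ξ ∉ Q n δ ∧ ξ + h ∈ Q n δ} with hA2
  have hQm : MeasurableSet (Q n δ) := measurableSet_Icc
  have hQh : MeasurableSet {ξ : Fin n → ℝ | ξ + h ∈ Q n δ} := (measurable_id.add_const h) hQm
  have hA1m : MeasurableSet A1 := hQm.inter hQh.compl
  have hA2m : MeasurableSet A2 := hQm.compl.inter hQh
  have h1 : ∫⁻ ξ, ‖F n δ (ξ + h) - F n δ ξ‖ₑ ^ 2 ≤ volume A1 + volume A2 := by
    have v1 : volume A1 = ∫⁻ ξ, A1.indicator (fun _ => (1 : ℝ≥0∞)) ξ := by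
      rw [lintegral_indicator_const hA1m, one_mul]
    have v2 : volume A2 = ∫⁻ ξ, A2.indicator (fun _ => (1 : ℝ≥0∞)) ξ := by
      rw [lintegral_indicator_const hA2m, one_mul]
    rw [v1, v2, ← lintegral_add_left (measurable_const.indicator hA1m)]
    apply lintegral_mono
    intro ξ
    simp only
    unfold F
    by_cases ha : ξ ∈ Q n δ <;> by_cases hb : ξ + h ∈ Q n δ
    · rw [indicator_of_mem ha, indicator_of_mem hb]
      simp
    · rw [indicator_of_mem ha, indicator_of_notMem hb,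
        indicator_of_mem (show ξ ∈ A1 from ⟨ha, hb⟩)]
      simp
    · rw [indicator_of_notMem ha, indicator_of_mem hb,
        indicator_of_mem (show ξ ∈ A2 from ⟨ha, hb⟩)]
      simp
    · rw [indicator_of_notMem ha, indicator_of_notMem hb]
      simp
  have hA2v : volume A2 = volume {ξ : Fin n → ℝ | ξ ∈ Q n δ ∧ ξ + -h ∉ Q n δ} := by
    rw [← measure_preimage_add_right volume h {ξ : Fin n → ℝ | ξ ∈ Q n δ ∧ ξ + -h ∉ Q n δ}]
    congr 1
    ext ξ
    simp only [hA2, mem_ofPred_eq, mem_preimage, add_neg_cancel_right]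
    tauto
  have b1 : volume A1 + volume A2 ≤ ENNReal.ofReal (2 * n * ((2 * δ) ^ n * (‖h‖ / (2 * δ)))) := by
    rw [hA2v]
    refine (add_le_add (bd_vol n δ hδ h) (bd_vol n δ hδ (-h))).trans ?_
    rw [norm_neg, ← ENNReal.ofReal_add (by positivity) (by positivity)]
    apply ENNReal.ofReal_le_ofReal
    apply le_of_eq
    ring
  have b2 : volume A1 + volume A2 ≤ ENNReal.ofReal (2 * n * ((2 * δ) ^ n * 1)) := by
    rw [hA2v]
    have c1 : volume A1 ≤ volume (Q n δ) := measure_mono fun ξ hξ => hξ.1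
    have c2 : volume {ξ : Fin n → ℝ | ξ ∈ Q n δ ∧ ξ + -h ∉ Q n δ} ≤ volume (Q n δ) :=
      measure_mono fun ξ hξ => hξ.1
    refine (add_le_add c1 c2).trans ?_
    rw [Q_vol δ hδ.le, ← ENNReal.ofReal_add (by positivity) (by positivity)]
    apply ENNReal.ofReal_le_ofReal
    have hn1 : (1 : ℝ) ≤ n := by exact_mod_cast hn
    have : (0 : ℝ) < (2 * δ) ^ n := by positivity
    nlinarith
  refine h1.trans ?_
  rcases le_total (‖h‖ / (2 * δ)) 1 with hx | hx
  · refine b1.trans (ENNReal.ofReal_le_ofReal ?_)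
    gcongr
    calc ‖h‖ / (2 * δ) = (‖h‖ / (2 * δ)) ^ (1 : ℝ) := (Real.rpow_one _).symm
      _ ≤ (‖h‖ / (2 * δ)) ^ (2 * s) := by
          rcases eq_or_lt_of_le (show 0 ≤ ‖h‖ / (2 * δ) by positivity) with h0 | h0
          · rw [← h0, Real.zero_rpow one_ne_zero]
            positivity
          · exact Real.rpow_le_rpow_of_exponent_ge h0 hx (by linarith)
  · refine b2.trans (ENNReal.ofReal_le_ofReal ?_)
    gcongr
    exact Real.one_le_rpow hx (by linarith)

/-- the extension operator -/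
noncomputable def E (f : (Fin n → ℝ) → ℂ) (y : (Fin n → ℝ) × ℝ) : ℂ :=
  ∫ ξ in Icc (fun _ : Fin n => (-1 : ℝ)) (fun _ => 1),
    f ξ * cexp (2 * Real.pi * I * ((∑ j, ξ j * y.1 j + (∑ j, ξ j ^ 2) * y.2 : ℝ) : ℂ))

/-- the lower bound of the extension -/
lemma low (hn : 1 ≤ n) (δ : ℝ) (hδ : 0 < δ) (hδ1 : δ ≤ 1) (y : (Fin n → ℝ) × ℝ)
    (hy : y ∈ Q n (1 / (16 * n * δ)) ×ˢ Icc (-(1 / (16 * n * δ ^ 2))) (1 / (16 * n * δ ^ 2))) :
    (2 * δ) ^ n / 2 ≤ ‖E (F n δ) y‖ := by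
  have hn1 : (1 : ℝ) ≤ n := by exact_mod_cast hn
  obtain ⟨x, t⟩ := y
  obtain ⟨hx, ht⟩ := hy
  simp only at hx ht
  set θ : (Fin n → ℝ) → ℝ := fun ξ => 2 * Real.pi * (∑ j, ξ j * x j + (∑ j, ξ j ^ 2) * t) with hθ
  have hθc : Continuous θ := by
    rw [hθ]
    fun_prop
  have e1 : E (F n δ) (x, t) = ∫ ξ in Q n δ, cexp ((θ ξ : ℂ) * I) := by
    unfold E F
    have hsub : Q n δ ⊆ Icc (fun _ : Fin n => (-1 : ℝ)) (fun _ => 1) := by
      intro ξ hξ
      exact ⟨fun j => by have := hξ.1 j; simp only at this ⊢; linarith,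
        fun j => by have := hξ.2 j; simp only at this ⊢; linarith⟩
    rw [← integral_indicator measurableSet_Icc, ← integral_indicator measurableSet_Icc]
    congr 1
    ext ξ
    by_cases h : ξ ∈ Q n δ
    · rw [indicator_of_mem (hsub h), indicator_of_mem h, indicator_of_mem h, one_mul]
      congr 1
      simp only [hθ]
      push_cast
      ring
    · by_cases h' : ξ ∈ Icc (fun _ : Fin n => (-1 : ℝ)) (fun _ => 1)
      · rw [indicator_of_mem h', indicator_of_notMem h, indicator_of_notMem h, zero_mul]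
      · rw [indicator_of_notMem h', indicator_of_notMem h]
  have hbd : ∀ ξ ∈ Q n δ, |θ ξ| ≤ Real.pi / 4 := by
    intro ξ hξ
    have h1 : |∑ j, ξ j * x j| ≤ 1 / 16 := by
      refine (Finset.abs_sum_le_sum_abs _ _).trans ?_
      calc ∑ j, |ξ j * x j| ≤ ∑ _j : Fin n, δ * (1 / (16 * n * δ)) := by
            apply Finset.sum_le_sum
            intro j _
            rw [abs_mul]
            have a1 : |ξ j| ≤ δ := abs_le.mpr ⟨hξ.1 j, hξ.2 j⟩
            have a2 : |x j| ≤ 1 / (16 * n * δ) := abs_le.mpr ⟨hx.1 j, hx.2 j⟩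
            exact mul_le_mul a1 a2 (abs_nonneg _) hδ.le
        _ = 1 / 16 := by
            rw [Finset.sum_const, Finset.card_univ, Fintype.card_fin, nsmul_eq_mul]
            field_simp
    have h2 : |(∑ j, ξ j ^ 2) * t| ≤ 1 / 16 := by
      rw [abs_mul]
      have a1 : |∑ j, ξ j ^ 2| ≤ n * δ ^ 2 := by
        rw [abs_of_nonneg (Finset.sum_nonneg fun _ _ => sq_nonneg _)]
        calc ∑ j, ξ j ^ 2 ≤ ∑ _j : Fin n, δ ^ 2 := by
              apply Finset.sum_le_sum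
              intro j _
              exact sq_le_sq' (hξ.1 j) (hξ.2 j)
          _ = n * δ ^ 2 := by
              rw [Finset.sum_const, Finset.card_univ, Fintype.card_fin, nsmul_eq_mul]
      have a2 : |t| ≤ 1 / (16 * n * δ ^ 2) := abs_le.mpr ⟨ht.1, ht.2⟩
      calc |∑ j, ξ j ^ 2| * |t| ≤ (n * δ ^ 2) * (1 / (16 * n * δ ^ 2)) :=
            mul_le_mul a1 a2 (abs_nonneg _) (by positivity)
        _ = 1 / 16 := by field_simp
    have hpi := Real.pi_pos
    calc |θ ξ| = 2 * Real.pi * |∑ j, ξ j * x j + (∑ j, ξ j ^ 2) * t| := by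
          rw [hθ]
          simp only
          rw [abs_mul, abs_of_pos (by positivity)]
      _ ≤ 2 * Real.pi * (1 / 16 + 1 / 16) := by
          gcongr
          exact (abs_add_le _ _).trans (add_le_add h1 h2)
      _ = Real.pi / 4 := by ring
  have hint : IntegrableOn (fun ξ => cexp ((θ ξ : ℂ) * I)) (Q n δ) := by
    apply Continuous.integrableOn_Icc
    fun_prop
  rw [e1]
  refine le_trans ?_ (Complex.re_le_norm _)
  have e2 : (∫ ξ in Q n δ, cexp ((θ ξ : ℂ) * I)).re = ∫ ξ in Q n δ, Real.cos (θ ξ) := by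
    have h3 := integral_re hint
    simp only [RCLike.re_to_complex] at h3
    rw [← h3]
    congr 1
    ext ξ
    rw [Complex.exp_ofReal_mul_I_re]
  rw [e2]
  have hvr : (volume.restrict (Q n δ)).real univ = (2 * δ) ^ n := by
    rw [Measure.real, Measure.restrict_apply_univ, Q_vol δ hδ.le, ENNReal.toReal_ofReal (by positivity)]
  have h4 : ∫ _ξ in Q n δ, (1 / 2 : ℝ) = (2 * δ) ^ n / 2 := by
    rw [integral_const, hvr, smul_eq_mul]
    ring
  rw [← h4]
  have hfin : IsFiniteMeasure (volume.restrict (Q n δ)) := ⟨by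
    rw [Measure.restrict_apply_univ, Q_vol δ hδ.le]
    exact ENNReal.ofReal_lt_top⟩
  apply setIntegral_mono_on
  · exact integrable_const _
  · apply Continuous.integrableOn_Icc
    fun_prop
  · exact measurableSet_Icc
  · intro ξ hξ
    have h5 := hbd ξ hξ
    have hpi := Real.pi_pos
    rw [← Real.cos_abs]
    have h6 : Real.cos (Real.pi / 3) ≤ Real.cos |θ ξ| :=
      Real.cos_le_cos_of_nonneg_of_le_pi (abs_nonneg _) (by linarith) (by linarith)
    rw [Real.cos_pi_div_three] at h6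
    exact h6

/-- **the regularity is optimal** -/
theorem sharp (hn : 1 ≤ n) (s q : ℝ) (hs : 0 ≤ s) (hs1 : s ≤ 1 / 2) (hq : 0 < q)
    (hsq : q * ((n : ℝ) / 2 + s) < n + 2) (C : ℝ≥0) :
    ∃ (g : (Fin n → ℝ) → ℂ) (K : ℝ≥0), Measurable g ∧
      (∀ ξ, ξ ∉ Icc (fun _ : Fin n => (-1 : ℝ)) (fun _ => 1) → g ξ = 0) ∧
      ∫⁻ ξ, ‖g ξ‖ₑ ^ 2 ≤ (K : ℝ≥0∞) ^ 2 ∧
      (∀ h : Fin n → ℝ, ∫⁻ ξ, ‖g (ξ + h) - g ξ‖ₑ ^ 2 ≤ (K * ENNReal.ofReal (‖h‖ ^ s)) ^ 2) ∧
      (C * K : ℝ≥0∞) ^ q < ∫⁻ y, ‖E g y‖ₑ ^ q := by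
  have hn1 : (1 : ℝ) ≤ n := by exact_mod_cast hn
  have hn0 : (0 : ℝ) < n := by linarith
  -- the constants
  set γ : ℝ := n + 2 - q * ((n : ℝ) / 2 + s) with hγ
  have hγ0 : 0 < γ := by rw [hγ]; linarith
  set A : ℝ := (1 / 2) ^ q * (1 / (4 * n)) ^ n * (1 / (2 * n)) with hA
  have hA0 : 0 < A := by positivity
  set B : ℝ := (C : ℝ) ^ q * (2 * n) ^ (q / 2) with hB
  have hB0 : 0 ≤ B := by positivity
  obtain ⟨N, hN⟩ := pow_unbounded_of_one_lt (B / A) (Real.one_lt_rpow (show (1 : ℝ) < 2 by norm_num) hγ0)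
  set ε : ℝ := (1 / 2) ^ N with hε
  have hε0 : 0 < ε := by positivity
  have hε1 : ε ≤ 1 := pow_le_one₀ (by norm_num) (by norm_num)
  have hεγ : B < A * ε ^ (-γ) := by
    have e1 : ε ^ (-γ) = ((2 : ℝ) ^ γ) ^ N := by
      rw [hε, ← Real.rpow_natCast, ← Real.rpow_mul (by norm_num), one_div, Real.inv_rpow (by norm_num),
        ← Real.rpow_neg (by norm_num), ← Real.rpow_natCast, ← Real.rpow_mul (by norm_num)]
      congr 1
      ring
    rw [e1]
    rw [div_lt_iff₀ hA0] at hN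
    linarith
  set δ : ℝ := ε / 2 with hδ
  have hδ0 : 0 < δ := by positivity
  have hδ1 : δ ≤ 1 := by linarith
  have h2δ : 2 * δ = ε := by rw [hδ]; ring
  set K : ℝ := √(2 * n) * ε ^ ((n : ℝ) / 2 - s) with hK
  have hK0 : 0 ≤ K := by positivity
  have hK2 : K ^ 2 = 2 * n * ε ^ ((n : ℝ) - 2 * s) := by
    rw [hK, mul_pow, Real.sq_sqrt (by positivity), ← Real.rpow_natCast (ε ^ _) 2,
      ← Real.rpow_mul hε0.le]
    congr 2
    push_cast
    ring
  refine ⟨F n δ, K.toNNReal, F_meas δ, ?_, ?_, ?_, ?_⟩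
  · intro ξ hξ
    apply indicator_of_notMem
    intro hc
    apply hξ
    exact ⟨fun j => by have := hc.1 j; simp only at this ⊢; linarith,
      fun j => by have := hc.2 j; simp only at this ⊢; linarith⟩
  · rw [F_norm δ hδ0.le, h2δ]
    show ENNReal.ofReal (ε ^ n) ≤ (ENNReal.ofReal K) ^ 2
    rw [← ENNReal.ofReal_pow hK0, hK2]
    apply ENNReal.ofReal_le_ofReal
    have e1 : ε ^ n = ε ^ (n : ℝ) := (Real.rpow_natCast _ _).symm
    have e2 : ε ^ (n : ℝ) ≤ ε ^ ((n : ℝ) - 2 * s) :=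
      Real.rpow_le_rpow_of_exponent_ge hε0 hε1 (by linarith)
    rw [e1]
    have e3 : 0 ≤ ε ^ ((n : ℝ) - 2 * s) := by positivity
    nlinarith
  · intro h
    refine (F_reg hn δ s hδ0 hs hs1 h).trans ?_
    show _ ≤ (ENNReal.ofReal K * ENNReal.ofReal (‖h‖ ^ s)) ^ 2
    rw [← ENNReal.ofReal_mul hK0, ← ENNReal.ofReal_pow (by positivity), h2δ, mul_pow, hK2]
    apply ENNReal.ofReal_le_ofReal
    apply le_of_eq
    rw [Real.div_rpow (norm_nonneg _) hε0.le, Real.rpow_sub hε0, Real.rpow_natCast,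
      ← Real.rpow_natCast (‖h‖ ^ s) 2, ← Real.rpow_mul (norm_nonneg _)]
    have e1 : s * ((2 : ℕ) : ℝ) = 2 * s := by push_cast; ring
    rw [e1]
    ring
  · set R : Set ((Fin n → ℝ) × ℝ) := Q n (1 / (16 * n * δ)) ×ˢ
      Icc (-(1 / (16 * n * δ ^ 2))) (1 / (16 * n * δ ^ 2)) with hR
    have hRm : MeasurableSet R := measurableSet_Icc.prod measurableSet_Icc
    have hRv : volume R = ENNReal.ofReal ((2 * (1 / (16 * n * δ))) ^ n *
        (2 * (1 / (16 * n * δ ^ 2)))) := by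
      rw [hR, Measure.volume_eq_prod, Measure.prod_prod, Q_vol _ (by positivity), Real.volume_Icc,
        ← ENNReal.ofReal_mul (by positivity)]
      congr 2
      ring
    have h1 : ENNReal.ofReal (((2 * δ) ^ n / 2) ^ q) * volume R ≤ ∫⁻ y, ‖E (F n δ) y‖ₑ ^ q := by
      rw [← lintegral_indicator_const hRm]
      apply lintegral_mono
      intro y
      simp only
      by_cases hy : y ∈ R
      · rw [indicator_of_mem hy, ← ENNReal.ofReal_rpow_of_nonneg (by positivity) hq.le]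
        apply ENNReal.rpow_le_rpow _ hq.le
        rw [← ofReal_norm]
        exact ENNReal.ofReal_le_ofReal (low hn δ hδ0 hδ1 y hy)
      · rw [indicator_of_notMem hy]
        exact zero_le
    refine lt_of_lt_of_le ?_ h1
    have e3 : (C * (K.toNNReal : ℝ≥0∞)) = ENNReal.ofReal (C * K) := by
      rw [ENNReal.ofReal_mul (NNReal.coe_nonneg C), ENNReal.ofReal_coe_nnreal]
      rfl
    rw [e3, ENNReal.ofReal_rpow_of_nonneg (by positivity) hq.le, hRv,
      ← ENNReal.ofReal_mul (by positivity)]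
    apply (ENNReal.ofReal_lt_ofReal_iff (by positivity)).mpr
    have e4 : (C * K) ^ q = B * ε ^ (q * ((n : ℝ) / 2 - s)) := by
      rw [hB, hK, Real.mul_rpow (NNReal.coe_nonneg C) (by positivity), Real.mul_rpow (by positivity)
        (by positivity), Real.sqrt_eq_rpow, ← Real.rpow_mul (by positivity), ← Real.rpow_mul hε0.le]
      rw [show 1 / 2 * q = q / 2 by ring, show ((n : ℝ) / 2 - s) * q = q * ((n : ℝ) / 2 - s) by ring]
      ring
    have e5 : ((2 * δ) ^ n / 2) ^ q * ((2 * (1 / (16 * n * δ))) ^ n *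
        (2 * (1 / (16 * n * δ ^ 2)))) = A * ε ^ (-γ) * ε ^ (q * ((n : ℝ) / 2 - s)) := by
      have d1 : 2 * (1 / (16 * n * δ)) = (1 / (4 * n)) * ε⁻¹ := by
        rw [hδ]
        field_simp
        norm_num
      have d2 : 2 * (1 / (16 * n * δ ^ 2)) = (1 / (2 * n)) * ε⁻¹ ^ 2 := by
        rw [hδ]
        field_simp
        norm_num
      rw [d1, d2, h2δ, mul_assoc A, ← Real.rpow_add hε0, hA, div_eq_mul_one_div (ε ^ n) 2,
        Real.mul_rpow (by positivity) (by norm_num), mul_pow]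
      have d3 : (ε ^ n) ^ q = ε ^ ((n : ℝ) * q) := by
        rw [← Real.rpow_natCast, ← Real.rpow_mul hε0.le]
      have d4 : ε⁻¹ ^ n = ε ^ (-(n : ℝ)) := by
        rw [Real.rpow_neg hε0.le, Real.rpow_natCast, inv_pow]
      have d5 : ε⁻¹ ^ 2 = ε ^ (-(2 : ℝ)) := by
        rw [Real.rpow_neg hε0.le, inv_pow]
        norm_cast
      rw [d3, d4, d5]
      have d6 : ε ^ (-γ + q * ((n : ℝ) / 2 - s)) = ε ^ ((n : ℝ) * q) * ε ^ (-(n : ℝ)) * ε ^ (-(2 : ℝ)) := by
        rw [← Real.rpow_add hε0, ← Real.rpow_add hε0]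
        congr 1
        rw [hγ]
        ring
      rw [d6]
      ring
    rw [e4, e5]
    exact mul_lt_mul_of_pos_right hεγ (by positivity)

end Pool.Agent.Y183.PR.Sharp
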