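import Pool.Agent.Y183.PR.R
import Pool.Agent.Y250.PT.C
set_option autoImplicit false

/-! A partition of unity; Taylor polynomials on cells. -/

namespace Pool.Agent.Y183.PR

open MeasureTheory Set Filter Topology Complex
open scoped ENNReal NNReal
open Pool.Agent.Y183.PP (Poly ev ev_fderiv dv dv_apply)
open Pool.Agent.Y250.PT (d1 d2 d1_eq d2_eq d1_cd d2_cd J_d1 J_d2 tay_grad)

/-- the tent -/
noncomputable def tent (x : ℝ) : ℝ := max 0 (1 - |x|)

lemma tent_nonneg (x : ℝ) : 0 ≤ tent x := le_max_left _ _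

lemma tent_le (x : ℝ) : tent x ≤ 1 := max_le zero_le_one (by linarith [abs_nonneg x])

lemma tent_zero (x : ℝ) (h : 1 ≤ |x|) : tent x = 0 := max_eq_left (by linarith)

lemma tent_lip (x y : ℝ) : |tent x - tent y| ≤ |x - y| := by
  unfold tent
  refine (abs_max_sub_max_le_max _ _ _ _).trans ?_
  rw [sub_self, abs_zero]
  apply max_le (abs_nonneg _)
  have : 1 - |x| - (1 - |y|) = -(|x| - |y|) := by ring
  rw [this, abs_neg]
  exact abs_abs_sub_abs_le_abs_sub _ _

lemma tent_cont : Continuous tent := by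
  unfold tent
  fun_prop

lemma tent_sum (x : ℝ) (B : ℕ) (hx : |x| ≤ B) :
    ∑ a ∈ Finset.Icc (-(B : ℤ) - 1) (B + 1), tent (x - a) = 1 := by
  have hf0 := Int.fract_nonneg x
  have hf1 := Int.fract_lt_one x
  have hx' := abs_le.mp hx
  have hfl : x - ⌊x⌋ = Int.fract x := rfl
  have h1 : (⌊x⌋ : ℤ) ∈ Finset.Icc (-(B : ℤ) - 1) (B + 1) := by
    rw [Finset.mem_Icc]
    constructor
    · have : (-(B : ℤ)) ≤ ⌊x⌋ := Int.le_floor.mpr (by push_cast; exact hx'.1)
      omega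
    · have : (⌊x⌋ : ℝ) ≤ B := (Int.floor_le x).trans hx'.2
      have h2 : ⌊x⌋ ≤ (B : ℤ) := by exact_mod_cast this
      omega
  have h2 : (⌊x⌋ + 1 : ℤ) ∈ Finset.Icc (-(B : ℤ) - 1) (B + 1) := by
    rw [Finset.mem_Icc]
    constructor
    · have : (-(B : ℤ)) ≤ ⌊x⌋ := Int.le_floor.mpr (by push_cast; exact hx'.1)
      omega
    · have : (⌊x⌋ : ℝ) ≤ B := (Int.floor_le x).trans hx'.2
      have h2 : ⌊x⌋ ≤ (B : ℤ) := by exact_mod_cast this
      omega
  have hsub : ({⌊x⌋, ⌊x⌋ + 1} : Finset ℤ) ⊆ Finset.Icc (-(B : ℤ) - 1) (B + 1) := by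
    intro a ha
    simp only [Finset.mem_insert, Finset.mem_singleton] at ha
    rcases ha with rfl | rfl
    · exact h1
    · exact h2
  rw [← Finset.sum_subset hsub]
  · rw [Finset.sum_pair (by omega)]
    have e1 : tent (x - ⌊x⌋) = 1 - Int.fract x := by
      unfold tent
      rw [hfl, abs_of_nonneg hf0, max_eq_right (by linarith)]
    have e2 : tent (x - ((⌊x⌋ + 1 : ℤ) : ℝ)) = Int.fract x := by
      have e3 : x - ((⌊x⌋ + 1 : ℤ) : ℝ) = Int.fract x - 1 := by
        push_cast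
        rw [← hfl]
        ring
      unfold tent
      rw [e3, abs_of_nonpos (by linarith), max_eq_right (by linarith)]
      ring
    rw [e1, e2]
    ring
  · intro a _ ha
    apply tent_zero
    simp only [Finset.mem_insert, Finset.mem_singleton, not_or] at ha
    rcases lt_trichotomy a ⌊x⌋ with h | h | h
    · have h4 : (a : ℝ) + 1 ≤ ⌊x⌋ := by exact_mod_cast h
      rw [abs_of_nonneg (by linarith)]
      linarith
    · exact absurd h ha.1
    · have h5 : ⌊x⌋ + 2 ≤ a := by omega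
      have h4 : (⌊x⌋ : ℝ) + 2 ≤ a := by exact_mod_cast h5
      rw [abs_of_nonpos (by linarith)]
      linarith

/-- products of numbers of the unit interval -/
lemma prod_lip {ι : Type*} [DecidableEq ι] (S : Finset ι) (u v : ι → ℝ) (hu : ∀ i, 0 ≤ u i)
    (hu1 : ∀ i, u i ≤ 1) (hv : ∀ i, 0 ≤ v i) (hv1 : ∀ i, v i ≤ 1) :
    |∏ i ∈ S, u i - ∏ i ∈ S, v i| ≤ ∑ i ∈ S, |u i - v i| := by
  induction S using Finset.induction_on with
  | empty => simp
  | insert j S hj ih =>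
    rw [Finset.prod_insert hj, Finset.prod_insert hj, Finset.sum_insert hj]
    have e : u j * ∏ i ∈ S, u i - v j * ∏ i ∈ S, v i =
        (u j - v j) * ∏ i ∈ S, u i + v j * (∏ i ∈ S, u i - ∏ i ∈ S, v i) := by ring
    rw [e]
    refine (abs_add_le _ _).trans (add_le_add ?_ ?_)
    · rw [abs_mul]
      have h1 : |∏ i ∈ S, u i| ≤ 1 := by
        rw [abs_of_nonneg (Finset.prod_nonneg fun i _ => hu i)]
        exact Finset.prod_le_one (fun i _ => hu i) fun i _ => hu1 i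
      calc |u j - v j| * |∏ i ∈ S, u i| ≤ |u j - v j| * 1 := by gcongr
        _ = _ := mul_one _
    · rw [abs_mul]
      calc |v j| * |∏ i ∈ S, u i - ∏ i ∈ S, v i| ≤ 1 * ∑ i ∈ S, |u i - v i| := by
            gcongr
            rw [abs_of_nonneg (hv j)]
            exact hv1 j
        _ = _ := one_mul _

variable {l : ℕ}

/-- the partition of unity -/
noncomputable def Wt (N : ℕ) (a : Fin l → ℤ) (x : Fin l → ℝ) : ℝ := ∏ i, tent (N * x i - a i)

lemma Wt_nonneg (N : ℕ) (a : Fin l → ℤ) (x : Fin l → ℝ) : 0 ≤ Wt N a x :=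
  Finset.prod_nonneg fun _ _ => tent_nonneg _

lemma Wt_le (N : ℕ) (a : Fin l → ℤ) (x : Fin l → ℝ) : Wt N a x ≤ 1 :=
  Finset.prod_le_one (fun _ _ => tent_nonneg _) fun _ _ => tent_le _

lemma Wt_cont (N : ℕ) (a : Fin l → ℤ) : Continuous (Wt N a) := by
  unfold Wt
  apply continuous_finsetProd
  intro i _
  exact tent_cont.comp (by fun_prop)

lemma Wt_lip (N : ℕ) (a : Fin l → ℤ) (x y : Fin l → ℝ) :
    |Wt N a x - Wt N a y| ≤ l * N * ‖x - y‖ := by
  unfold Wt
  refine (prod_lip _ _ _ (fun _ => tent_nonneg _) (fun _ => tent_le _) (fun _ => tent_nonneg _)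
    (fun _ => tent_le _)).trans ?_
  calc ∑ i, |tent (N * x i - a i) - tent (N * y i - a i)| ≤ ∑ _i : Fin l, (N : ℝ) * ‖x - y‖ := by
        apply Finset.sum_le_sum
        intro i _
        refine (tent_lip _ _).trans ?_
        have e : (N : ℝ) * x i - a i - (N * y i - a i) = N * (x i - y i) := by ring
        rw [e, abs_mul, abs_of_nonneg (Nat.cast_nonneg N)]
        gcongr
        exact norm_le_pi_norm (x - y) i
    _ = _ := by
        rw [Finset.sum_const, Finset.card_univ, Fintype.card_fin, nsmul_eq_mul]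
        ring

/-- the indices of the cells -/
noncomputable def cellsF (l B : ℕ) : Finset (Fin l → ℤ) :=
  Fintype.piFinset fun _ => Finset.Icc (-(B : ℤ) - 1) (B + 1)

lemma cells_card (l B : ℕ) : (cellsF l B).card = (2 * B + 3) ^ l := by
  unfold cellsF
  rw [Fintype.card_piFinset, Finset.prod_const, Finset.card_univ, Fintype.card_fin, Int.card_Icc]
  congr 1
  omega

lemma Wt_sum (N B : ℕ) (x : Fin l → ℝ) (hx : ∀ i, |N * x i| ≤ B) :
    ∑ a ∈ cellsF l B, Wt N a x = 1 := by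
  unfold cellsF Wt
  have h0 := Finset.prod_univ_sum (fun _ : Fin l => Finset.Icc (-(B : ℤ) - 1) (B + 1))
    (fun i (a : ℤ) => tent (N * x i - a))
  rw [← h0]
  exact Finset.prod_eq_one fun i _ => tent_sum _ B (hx i)

/-- the square of the cell -/
def Ksq (c : ℝ × ℝ) (r : ℝ) : Set (ℝ × ℝ) := Icc (c.1 - r) (c.1 + r) ×ˢ Icc (c.2 - r) (c.2 + r)

lemma Ksq_conv (c : ℝ × ℝ) (r : ℝ) : Convex ℝ (Ksq c r) := (convex_Icc _ _).prod (convex_Icc _ _)

/-- the remainder of the Taylor polynomial on a cell -/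
lemma rem_lip (c : ℝ × ℝ) (r : ℝ) (hr : 0 ≤ r) (M : ℝ) (hM : 0 ≤ M) (k : ℕ) (f : ℝ × ℝ → ℝ)
    (hf : ContDiff ℝ (k + 1 : ℕ) f)
    (h : ∀ i j, i + j = k + 1 → ∀ x ∈ Ksq c r, |Pool.Agent.Y250.PT.J f i j x| ≤ M) :
    ∃ T : Poly, T.totalDegree ≤ k ∧ ∀ x ∈ Ksq c r, ∀ y ∈ Ksq c r,
      |(f x - ev T x) - (f y - ev T y)| ≤ 2 * (M * (2 * r) ^ k / k.factorial) * ‖x - y‖ := by
  have hc : c ∈ Ksq c r := ⟨⟨by linarith, by linarith⟩, ⟨by linarith, by linarith⟩⟩
  obtain ⟨T, hT, hg⟩ := tay_grad (Ksq c r) (Ksq_conv c r) c hc M k f hf h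
  refine ⟨T, hT, ?_⟩
  intro x hx y hy
  have hfd : Differentiable ℝ f := hf.differentiable (by simp)
  have hder : ∀ z ∈ Ksq c r, HasFDerivWithinAt (fun z => f z - ev T z)
      (fderiv ℝ f z - dv T z) (Ksq c r) z := fun z _ =>
    ((hfd z).hasFDerivAt.sub (ev_fderiv T z)).hasFDerivWithinAt
  have hbd : ∀ z ∈ Ksq c r, ‖fderiv ℝ f z - dv T z‖ ≤ 2 * (M * (2 * r) ^ k / k.factorial) := by
    intro z hz
    have h1 := hg z hz
    have hw : |z.1 - c.1| + |z.2 - c.2| ≤ 2 * r := by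
      have a1 : |z.1 - c.1| ≤ r := abs_le.mpr ⟨by linarith [hz.1.1], by linarith [hz.1.2]⟩
      have a2 : |z.2 - c.2| ≤ r := abs_le.mpr ⟨by linarith [hz.2.1], by linarith [hz.2.2]⟩
      linarith
    have hω : M * (|z.1 - c.1| + |z.2 - c.2|) ^ k / k.factorial ≤ M * (2 * r) ^ k / k.factorial := by
      gcongr
    apply ContinuousLinearMap.opNorm_le_bound _ (by positivity)
    intro v
    have e3 : ∀ L : ℝ × ℝ →L[ℝ] ℝ, L v = v.1 * L (1, 0) + v.2 * L (0, 1) := by
      intro L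
      have e2 : v = v.1 • ((1, 0) : ℝ × ℝ) + v.2 • ((0, 1) : ℝ × ℝ) := by
        ext <;> simp
      conv_lhs => rw [e2]
      rw [map_add, map_smul, map_smul, smul_eq_mul, smul_eq_mul]
    have e4 : (fderiv ℝ f z - dv T z) (1, 0) = d1 f z - ev (MvPolynomial.pderiv 0 T) z := by
      rw [sub_apply, dv_apply, d1_eq f hfd]
      simp
    have e5 : (fderiv ℝ f z - dv T z) (0, 1) = d2 f z - ev (MvPolynomial.pderiv 1 T) z := by
      rw [sub_apply, dv_apply, d2_eq f hfd]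
      simp
    rw [e3, e4, e5, Real.norm_eq_abs]
    have hv1 : |v.1| ≤ ‖v‖ := norm_fst_le v
    have hv2 : |v.2| ≤ ‖v‖ := norm_snd_le v
    calc |v.1 * (d1 f z - ev (MvPolynomial.pderiv 0 T) z) +
          v.2 * (d2 f z - ev (MvPolynomial.pderiv 1 T) z)| ≤
        |v.1| * |d1 f z - ev (MvPolynomial.pderiv 0 T) z| +
          |v.2| * |d2 f z - ev (MvPolynomial.pderiv 1 T) z| := by
          rw [← abs_mul, ← abs_mul]
          exact abs_add_le _ _
      _ ≤ ‖v‖ * (M * (2 * r) ^ k / k.factorial) + ‖v‖ * (M * (2 * r) ^ k / k.factorial) := by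
          gcongr
          · exact h1.1.trans hω
          · exact h1.2.trans hω
      _ = _ := by ring
  have := (Ksq_conv c r).norm_image_sub_le_of_norm_hasFDerivWithin_le hder hbd hy hx
  rwa [Real.norm_eq_abs] at this

/-- partial derivatives and the full derivative -/
lemma J_le (i j : ℕ) : ∀ (f : ℝ × ℝ → ℝ), ContDiff ℝ (i + j : ℕ) f → ∀ x,
    |Pool.Agent.Y250.PT.J f i j x| ≤ ‖iteratedFDeriv ℝ (i + j) f x‖ := by
  have key : ∀ (n : ℕ) (f : ℝ × ℝ → ℝ), ContDiff ℝ (n + 1 : ℕ) f → ∀ (v : ℝ × ℝ), ‖v‖ ≤ 1 → ∀ x,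
      ‖iteratedFDeriv ℝ n (fun x => fderiv ℝ f x v) x‖ ≤ ‖iteratedFDeriv ℝ (n + 1) f x‖ := by
    intro n f hf v hv x
    have h1 : ContDiff ℝ n (fderiv ℝ f) := hf.fderiv_right (m := n) (by push_cast; exact le_rfl)
    have h2 := norm_iteratedFDeriv_clm_apply_const (c := v) (N := n) (n := n) (x := x)
      h1.contDiffAt le_rfl
    rw [norm_iteratedFDeriv_fderiv] at h2
    refine h2.trans ?_
    calc ‖v‖ * ‖iteratedFDeriv ℝ (n + 1) f x‖ ≤ 1 * ‖iteratedFDeriv ℝ (n + 1) f x‖ := by gcongr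
      _ = _ := one_mul _
  have e10 : ‖((1, 0) : ℝ × ℝ)‖ ≤ 1 := by simp [Prod.norm_def]
  have e01 : ‖((0, 1) : ℝ × ℝ)‖ ≤ 1 := by simp [Prod.norm_def]
  induction j with
  | zero =>
    induction i with
    | zero =>
      intro f _ x
      simp [Pool.Agent.Y250.PT.J]
    | succ i ih =>
      intro f hf x
      have hf' : ContDiff ℝ (i + 0 + 1 : ℕ) f := by
        rw [show i + 0 + 1 = i + 1 + 0 by omega]; exact hf
      have hfd : Differentiable ℝ f := hf'.differentiable (by simp)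
      rw [← J_d1 f i 0 (hf.of_le (by norm_cast; omega))]
      have h1 := ih (d1 f) (d1_cd f (i + 0) hf') x
      refine h1.trans ?_
      rw [d1_eq f hfd]
      have h2 := key (i + 0) f hf' (1, 0) e10 x
      rw [show i + 1 + 0 = i + 0 + 1 by omega]
      exact h2
  | succ j ih =>
    intro f hf x
    have hf' : ContDiff ℝ (i + j + 1 : ℕ) f := by
      rw [show i + j + 1 = i + (j + 1) by omega]; exact hf
    have hfd : Differentiable ℝ f := hf'.differentiable (by simp)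
    rw [← J_d2 f i j]
    have h1 := ih (d2 f) (d2_cd f (i + j) hf') x
    refine h1.trans ?_
    rw [d2_eq f hfd]
    have h2 := key (i + j) f hf' (0, 1) e01 x
    rw [show i + (j + 1) = i + j + 1 by omega]
    exact h2

end Pool.Agent.Y183.PR
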