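import Pool.Agent.Y183.PR.T
set_option autoImplicit false

/-! Smooth phases. -/

namespace Pool.Agent.Y183.PR

open MeasureTheory Set Filter Topology Complex
open scoped ENNReal NNReal
open Pool.Agent.Y183.PP (Poly ev wsum)
open Pool.Agent.Y183.LS (BA)
open Pool.Agent.Y183.PQ (cD cD_one cD_top)

variable {n l : ℕ}

/-- the phase given by functions of two variables -/
noncomputable def phF (σ : Fin l → Fin l) (φ : Fin l → ℝ × ℝ → ℝ) (x : Fin l → ℝ) : ℝ :=
  ∑ i, φ i (x i, x (σ i))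

lemma exp_lip (a b : ℝ) : ‖cexp (I * (a : ℂ)) - cexp (I * (b : ℂ))‖ ≤ |a - b| := by
  have e : cexp (I * (a : ℂ)) - cexp (I * (b : ℂ)) =
      cexp (I * (b : ℂ)) * (cexp (I * ((a - b : ℝ) : ℂ)) - 1) := by
    rw [mul_sub, ← Complex.exp_add, mul_one]
    congr 2
    push_cast
    ring
  have h1 : ‖cexp (I * (b : ℂ))‖ = 1 := by
    rw [mul_comm]
    exact Complex.norm_exp_ofReal_mul_I b
  rw [e, norm_mul, h1, one_mul]
  exact Real.norm_exp_I_mul_ofReal_sub_one_le

lemma phase_cont (σ : Fin l → Fin l) (P : Fin l → Poly) : Continuous (phase σ P) := by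
  have e : phase σ P = fun x => ∑ i, ev (P i) (x i, x (σ i)) := rfl
  rw [e]
  apply continuous_finsetSum
  intro i _
  have hc : Continuous fun x : Fin l → ℝ => ((x i, x (σ i)) : ℝ × ℝ) := by fun_prop
  exact (Pool.Agent.Y183.PP.ev_cont (P i)).comp hc

/-- the cell function -/
lemma cell_fun (hl : 1 ≤ l) (N : ℕ) (hN : 1 ≤ N) (k : ℕ) (M : ℝ) (hM : 0 ≤ M)
    (hNM : 2 * (M * (2 * (1 / (N : ℝ))) ^ k / k.factorial) ≤ N) (σ : Fin l → Fin l)
    (φ : Fin l → ℝ × ℝ → ℝ) (hφ : ∀ i, ContDiff ℝ (k + 1 : ℕ) (φ i)) (a : Fin l → ℤ)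
    (h : ∀ i, ∀ x ∈ Ksq ((a i : ℝ) / N, (a (σ i) : ℝ) / N) (1 / N),
      ‖iteratedFDeriv ℝ (k + 1) (φ i) x‖ ≤ M) :
    ∃ (P : Fin l → Poly) (F : (Fin l → ℝ) → ℂ), (∀ i, (P i).totalDegree ≤ k) ∧ Continuous F ∧
      (∀ x, ‖F x‖ ≤ 1) ∧ (∀ x y, ‖F x - F y‖ ≤ 2 * l * N * ‖x - y‖) ∧
      ∀ x, (Wt N a x : ℂ) * cexp (I * (phF σ φ x : ℂ)) = F x * cexp (I * (phase σ P x : ℂ)) := by
  have hN0 : (0 : ℝ) < N := by exact_mod_cast hN
  have h1 : ∀ i, ∃ T : Poly, T.totalDegree ≤ k ∧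
      ∀ x ∈ Ksq ((a i : ℝ) / N, (a (σ i) : ℝ) / N) (1 / N),
      ∀ y ∈ Ksq ((a i : ℝ) / N, (a (σ i) : ℝ) / N) (1 / N),
      |(φ i x - ev T x) - (φ i y - ev T y)| ≤
        2 * (M * (2 * (1 / (N : ℝ))) ^ k / k.factorial) * ‖x - y‖ := by
    intro i
    apply rem_lip _ _ (by positivity) M hM k (φ i) (hφ i)
    intro p q hpq x hx
    have h2 := J_le p q (φ i) (by rw [hpq]; exact hφ i) x
    rw [hpq] at h2
    exact h2.trans (h i x hx)
  choose P hP hPr using h1
  set R : (Fin l → ℝ) → ℝ := fun x => ∑ i, (φ i (x i, x (σ i)) - ev (P i) (x i, x (σ i))) with hR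
  have hRc : Continuous R := by
    apply continuous_finsetSum
    intro i _
    have hc : Continuous fun x : Fin l → ℝ => ((x i, x (σ i)) : ℝ × ℝ) := by fun_prop
    exact ((hφ i).continuous.comp hc).sub ((Pool.Agent.Y183.PP.ev_cont (P i)).comp hc)
  set F : (Fin l → ℝ) → ℂ := fun x => (Wt N a x : ℂ) * cexp (I * (R x : ℂ)) with hF
  have hen : ∀ c : ℝ, ‖cexp (I * (c : ℂ))‖ = 1 := by
    intro c
    rw [mul_comm]
    exact Complex.norm_exp_ofReal_mul_I c
  have hWn : ∀ x, ‖(Wt N a x : ℂ)‖ = Wt N a x := by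
    intro x
    rw [Complex.norm_real, Real.norm_eq_abs, abs_of_nonneg (Wt_nonneg N a x)]
  have hFn : ∀ x, ‖F x‖ = Wt N a x := by
    intro x
    simp only [hF]
    rw [norm_mul, hen, mul_one, hWn]
  -- inside the cell
  have hin : ∀ x, Wt N a x ≠ 0 → ∀ i, (x i, x (σ i)) ∈
      Ksq ((a i : ℝ) / N, (a (σ i) : ℝ) / N) (1 / N) := by
    intro x hx i
    have h3 : ∀ j, |x j - (a j : ℝ) / N| ≤ 1 / N := by
      intro j
      by_contra hc
      push Not at hc
      apply hx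
      unfold Wt
      apply Finset.prod_eq_zero (Finset.mem_univ j)
      apply tent_zero
      have e : (N : ℝ) * x j - a j = N * (x j - a j / N) := by field_simp
      rw [e, abs_mul, abs_of_pos hN0]
      rw [div_lt_iff₀ hN0] at hc
      linarith
    have h4 := abs_le.mp (h3 i)
    have h5 := abs_le.mp (h3 (σ i))
    exact ⟨⟨by simp only; linarith [h4.1], by simp only; linarith [h4.2]⟩,
      ⟨by simp only; linarith [h5.1], by simp only; linarith [h5.2]⟩⟩
  refine ⟨P, F, hP, ?_, ?_, ?_, ?_⟩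
  · exact (Complex.continuous_ofReal.comp (Wt_cont N a)).mul
      (Complex.continuous_exp.comp (continuous_const.mul (Complex.continuous_ofReal.comp hRc)))
  · intro x
    rw [hFn]
    exact Wt_le N a x
  · intro x y
    have hl0 : (1 : ℝ) ≤ l := by exact_mod_cast hl
    have hW := Wt_lip N a x y
    have hnn : 0 ≤ ‖x - y‖ := norm_nonneg _
    by_cases hx : Wt N a x = 0
    · have h0 : F x = 0 := by simp only [hF, hx]; simp
      rw [h0, zero_sub, norm_neg, hFn]
      rw [hx, zero_sub, abs_neg, abs_of_nonneg (Wt_nonneg _ _ _)] at hW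
      have : 0 ≤ (l : ℝ) * N * ‖x - y‖ := by positivity
      linarith
    · by_cases hy : Wt N a y = 0
      · have h0 : F y = 0 := by simp only [hF, hy]; simp
        rw [h0, sub_zero, hFn]
        rw [hy, sub_zero, abs_of_nonneg (Wt_nonneg _ _ _)] at hW
        have : 0 ≤ (l : ℝ) * N * ‖x - y‖ := by positivity
        linarith
      · have hRl : |R x - R y| ≤ l * N * ‖x - y‖ := by
          simp only [hR]
          rw [← Finset.sum_sub_distrib]
          refine (Finset.abs_sum_le_sum_abs _ _).trans ?_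
          calc ∑ i, |φ i (x i, x (σ i)) - ev (P i) (x i, x (σ i)) -
                (φ i (y i, y (σ i)) - ev (P i) (y i, y (σ i)))| ≤
              ∑ _i : Fin l, (N : ℝ) * ‖x - y‖ := by
                apply Finset.sum_le_sum
                intro i _
                refine (hPr i _ (hin x hx i) _ (hin y hy i)).trans ?_
                have h6 : ‖((x i, x (σ i)) : ℝ × ℝ) - (y i, y (σ i))‖ ≤ ‖x - y‖ := by
                  rw [Prod.mk_sub_mk, Prod.norm_mk]
                  exact max_le (norm_le_pi_norm (x - y) i) (norm_le_pi_norm (x - y) (σ i))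
                gcongr
            _ = _ := by
                rw [Finset.sum_const, Finset.card_univ, Fintype.card_fin, nsmul_eq_mul]
                ring
        have e : F x - F y = ((Wt N a x - Wt N a y : ℝ) : ℂ) * cexp (I * (R x : ℂ)) +
            (Wt N a y : ℂ) * (cexp (I * (R x : ℂ)) - cexp (I * (R y : ℂ))) := by
          simp only [hF]
          push_cast
          ring
        rw [e]
        refine (norm_add_le _ _).trans ?_
        rw [norm_mul, norm_mul, hen, mul_one, hWn, Complex.norm_real, Real.norm_eq_abs]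
        calc |Wt N a x - Wt N a y| + Wt N a y * ‖cexp (I * (R x : ℂ)) - cexp (I * (R y : ℂ))‖ ≤
            l * N * ‖x - y‖ + 1 * (l * N * ‖x - y‖) := by
              gcongr
              · exact Wt_le N a y
              · exact (exp_lip _ _).trans hRl
          _ = _ := by ring
  · intro x
    simp only [hF]
    rw [mul_assoc, ← Complex.exp_add]
    congr 2
    rw [← mul_add, ← Complex.ofReal_add]
    congr 2
    unfold phF phase
    simp only [hR]
    rw [← Finset.sum_add_distrib]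
    apply Finset.sum_congr rfl
    intro i _
    unfold Pool.Agent.Y183.PP.ev
    ring

/-- **from polynomial to smooth phases**: `Am K a` is a class of amplitudes, `pr` the coordinates -/
theorem smooth_of_poly (hl : 1 ≤ l) (q : ℝ) (hq : 1 ≤ q) (S : ℕ) (hS : 1 ≤ S) (A : ℝ)
    (Am : ℝ≥0∞ → ((Fin n → ℝ) → ℂ) → Prop)
    (hAmeas : ∀ K a, Am K a → Measurable a)
    (C : ℝ≥0) (r : ℕ) (pr : (Fin n → ℝ) → (Fin l → ℝ))
    (hprc : Continuous pr) (hprb : ∀ ξ ∈ BA 1 n, ∀ i, |pr ξ i| ≤ S)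
    (hA : ∀ K a, Am K a → K ≠ ∞ → ∀ F : (Fin l → ℝ) → ℂ, Continuous F → (∀ x, ‖F x‖ ≤ 1) →
      ∀ L : ℝ, 1 ≤ L → (∀ x y, ‖F x - F y‖ ≤ L * ‖x - y‖) →
        Am (ENNReal.ofReal (A * L) * K) (fun ξ => a ξ * F (pr ξ)))
    (hE : ∀ (D : ℕ) (σ : Fin l → Fin l), (∀ i, σ (σ i) = i) → ∀ P : Fin l → Poly,
      (∀ i, (P i).totalDegree ≤ D) → ∀ K a, Am K a → K ≠ ∞ →
      ∫⁻ y : (Fin n → ℝ) × ℝ, ‖Pool.Agent.H728R3.SR.ext
        (fun ξ => a ξ * cexp (I * (phase σ P (pr ξ) : ℂ))) y‖ₑ ^ q ≤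
          (C * cD D ^ r * K) ^ q)
    (N : ℕ) (hN : 1 ≤ N) (k : ℕ) (M : ℝ) (hM : 0 ≤ M)
    (hNM : 2 * (M * (2 * (1 / (N : ℝ))) ^ k / k.factorial) ≤ N) (σ : Fin l → Fin l)
    (hσ : ∀ i, σ (σ i) = i) (φ : Fin l → ℝ × ℝ → ℝ) (hφ : ∀ i, ContDiff ℝ (k + 1 : ℕ) (φ i))
    (h : ∀ i, ∀ x : ℝ × ℝ, |x.1| ≤ S + 2 → |x.2| ≤ S + 2 → ‖iteratedFDeriv ℝ (k + 1) (φ i) x‖ ≤ M)
    (K : ℝ≥0∞) (hK : K ≠ ∞) (a : (Fin n → ℝ) → ℂ) (ha : Am K a) :
    ∫⁻ y : (Fin n → ℝ) × ℝ, ‖Pool.Agent.H728R3.SR.ext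
      (fun ξ => a ξ * cexp (I * (phF σ φ (pr ξ) : ℂ))) y‖ₑ ^ q ≤
        (((5 * S * N) ^ l : ℕ) * (C * cD k ^ r * (ENNReal.ofReal (A * (2 * l * N)) * K))) ^ q := by
  have hq0 : 0 < q := by linarith
  have hN0 : (0 : ℝ) < N := by exact_mod_cast hN
  have hN1 : (1 : ℝ) ≤ N := by exact_mod_cast hN
  have hS1 : (1 : ℝ) ≤ S := by exact_mod_cast hS
  have hl1 : (1 : ℝ) ≤ l := by exact_mod_cast hl
  have ham := hAmeas K a ha
  have hphc : Continuous fun x : Fin l → ℝ => cexp (I * (phF σ φ x : ℂ)) := by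
    apply Complex.continuous_exp.comp
    apply continuous_const.mul
    apply Complex.continuous_ofReal.comp
    unfold phF
    apply continuous_finsetSum
    intro i _
    exact (hφ i).continuous.comp (by fun_prop)
  have hen : ∀ c : ℝ, ‖cexp (I * (c : ℂ))‖ = 1 := by
    intro c
    rw [mul_comm]
    exact Complex.norm_exp_ofReal_mul_I c
  have hkc : ∀ y : (Fin n → ℝ) × ℝ, Continuous fun ξ : Fin n → ℝ =>
      cexp (2 * Real.pi * I * ((∑ j, ξ j * y.1 j + (∑ j, ξ j ^ 2) * y.2 : ℝ) : ℂ)) := by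
    intro y
    fun_prop
  have hkn : ∀ (y : (Fin n → ℝ) × ℝ) (ξ : Fin n → ℝ),
      ‖cexp (2 * Real.pi * I * ((∑ j, ξ j * y.1 j + (∑ j, ξ j ^ 2) * y.2 : ℝ) : ℂ))‖ = 1 := by
    intro y ξ
    have e : (2 * Real.pi * I * ((∑ j, ξ j * y.1 j + (∑ j, ξ j ^ 2) * y.2 : ℝ) : ℂ)) =
        I * ((2 * Real.pi * (∑ j, ξ j * y.1 j + (∑ j, ξ j ^ 2) * y.2) : ℝ) : ℂ) := by
      push_cast
      ring
    rw [e, hen]
  by_cases hint : IntegrableOn a (BA 1 n)
  swap
  · -- the extension vanishes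
    have h0 : ∀ y : (Fin n → ℝ) × ℝ, Pool.Agent.H728R3.SR.ext
        (fun ξ => a ξ * cexp (I * (phF σ φ (pr ξ) : ℂ))) y = 0 := by
      intro y
      unfold Pool.Agent.H728R3.SR.ext
      apply integral_undef
      intro hc
      apply hint
      have h2 : Integrable (fun ξ => (a ξ * cexp (I * (phF σ φ (pr ξ) : ℂ)) *
          cexp (2 * Real.pi * I * ((∑ j, ξ j * y.1 j + (∑ j, ξ j ^ 2) * y.2 : ℝ) : ℂ))))
          (volume.restrict (BA 1 n)) := hc
      refine h2.mono ham.aestronglyMeasurable (ae_of_all _ fun ξ => ?_)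
      rw [norm_mul, norm_mul, hen, hkn, mul_one, mul_one]
    simp only [h0, enorm_zero, ENNReal.zero_rpow_of_pos hq0, lintegral_zero]
    exact zero_le
  set B : ℕ := N * S with hB
  -- the cells near the cube
  set G : Finset (Fin l → ℤ) := cellsF l B with hG
  have hcell : ∀ b ∈ G, ∃ (P : Fin l → Poly) (F : (Fin l → ℝ) → ℂ), (∀ i, (P i).totalDegree ≤ k) ∧
      Continuous F ∧ (∀ x, ‖F x‖ ≤ 1) ∧ (∀ x y, ‖F x - F y‖ ≤ 2 * l * N * ‖x - y‖) ∧
      ∀ x, (Wt N b x : ℂ) * cexp (I * (phF σ φ x : ℂ)) = F x * cexp (I * (phase σ P x : ℂ)) := by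
    intro b hb
    apply cell_fun hl N hN k M hM hNM σ φ hφ b
    have hb2 : ∀ j, |(b j : ℝ) / N| ≤ S + 1 := by
      intro j
      rw [hG, cellsF, Fintype.mem_piFinset] at hb
      have h3 := Finset.mem_Icc.mp (hb j)
      have h4 : (-(B : ℝ) - 1) ≤ b j := by exact_mod_cast h3.1
      have h5 : (b j : ℝ) ≤ B + 1 := by exact_mod_cast h3.2
      have hBc : (B : ℝ) = N * S := by rw [hB]; push_cast; ring
      rw [abs_div, abs_of_pos hN0, div_le_iff₀ hN0]
      rw [abs_le]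
      constructor <;> nlinarith
    intro i x hx
    have h6 := abs_le.mp (hb2 i)
    have h7 := abs_le.mp (hb2 (σ i))
    have h8 : 1 / (N : ℝ) ≤ 1 := by
      rw [div_le_one hN0]
      exact hN1
    have h9 := hx.1.1
    have h10 := hx.1.2
    have h11 := hx.2.1
    have h12 := hx.2.2
    simp only at h9 h10 h11 h12
    apply h i x
    · rw [abs_le]
      constructor <;> linarith
    · rw [abs_le]
      constructor <;> linarith
  choose! P F hP hFc hF1 hFL hPF using hcell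
  -- the decomposition
  have hdec : ∀ y : (Fin n → ℝ) × ℝ, Pool.Agent.H728R3.SR.ext
      (fun ξ => a ξ * cexp (I * (phF σ φ (pr ξ) : ℂ))) y =
      ∑ b ∈ G, Pool.Agent.H728R3.SR.ext
        (fun ξ => (a ξ * F b (pr ξ)) * cexp (I * (phase σ (P b) (pr ξ) : ℂ))) y := by
    intro y
    unfold Pool.Agent.H728R3.SR.ext
    rw [← integral_finsetSum]
    · apply setIntegral_congr_fun measurableSet_Icc
      intro ξ hξ
      simp only
      have h3 : ∑ b ∈ G, (Wt N b (pr ξ) : ℂ) = 1 := by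
        have h4 := Wt_sum (l := l) N B (pr ξ) (fun i => by
          rw [abs_mul, abs_of_pos hN0, hB]
          push_cast
          exact mul_le_mul_of_nonneg_left (hprb ξ hξ i) hN0.le)
        rw [← hG] at h4
        exact_mod_cast h4
      calc a ξ * cexp (I * (phF σ φ (pr ξ) : ℂ)) *
            cexp (2 * Real.pi * I * ((∑ j, ξ j * y.1 j + (∑ j, ξ j ^ 2) * y.2 : ℝ) : ℂ)) =
          (∑ b ∈ G, (Wt N b (pr ξ) : ℂ)) * (a ξ * cexp (I * (phF σ φ (pr ξ) : ℂ)) *
            cexp (2 * Real.pi * I * ((∑ j, ξ j * y.1 j + (∑ j, ξ j ^ 2) * y.2 : ℝ) : ℂ))) := by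
            rw [h3, one_mul]
        _ = _ := by
            rw [Finset.sum_mul]
            apply Finset.sum_congr rfl
            intro b hb
            have h5 := hPF b hb (pr ξ)
            calc (Wt N b (pr ξ) : ℂ) * (a ξ * cexp (I * (phF σ φ (pr ξ) : ℂ)) *
                cexp (2 * Real.pi * I * ((∑ j, ξ j * y.1 j + (∑ j, ξ j ^ 2) * y.2 : ℝ) : ℂ))) =
                a ξ * ((Wt N b (pr ξ) : ℂ) * cexp (I * (phF σ φ (pr ξ) : ℂ))) *
                cexp (2 * Real.pi * I * ((∑ j, ξ j * y.1 j + (∑ j, ξ j ^ 2) * y.2 : ℝ) : ℂ)) := by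
                  ring
              _ = _ := by
                  rw [h5]
                  ring
    · intro b hb
      have hc : Continuous fun ξ : Fin n → ℝ => F b (pr ξ) *
          cexp (I * (phase σ (P b) (pr ξ) : ℂ)) *
          cexp (2 * Real.pi * I * ((∑ j, ξ j * y.1 j + (∑ j, ξ j ^ 2) * y.2 : ℝ) : ℂ)) := by
        refine (((hFc b hb).comp hprc).mul ?_).mul (hkc y)
        apply Complex.continuous_exp.comp
        apply continuous_const.mul
        apply Complex.continuous_ofReal.comp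
        exact (phase_cont σ (P b)).comp hprc
      have h7 : IntegrableOn (fun ξ : Fin n → ℝ => a ξ * (F b (pr ξ) *
          cexp (I * (phase σ (P b) (pr ξ) : ℂ)) *
          cexp (2 * Real.pi * I * ((∑ j, ξ j * y.1 j + (∑ j, ξ j ^ 2) * y.2 : ℝ) : ℂ))))
          (BA 1 n) := by
        refine hint.mul_bdd (c := 1) hc.aestronglyMeasurable (ae_of_all _ fun ξ => ?_)
        rw [norm_mul, norm_mul, hen, hkn, mul_one, mul_one]
        exact hF1 b hb _
      refine h7.congr (ae_of_all _ fun ξ => ?_)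
      simp only
      ring
  have hmeasb : ∀ b ∈ G, Measurable fun y : (Fin n → ℝ) × ℝ => ‖Pool.Agent.H728R3.SR.ext
      (fun ξ => (a ξ * F b (pr ξ)) * cexp (I * (phase σ (P b) (pr ξ) : ℂ))) y‖ₑ ^ q := by
    intro b hb
    apply Measurable.pow_const
    apply Measurable.enorm
    apply Pool.Agent.W771.MD.ext_meas
    refine (ham.mul ((hFc b hb).comp hprc).measurable).mul ?_
    apply Continuous.measurable
    apply Complex.continuous_exp.comp
    apply continuous_const.mul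
    apply Complex.continuous_ofReal.comp
    exact (phase_cont σ (P b)).comp hprc
  set X : ℝ≥0∞ := C * cD k ^ r * (ENNReal.ofReal (A * (2 * l * N)) * K) with hX
  have hL1 : (1 : ℝ) ≤ 2 * l * N := by nlinarith
  have hbound : ∀ b ∈ G, ∫⁻ y : (Fin n → ℝ) × ℝ, ‖Pool.Agent.H728R3.SR.ext
      (fun ξ => (a ξ * F b (pr ξ)) * cexp (I * (phase σ (P b) (pr ξ) : ℂ))) y‖ₑ ^ q ≤ X ^ q := by
    intro b hb
    have h8 := hA K a ha hK (F b) (hFc b hb) (hF1 b hb) (2 * l * N) hL1 (hFL b hb)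
    exact hE k σ hσ (P b) (hP b hb) _ _ h8 (ENNReal.mul_ne_top ENNReal.ofReal_ne_top hK)
  calc ∫⁻ y : (Fin n → ℝ) × ℝ, ‖Pool.Agent.H728R3.SR.ext
        (fun ξ => a ξ * cexp (I * (phF σ φ (pr ξ) : ℂ))) y‖ₑ ^ q ≤
      ∫⁻ y : (Fin n → ℝ) × ℝ, (G.card : ℝ≥0∞) ^ (q - 1) * ∑ b ∈ G, ‖Pool.Agent.H728R3.SR.ext
        (fun ξ => (a ξ * F b (pr ξ)) * cexp (I * (phase σ (P b) (pr ξ) : ℂ))) y‖ₑ ^ q := by
        apply lintegral_mono
        intro y
        simp only
        rw [hdec]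
        have h9 := wsum G (fun _ => (1 : ℝ≥0∞)) (fun b => ‖Pool.Agent.H728R3.SR.ext
          (fun ξ => (a ξ * F b (pr ξ)) * cexp (I * (phase σ (P b) (pr ξ) : ℂ))) y‖ₑ) q hq
          (fun _ => one_ne_zero) (fun _ => ENNReal.one_ne_top)
        simp only [ENNReal.one_rpow, one_mul, Finset.sum_const, nsmul_eq_mul, mul_one] at h9
        exact (ENNReal.rpow_le_rpow (enorm_sum_le _ _) hq0.le).trans h9
    _ = (G.card : ℝ≥0∞) ^ (q - 1) * ∑ b ∈ G, ∫⁻ y : (Fin n → ℝ) × ℝ, ‖Pool.Agent.H728R3.SR.ext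
        (fun ξ => (a ξ * F b (pr ξ)) * cexp (I * (phase σ (P b) (pr ξ) : ℂ))) y‖ₑ ^ q := by
        rw [lintegral_const_mul' _ _ (ENNReal.rpow_ne_top_of_nonneg (by linarith)
          (ENNReal.natCast_ne_top _)), lintegral_finsetSum]
        exact hmeasb
    _ ≤ (G.card : ℝ≥0∞) ^ (q - 1) * ∑ _b ∈ G, X ^ q :=
        mul_le_mul_right (Finset.sum_le_sum hbound) _
    _ = ((G.card : ℝ≥0∞) * X) ^ q := by
        have e1 : (G.card : ℝ≥0∞) ^ (q - 1) * G.card = (G.card : ℝ≥0∞) ^ q := by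
          nth_rewrite 2 [← ENNReal.rpow_one (G.card : ℝ≥0∞)]
          rw [← ENNReal.rpow_add_of_nonneg _ _ (by linarith) zero_le_one]
          congr 1
          ring
        rw [Finset.sum_const, nsmul_eq_mul, ← mul_assoc, e1, ← ENNReal.mul_rpow_of_nonneg _ _ hq0.le]
    _ ≤ _ := by
        apply ENNReal.rpow_le_rpow _ hq0.le
        apply mul_le_mul' _ le_rfl
        rw [hG, cells_card]
        have h10 : 2 * B + 3 ≤ 5 * S * N := by
          rw [hB]
          have : 1 ≤ N * S := Nat.one_le_iff_ne_zero.mpr (by positivity)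
          nlinarith
        exact_mod_cast Nat.pow_le_pow_left h10 l

end Pool.Agent.Y183.PR
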