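import Pool.Agent.Y183.PR.U
set_option autoImplicit false

/-! Smooth phases: the two cases. -/

namespace Pool.Agent.Y183.PR

open MeasureTheory Set Filter Topology Complex Matrix
open scoped ENNReal NNReal
open Pool.Agent.Y183.PP (Poly ev)
open Pool.Agent.Y183.LS (BA)
open Pool.Agent.Y183.PQ (cD cD_one cD_top)

/-- the number of cells -/
lemma choose_N (k : ℕ) (M : ℝ) (hM : 0 ≤ M) : ∃ N : ℕ, 1 ≤ N ∧
    2 * (M * (2 * (1 / (N : ℝ))) ^ k / k.factorial) ≤ N ∧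
    (N : ℝ) ≤ 4 * (1 + (M / k.factorial) ^ (1 / ((k : ℝ) + 1))) := by
  set x : ℝ := (M / k.factorial) ^ (1 / ((k : ℝ) + 1)) with hx
  have hf : (0 : ℝ) < k.factorial := by positivity
  have hx0 : 0 ≤ x := by positivity
  have hk0 : (0 : ℝ) < (k : ℝ) + 1 := by positivity
  have hxk : x ^ (k + 1) = M / k.factorial := by
    rw [hx, ← Real.rpow_natCast, ← Real.rpow_mul (by positivity)]
    push_cast
    rw [one_div, inv_mul_cancel₀ hk0.ne', Real.rpow_one]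
  refine ⟨⌈2 * x⌉₊ + 1, by omega, ?_, ?_⟩
  · have h1 : 2 * x ≤ (⌈2 * x⌉₊ : ℝ) := Nat.le_ceil _
    set N : ℝ := ((⌈2 * x⌉₊ + 1 : ℕ) : ℝ) with hN
    have hN1 : 2 * x ≤ N := by
      rw [hN]
      push_cast
      linarith
    have hN0 : 0 < N := by
      rw [hN]
      positivity
    have h2 : (2 * x) ^ (k + 1) ≤ N ^ (k + 1) := by gcongr
    have h3 : 2 * (M * (2 * (1 / N)) ^ k / k.factorial) = (2 * x) ^ (k + 1) / N ^ k := by
      have e : (2 * (1 / N)) ^ k = 2 ^ k / N ^ k := by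
        rw [← div_pow]
        congr 1
        ring
      rw [mul_pow 2 x, hxk, e]
      field_simp
      ring
    rw [h3, div_le_iff₀ (by positivity), ← pow_succ']
    exact h2
  · have h1 : (⌈2 * x⌉₊ : ℝ) < 2 * x + 1 := Nat.ceil_lt_add_one (by positivity)
    push_cast
    linarith

/-- a factor with a Lipschitz bound -/
lemma fac_bound {l : ℕ} (F : (Fin l → ℝ) → ℂ) (hF1 : ∀ x, ‖F x‖ ≤ 1) (L : ℝ)
    (hL : 1 ≤ L) (s : ℝ) (hs0 : 0 ≤ s) (hs1 : s ≤ 1) (x y : Fin l → ℝ) (d : ℝ) (hd : 0 ≤ d)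
    (h : ‖F x - F y‖ ≤ L * d) : ‖F x - F y‖ₑ ≤ ENNReal.ofReal (2 * L * d ^ s) := by
  rw [← ofReal_norm]
  apply ENNReal.ofReal_le_ofReal
  rcases le_total d 1 with h1 | h1
  · rcases eq_or_lt_of_le hd with h0 | h0
    · rw [← h0] at h ⊢
      rw [mul_zero] at h
      refine h.trans ?_
      positivity
    · have h2 : d ≤ d ^ s := by
        calc d = d ^ (1 : ℝ) := (Real.rpow_one d).symm
          _ ≤ _ := Real.rpow_le_rpow_of_exponent_ge h0 h1 hs1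
      refine h.trans ?_
      have h3 : L * d ≤ L * d ^ s := by gcongr
      have h4 : 0 ≤ L * d ^ s := by positivity
      linarith
  · have h2 : ‖F x - F y‖ ≤ 2 := by
      refine (norm_sub_le _ _).trans ?_
      linarith [hF1 x, hF1 y]
    have h3 : 1 ≤ d ^ s := Real.one_le_rpow h1 hs0
    nlinarith

/-- the amplitudes of the first case -/
def Am1 (m : ℕ) (s : ℝ) (K : ℝ≥0∞) (a : (Fin (m + 1) → ℝ) → ℂ) : Prop :=
  Measurable a ∧ (∀ ξ, ξ ∉ BA 1 (m + 1) → a ξ = 0) ∧ ∫⁻ ξ, ‖a ξ‖ₑ ^ 2 ≤ K ^ 2 ∧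
    ∀ h : Fin (m + 1) → ℝ, ∫⁻ ξ, ‖a (ξ + h) - a ξ‖ₑ ^ 2 ≤ (K * ENNReal.ofReal (‖h‖ ^ s)) ^ 2

lemma V_bound {m : ℕ} (V : Matrix (Fin (m + 1)) (Fin (m + 1)) ℝ) (hV : Vᵀ * V = 1)
    (h : Fin (m + 1) → ℝ) (i : Fin (m + 1)) : |(V *ᵥ h) i| ≤ ((m : ℝ) + 1) * ‖h‖ := by
  have hm0 : (0 : ℝ) ≤ m := Nat.cast_nonneg m
  apply abs_le_of_sq_le_sq _ (by positivity)
  have h1 : (V *ᵥ h) i ^ 2 ≤ ∑ j, (V *ᵥ h) j ^ 2 :=
    Finset.single_le_sum (f := fun j => (V *ᵥ h) j ^ 2) (fun i _ => sq_nonneg _) (Finset.mem_univ i)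
  rw [Pool.Agent.Y247.QT.U_sq V hV] at h1
  have h2 : ∑ j, h j ^ 2 ≤ ((m : ℝ) + 1) * ‖h‖ ^ 2 := by
    calc ∑ j, h j ^ 2 ≤ ∑ _j : Fin (m + 1), ‖h‖ ^ 2 := by
          apply Finset.sum_le_sum
          intro j _
          have h3 := norm_le_pi_norm h j
          rw [Real.norm_eq_abs] at h3
          rw [← sq_abs]
          gcongr
      _ = _ := by simp
  calc (V *ᵥ h) i ^ 2 ≤ ((m : ℝ) + 1) * ‖h‖ ^ 2 := h1.trans h2
    _ ≤ (((m : ℝ) + 1) * ‖h‖) ^ 2 := by nlinarith [sq_nonneg ‖h‖]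

/-- **smooth phases, all variables** -/
theorem smoothFull (m : ℕ) (q : ℝ) (hq : 2 * (((m + 1 : ℕ) : ℝ) + 1) / ((m + 1 : ℕ) : ℝ) < q) :
    ∃ C : ℝ≥0, ∀ (k : ℕ) (M : ℝ), 0 ≤ M → ∀ σ : Fin (m + 1) → Fin (m + 1), (∀ i, σ (σ i) = i) →
    ∀ φ : Fin (m + 1) → ℝ × ℝ → ℝ, (∀ i, ContDiff ℝ (k + 1 : ℕ) (φ i)) →
    (∀ i, ∀ x : ℝ × ℝ, |x.1| ≤ m + 3 → |x.2| ≤ m + 3 → ‖iteratedFDeriv ℝ (k + 1) (φ i) x‖ ≤ M) →
    ∀ V : Matrix (Fin (m + 1)) (Fin (m + 1)) ℝ, Vᵀ * V = 1 →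
    ∀ g : (Fin (m + 1) → ℝ) → ℂ, Measurable g → (∀ ξ, ξ ∉ BA 1 (m + 1) → g ξ = 0) →
    ∀ K : ℝ≥0∞, K ≠ ∞ → ∫⁻ ξ, ‖g ξ‖ₑ ^ 2 ≤ K ^ 2 →
    (∀ h : Fin (m + 1) → ℝ, ∫⁻ ξ, ‖g (ξ + h) - g ξ‖ₑ ^ 2 ≤
      (K * ENNReal.ofReal (‖h‖ ^ (((m + 1 : ℕ) : ℝ) / (2 * (((m + 1 : ℕ) : ℝ) + 1))))) ^ 2) →
    ∫⁻ y : (Fin (m + 1) → ℝ) × ℝ, ‖Pool.Agent.H728R3.SR.ext
      (fun ξ => g ξ * cexp (Complex.I * (phF σ φ (V *ᵥ ξ) : ℂ))) y‖ₑ ^ q ≤
        (C * cD k ^ (m + 1) *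
          ENNReal.ofReal ((1 + (M / k.factorial) ^ (1 / ((k : ℝ) + 1))) ^ (m + 2)) * K) ^ q := by
  obtain ⟨C, hC⟩ := fullI m q hq
  have hm0 : (0 : ℝ) ≤ m := Nat.cast_nonneg m
  set s : ℝ := ((m + 1 : ℕ) : ℝ) / (2 * (((m + 1 : ℕ) : ℝ) + 1)) with hs
  have hs0 : 0 ≤ s := by positivity
  have hs1 : s ≤ 1 := by
    rw [hs, div_le_one (by positivity)]
    push_cast
    linarith
  have hq2 : 2 < q := by
    refine lt_trans ?_ hq
    rw [lt_div_iff₀ (by positivity)]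
    linarith
  set c0 : ℝ := (5 * ((m : ℝ) + 1)) ^ (m + 1) * (3 * (m + 1) * (2 * (m + 1))) * 4 ^ (m + 2) with hc0
  refine ⟨C * c0.toNNReal, ?_⟩
  intro k M hM σ hσ φ hφ hφM V hV g hg hz K hK hN hR
  obtain ⟨N, hN1, hNM, hN2⟩ := choose_N k M hM
  have hmain := smooth_of_poly (n := m + 1) (l := m + 1) (by omega) q (by linarith) (m + 1)
    (by omega) (3 * (m + 1)) (Am1 m s) (fun K a h => h.1) C (m + 1) (fun ξ => V *ᵥ ξ)
    (Pool.Agent.Y247.QT.mulVec_cont V) (by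
      intro ξ hξ i
      refine (V_bound V hV ξ i).trans ?_
      have h1 : ‖ξ‖ ≤ 1 := by
        rw [pi_norm_le_iff_of_nonneg zero_le_one]
        intro j
        rw [Real.norm_eq_abs, abs_le]
        exact ⟨hξ.1 j, hξ.2 j⟩
      push_cast
      nlinarith) (by
      rintro K a ⟨ha, haz, haN, haR⟩ hK F hFc hF1 L hL hFL
      have hF1e : ∀ x, ‖F x‖ₑ ≤ 1 := by
        intro x
        rw [← ofReal_norm, ← ENNReal.ofReal_one]
        exact ENNReal.ofReal_le_ofReal (hF1 x)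
      have hFm : Measurable fun ξ : Fin (m + 1) → ℝ => F (V *ᵥ ξ) :=
        (hFc.comp (Pool.Agent.Y247.QT.mulVec_cont V)).measurable
      have hAL : (1 : ℝ) ≤ 3 * (m + 1) * L := by nlinarith
      have hone : (1 : ℝ≥0∞) ≤ ENNReal.ofReal (3 * (m + 1) * L) := by
        rw [← ENNReal.ofReal_one]
        exact ENNReal.ofReal_le_ofReal hAL
      refine ⟨ha.mul hFm, fun ξ hξ => by
        show a ξ * F (V *ᵥ ξ) = 0
        rw [haz ξ hξ, zero_mul], ?_, ?_⟩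
      · calc ∫⁻ ξ, ‖a ξ * F (V *ᵥ ξ)‖ₑ ^ 2 ≤ ∫⁻ ξ, ‖a ξ‖ₑ ^ 2 := by
              apply lintegral_mono
              intro ξ
              simp only [enorm_mul]
              apply pow_le_pow_left'
              calc _ ≤ ‖a ξ‖ₑ * 1 := mul_le_mul' le_rfl (hF1e _)
                _ = _ := mul_one _
          _ ≤ K ^ 2 := haN
          _ ≤ _ := by
              apply pow_le_pow_left'
              calc K = 1 * K := (one_mul K).symm
                _ ≤ _ := mul_le_mul' hone le_rfl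
      · intro h
        set B : ℝ≥0∞ := ENNReal.ofReal (2 * ((m + 1) * L) * ‖h‖ ^ s) with hB
        have hpt : ∀ ξ, ‖a (ξ + h) * F (V *ᵥ (ξ + h)) - a ξ * F (V *ᵥ ξ)‖ₑ ≤
            ‖a (ξ + h) - a ξ‖ₑ + ‖a ξ‖ₑ * B := by
          intro ξ
          have e : a (ξ + h) * F (V *ᵥ (ξ + h)) - a ξ * F (V *ᵥ ξ) =
              (a (ξ + h) - a ξ) * F (V *ᵥ (ξ + h)) + a ξ * (F (V *ᵥ (ξ + h)) - F (V *ᵥ ξ)) := by
            ring
          rw [e]
          refine (enorm_add_le _ _).trans ?_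
          rw [enorm_mul, enorm_mul]
          refine add_le_add ?_ ?_
          · calc _ ≤ ‖a (ξ + h) - a ξ‖ₑ * 1 := mul_le_mul' le_rfl (hF1e _)
              _ = _ := mul_one _
          · apply mul_le_mul' le_rfl
            apply fac_bound F hF1 ((m + 1) * L) (by nlinarith) s hs0 hs1 _ _ ‖h‖ (norm_nonneg _)
            refine (hFL _ _).trans ?_
            have h5 : ‖V *ᵥ (ξ + h) - V *ᵥ ξ‖ ≤ (m + 1) * ‖h‖ := by
              rw [mulVec_add, add_sub_cancel_left, pi_norm_le_iff_of_nonneg (by positivity)]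
              intro i
              exact V_bound V hV h i
            calc L * ‖V *ᵥ (ξ + h) - V *ᵥ ξ‖ ≤ L * ((m + 1) * ‖h‖) := by gcongr
              _ = _ := by ring
        -- Minkowski
        have hm1 : Measurable fun ξ => ‖a (ξ + h) - a ξ‖ₑ :=
          ((ha.comp (measurable_id.add_const _)).sub ha).enorm
        have hm2 : Measurable fun ξ => ‖a ξ‖ₑ * B := ha.enorm.mul_const _
        have hMink := ENNReal.lintegral_Lp_add_le (μ := (volume : Measure (Fin (m + 1) → ℝ)))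
          hm1.aemeasurable hm2.aemeasurable (show (1 : ℝ) ≤ 2 by norm_num)
        simp only [ENNReal.rpow_ofNat, Pi.add_apply] at hMink
        have hBt : B ≠ ∞ := ENNReal.ofReal_ne_top
        have hsqr : ∀ X : ℝ≥0∞, (X ^ 2) ^ (1 / 2 : ℝ) = X := by
          intro X
          rw [← ENNReal.rpow_natCast, ← ENNReal.rpow_mul]
          norm_num
        have h6 : (∫⁻ ξ, (‖a (ξ + h) - a ξ‖ₑ + ‖a ξ‖ₑ * B) ^ 2) ^ (1 / 2 : ℝ) ≤
            K * ENNReal.ofReal (‖h‖ ^ s) + K * B := by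
          refine hMink.trans (add_le_add ?_ ?_)
          · calc _ ≤ ((K * ENNReal.ofReal (‖h‖ ^ s)) ^ 2) ^ (1 / 2 : ℝ) :=
                  ENNReal.rpow_le_rpow (haR h) (by norm_num)
              _ = _ := hsqr _
          · have e7 : ∫⁻ ξ, (‖a ξ‖ₑ * B) ^ 2 = (∫⁻ ξ, ‖a ξ‖ₑ ^ 2) * B ^ 2 := by
              simp only [mul_pow]
              rw [lintegral_mul_const' _ _ (ENNReal.pow_ne_top hBt)]
            rw [e7]
            calc _ ≤ (K ^ 2 * B ^ 2) ^ (1 / 2 : ℝ) :=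
                  ENNReal.rpow_le_rpow (mul_le_mul' haN le_rfl) (by norm_num)
              _ = _ := by rw [← mul_pow, hsqr]
        have h7 : ∫⁻ ξ, (‖a (ξ + h) - a ξ‖ₑ + ‖a ξ‖ₑ * B) ^ 2 ≤
            (K * ENNReal.ofReal (‖h‖ ^ s) + K * B) ^ 2 := by
          have h8 := pow_le_pow_left' h6 2
          have e9 : ((∫⁻ ξ, (‖a (ξ + h) - a ξ‖ₑ + ‖a ξ‖ₑ * B) ^ 2) ^ (1 / 2 : ℝ)) ^ 2 =
              ∫⁻ ξ, (‖a (ξ + h) - a ξ‖ₑ + ‖a ξ‖ₑ * B) ^ 2 := by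
            rw [← ENNReal.rpow_natCast, ← ENNReal.rpow_mul]
            norm_num
          rwa [e9] at h8
        refine (lintegral_mono fun ξ => pow_le_pow_left' (hpt ξ) 2).trans (h7.trans ?_)
        apply pow_le_pow_left'
        have hhs : 0 ≤ ‖h‖ ^ s := by positivity
        have e10 : B = ENNReal.ofReal (2 * ((m + 1) * L)) * ENNReal.ofReal (‖h‖ ^ s) := by
          rw [hB, ENNReal.ofReal_mul (by positivity)]
        calc K * ENNReal.ofReal (‖h‖ ^ s) + K * B =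
            (1 + ENNReal.ofReal (2 * ((m + 1) * L))) * K * ENNReal.ofReal (‖h‖ ^ s) := by
              rw [e10]
              ring
          _ ≤ ENNReal.ofReal (3 * (m + 1) * L) * K * ENNReal.ofReal (‖h‖ ^ s) := by
              gcongr
              rw [← ENNReal.ofReal_one, ← ENNReal.ofReal_add zero_le_one (by positivity)]
              apply ENNReal.ofReal_le_ofReal
              nlinarith) (by
      rintro D σ hσ P hP K a ⟨ha, haz, haN, haR⟩ hK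
      exact hC D σ hσ P hP V hV a ha haz K hK haN haR)
    N hN1 k M hM hNM σ hσ φ hφ (by
      intro i x hx1 hx2
      apply hφM i x
      · refine hx1.trans (le_of_eq ?_)
        push_cast
        ring
      · refine hx2.trans (le_of_eq ?_)
        push_cast
        ring) K hK g ⟨hg, hz, hN, hR⟩
  refine hmain.trans ?_
  apply ENNReal.rpow_le_rpow _ (by linarith)
  set X : ℝ := 1 + (M / k.factorial) ^ (1 / ((k : ℝ) + 1)) with hX
  have hX0 : 0 ≤ X := by positivity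
  have hfin : (((5 * (m + 1) * N) ^ (m + 1) : ℕ) : ℝ≥0∞) *
      ENNReal.ofReal (3 * (m + 1) * (2 * ((m + 1 : ℕ) : ℝ) * N)) ≤
      (c0.toNNReal : ℝ≥0∞) * ENNReal.ofReal (X ^ (m + 2)) := by
    have e1 : (((5 * (m + 1) * N) ^ (m + 1) : ℕ) : ℝ≥0∞) =
        ENNReal.ofReal (((5 * (m + 1) * N) ^ (m + 1) : ℕ) : ℝ) := (ENNReal.ofReal_natCast _).symm
    have e2 : (c0.toNNReal : ℝ≥0∞) = ENNReal.ofReal c0 := rfl
    rw [e1, e2, ← ENNReal.ofReal_mul (by positivity), ← ENNReal.ofReal_mul (by positivity)]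
    apply ENNReal.ofReal_le_ofReal
    push_cast
    have h1 : (N : ℝ) ^ (m + 2) ≤ (4 * X) ^ (m + 2) := by gcongr
    calc (5 * ((m : ℝ) + 1) * N) ^ (m + 1) * (3 * (m + 1) * (2 * (m + 1) * N)) =
        (5 * ((m : ℝ) + 1)) ^ (m + 1) * (3 * (m + 1) * (2 * (m + 1))) * (N : ℝ) ^ (m + 2) := by
          rw [mul_pow, pow_succ (N : ℝ) (m + 1)]
          ring
      _ ≤ (5 * ((m : ℝ) + 1)) ^ (m + 1) * (3 * (m + 1) * (2 * (m + 1))) * (4 * X) ^ (m + 2) := by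
          gcongr
      _ = _ := by
          rw [hc0, mul_pow]
          ring
  calc _ = ((((5 * (m + 1) * N) ^ (m + 1) : ℕ) : ℝ≥0∞) *
        ENNReal.ofReal (3 * (m + 1) * (2 * ((m + 1 : ℕ) : ℝ) * N))) *
          (C * cD k ^ (m + 1) * K) := by ring
    _ ≤ ((c0.toNNReal : ℝ≥0∞) * ENNReal.ofReal (X ^ (m + 2))) * (C * cD k ^ (m + 1) * K) :=
        mul_le_mul' hfin le_rfl
    _ = _ := by
        rw [ENNReal.coe_mul]
        ring

end Pool.Agent.Y183.PR
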