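import Pool.Agent.Y183.PR.W
set_option autoImplicit false

/-! Smooth and analytic phases: the loss in the size of the phase. -/

namespace Pool.Agent.Y183.PR

open MeasureTheory Set Filter Topology Complex Matrix
open scoped ENNReal NNReal
open Pool.Agent.Y183.LS (BA)
open Pool.Agent.Y183.PQ (cD cD_one cD_top)

lemma phF_mul {n : ℕ} (σ : Fin n → Fin n) (φ : Fin n → ℝ × ℝ → ℝ) (l : ℝ) (x : Fin n → ℝ) :
    phF σ (fun i y => l * φ i y) x = l * phF σ φ x := by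
  unfold phF
  rw [Finset.mul_sum]

lemma der_mul {l : ℝ} (hl : 0 ≤ l) {φ : ℝ × ℝ → ℝ} {k : ℕ} (hφ : ContDiff ℝ (k : ℕ) φ)
    (x : ℝ × ℝ) :
    ‖iteratedFDeriv ℝ k (fun y => l * φ y) x‖ = l * ‖iteratedFDeriv ℝ k φ x‖ := by
  have h := iteratedFDeriv_const_smul_apply (𝕜 := ℝ) (a := l) (i := k) (x := x) (f := φ)
    hφ.contDiffAt
  have e : (fun y => l * φ y) = l • φ := by
    ext y
    simp
  rw [e, h, norm_smul, Real.norm_eq_abs, abs_of_nonneg hl]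

/-- a bound of all derivatives on the box -/
lemma der_bd {n : ℕ} (φ : Fin n → ℝ × ℝ → ℝ) (hφ : ∀ i, ContDiff ℝ (⊤ : ℕ∞) (φ i)) (k : ℕ) (R : ℝ) :
    ∃ M : ℝ, 0 ≤ M ∧ ∀ i, ∀ x : ℝ × ℝ, |x.1| ≤ R → |x.2| ≤ R →
      ‖iteratedFDeriv ℝ k (φ i) x‖ ≤ M := by
  have h1 : ∀ i, ∃ M : ℝ, ∀ x ∈ Icc ((-R, -R) : ℝ × ℝ) (R, R), ‖iteratedFDeriv ℝ k (φ i) x‖ ≤ M := by
    intro i
    apply isCompact_Icc.exists_bound_of_continuousOn
    apply Continuous.continuousOn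
    exact (hφ i).continuous_iteratedFDeriv (by exact_mod_cast le_top)
  choose M hM using h1
  refine ⟨∑ i, |M i|, Finset.sum_nonneg fun i _ => abs_nonneg _, ?_⟩
  intro i x hx1 hx2
  have h2 := hM i x ⟨⟨(abs_le.mp hx1).1, (abs_le.mp hx2).1⟩, ⟨(abs_le.mp hx1).2, (abs_le.mp hx2).2⟩⟩
  refine h2.trans ((le_abs_self _).trans ?_)
  exact Finset.single_le_sum (f := fun i => |M i|) (fun i _ => abs_nonneg _) (Finset.mem_univ i)

/-- the size for smooth phases -/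
lemma size_smooth (m k : ℕ) (M l ε : ℝ) (hM : 0 ≤ M) (hl : 1 ≤ l)
    (hk : ((m : ℝ) + 2) / ((k : ℝ) + 1) ≤ ε) :
    (1 + (l * M / k.factorial) ^ (1 / ((k : ℝ) + 1))) ^ (m + 2) ≤
      l ^ ε * (1 + (M / k.factorial) ^ (1 / ((k : ℝ) + 1))) ^ (m + 2) := by
  have hk0 : (0 : ℝ) < (k : ℝ) + 1 := by positivity
  have hl0 : 0 ≤ l := by linarith
  have e1 : (l * M / k.factorial) ^ (1 / ((k : ℝ) + 1)) =
      l ^ (1 / ((k : ℝ) + 1)) * (M / k.factorial) ^ (1 / ((k : ℝ) + 1)) := by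
    rw [mul_div_assoc, Real.mul_rpow hl0 (by positivity)]
  have h1 : 1 ≤ l ^ (1 / ((k : ℝ) + 1)) := Real.one_le_rpow hl (by positivity)
  set c : ℝ := (M / k.factorial) ^ (1 / ((k : ℝ) + 1)) with hc
  have hc0 : 0 ≤ c := by positivity
  have h2 : 1 + l ^ (1 / ((k : ℝ) + 1)) * c ≤ l ^ (1 / ((k : ℝ) + 1)) * (1 + c) := by
    rw [mul_add, mul_one]
    linarith
  have h3 : (l ^ (1 / ((k : ℝ) + 1))) ^ (m + 2) ≤ l ^ ε := by
    rw [← Real.rpow_natCast, ← Real.rpow_mul hl0]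
    apply Real.rpow_le_rpow_of_exponent_le hl
    refine le_trans (le_of_eq ?_) hk
    push_cast
    ring
  rw [e1]
  calc (1 + l ^ (1 / ((k : ℝ) + 1)) * c) ^ (m + 2) ≤ (l ^ (1 / ((k : ℝ) + 1)) * (1 + c)) ^ (m + 2) := by
        gcongr
    _ = (l ^ (1 / ((k : ℝ) + 1))) ^ (m + 2) * (1 + c) ^ (m + 2) := mul_pow _ _ _
    _ ≤ _ := by gcongr

/-- the size for analytic phases -/
lemma size_an (m k : ℕ) (A R l : ℝ) (hA : 1 ≤ A) (hR : 0 ≤ R) (hl : 1 ≤ l)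
    (hk : Real.log l ≤ k) :
    (1 + (l * (A * R ^ (k + 1) * (k + 1).factorial) / k.factorial) ^ (1 / ((k : ℝ) + 1))) ^ (m + 2) ≤
      6 ^ (m + 2) * (A * (1 + R)) ^ (m + 2) := by
  have hk0 : (0 : ℝ) < (k : ℝ) + 1 := by positivity
  have hl0 : 0 < l := by linarith
  have he : Real.exp 1 < 3 := by
    have := Real.exp_one_lt_d9
    linarith
  have he0 : 0 < Real.exp 1 := Real.exp_pos 1
  have h1 : l * (A * R ^ (k + 1) * (k + 1).factorial) / k.factorial ≤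
      (2 * Real.exp 1 * R * A) ^ (k + 1) := by
    have e1 : l * (A * R ^ (k + 1) * (k + 1).factorial) / k.factorial =
        l * A * R ^ (k + 1) * ((k : ℝ) + 1) := by
      rw [Nat.factorial_succ]
      push_cast
      have : (k.factorial : ℝ) ≠ 0 := by positivity
      field_simp
    have h2 : l ≤ Real.exp 1 ^ (k + 1) := by
      rw [← Real.exp_nat_mul]
      calc l = Real.exp (Real.log l) := (Real.exp_log hl0).symm
        _ ≤ _ := by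
          apply Real.exp_le_exp.mpr
          push_cast
          linarith
    have h3 : A ≤ A ^ (k + 1) := by
      calc A = A ^ 1 := (pow_one A).symm
        _ ≤ _ := pow_le_pow_right₀ hA (by omega)
    have h4 : ((k : ℝ) + 1) ≤ 2 ^ (k + 1) := by
      have := (Nat.lt_two_pow_self (n := k + 1)).le
      exact_mod_cast this
    have hA0 : 0 ≤ A := by linarith
    rw [e1, mul_pow, mul_pow, mul_pow]
    calc l * A * R ^ (k + 1) * ((k : ℝ) + 1) ≤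
        Real.exp 1 ^ (k + 1) * A ^ (k + 1) * R ^ (k + 1) * 2 ^ (k + 1) := by gcongr
      _ = _ := by ring
  have hA0 : 0 ≤ A := by linarith
  have h5 : (l * (A * R ^ (k + 1) * (k + 1).factorial) / k.factorial) ^ (1 / ((k : ℝ) + 1)) ≤
      2 * Real.exp 1 * R * A := by
    calc _ ≤ ((2 * Real.exp 1 * R * A) ^ (k + 1)) ^ (1 / ((k : ℝ) + 1)) := by
          apply Real.rpow_le_rpow (by positivity) h1 (by positivity)
      _ = _ := by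
          rw [one_div, ← Nat.cast_add_one, Real.pow_rpow_inv_natCast (by positivity) (by omega)]
  have h6 : 2 * Real.exp 1 * R * A ≤ 6 * R * A := by gcongr; linarith
  rw [← mul_pow]
  have h7 : 0 ≤ (l * (A * R ^ (k + 1) * (k + 1).factorial) / k.factorial) ^ (1 / ((k : ℝ) + 1)) := by
    positivity
  gcongr
  nlinarith

/-- **smooth phases**: the loss is an arbitrarily small power -/
theorem smoothEps (m : ℕ) (q : ℝ) (hq : 2 * (((m + 1 : ℕ) : ℝ) + 1) / ((m + 1 : ℕ) : ℝ) < q)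
    (σ : Fin (m + 1) → Fin (m + 1)) (hσ : ∀ i, σ (σ i) = i)
    (φ : Fin (m + 1) → ℝ × ℝ → ℝ) (hφ : ∀ i, ContDiff ℝ (⊤ : ℕ∞) (φ i)) (ε : ℝ) (hε : 0 < ε) :
    ∃ C : ℝ≥0, ∀ l : ℝ, 1 ≤ l →
    ∀ V : Matrix (Fin (m + 1)) (Fin (m + 1)) ℝ, Vᵀ * V = 1 →
    ∀ g : (Fin (m + 1) → ℝ) → ℂ, Measurable g → (∀ ξ, ξ ∉ BA 1 (m + 1) → g ξ = 0) →
    ∀ K : ℝ≥0∞, K ≠ ∞ → ∫⁻ ξ, ‖g ξ‖ₑ ^ 2 ≤ K ^ 2 →
    (∀ h : Fin (m + 1) → ℝ, ∫⁻ ξ, ‖g (ξ + h) - g ξ‖ₑ ^ 2 ≤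
      (K * ENNReal.ofReal (‖h‖ ^ (((m + 1 : ℕ) : ℝ) / (2 * (((m + 1 : ℕ) : ℝ) + 1))))) ^ 2) →
    ∫⁻ y : (Fin (m + 1) → ℝ) × ℝ, ‖Pool.Agent.H728R3.SR.ext
      (fun ξ => g ξ * cexp (Complex.I * (l * phF σ φ (V *ᵥ ξ) : ℝ))) y‖ₑ ^ q ≤
        (C * ENNReal.ofReal (l ^ ε) * K) ^ q := by
  obtain ⟨C, hC⟩ := smoothFull m q hq
  have hq0 : 0 < q := lt_trans (by positivity) hq
  obtain ⟨k, hk⟩ := exists_nat_gt (((m : ℝ) + 2) / ε)
  have hk1 : ((m : ℝ) + 2) / ((k : ℝ) + 1) ≤ ε := by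
    rw [div_lt_iff₀ hε] at hk
    rw [div_le_iff₀ (by positivity)]
    nlinarith
  obtain ⟨M, hM, hMb⟩ := der_bd φ hφ (k + 1) (m + 3)
  set c : ℝ := (1 + (M / k.factorial) ^ (1 / ((k : ℝ) + 1))) ^ (m + 2) with hc
  have hc0 : 0 ≤ c := by positivity
  have hcD : cD k ≠ ∞ := cD_top k
  refine ⟨C * (cD k).toNNReal ^ (m + 1) * c.toNNReal, ?_⟩
  intro l hl V hV g hg hz K hK hN hR
  have hl0 : 0 ≤ l := by linarith
  have h := hC k (l * M) (by positivity) σ hσ (fun i x => l * φ i x) (fun i => by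
    have h1 : ContDiff ℝ ((k + 1 : ℕ) : WithTop ℕ∞) (φ i) := (hφ i).of_le (by exact_mod_cast le_top)
    exact contDiff_const.mul h1) (fun i x hx1 hx2 => by
    have h1 : ContDiff ℝ ((k + 1 : ℕ) : WithTop ℕ∞) (φ i) := (hφ i).of_le (by exact_mod_cast le_top)
    rw [der_mul hl0 h1]
    exact mul_le_mul_of_nonneg_left (hMb i x hx1 hx2) hl0) V hV g hg hz K hK hN hR
  simp only [phF_mul] at h
  refine h.trans ?_
  apply ENNReal.rpow_le_rpow _ hq0.le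
  have h2 := size_smooth m k M l ε hM hl hk1
  have h3 : ENNReal.ofReal ((1 + (l * M / k.factorial) ^ (1 / ((k : ℝ) + 1))) ^ (m + 2)) ≤
      ENNReal.ofReal (l ^ ε) * (c.toNNReal : ℝ≥0∞) := by
    have e2 : (c.toNNReal : ℝ≥0∞) = ENNReal.ofReal c := rfl
    rw [e2, ← ENNReal.ofReal_mul (by positivity)]
    exact ENNReal.ofReal_le_ofReal h2
  calc _ ≤ (C : ℝ≥0∞) * cD k ^ (m + 1) * (ENNReal.ofReal (l ^ ε) * (c.toNNReal : ℝ≥0∞)) * K := by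
        gcongr
    _ = _ := by
        rw [ENNReal.coe_mul, ENNReal.coe_mul, ENNReal.coe_pow, ENNReal.coe_toNNReal hcD]
        ring

/-- **analytic phases**: the loss is a power of the logarithm -/
theorem analyticLog (m : ℕ) (q : ℝ) (hq : 2 * (((m + 1 : ℕ) : ℝ) + 1) / ((m + 1 : ℕ) : ℝ) < q) :
    ∃ C : ℝ≥0, ∀ A R : ℝ, 1 ≤ A → 0 ≤ R →
    ∀ σ : Fin (m + 1) → Fin (m + 1), (∀ i, σ (σ i) = i) →
    ∀ φ : Fin (m + 1) → ℝ × ℝ → ℝ, (∀ i, ContDiff ℝ (⊤ : ℕ∞) (φ i)) →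
    (∀ i, ∀ k : ℕ, ∀ x : ℝ × ℝ, |x.1| ≤ m + 3 → |x.2| ≤ m + 3 →
      ‖iteratedFDeriv ℝ k (φ i) x‖ ≤ A * R ^ k * k.factorial) →
    ∀ l : ℝ, 1 ≤ l →
    ∀ V : Matrix (Fin (m + 1)) (Fin (m + 1)) ℝ, Vᵀ * V = 1 →
    ∀ g : (Fin (m + 1) → ℝ) → ℂ, Measurable g → (∀ ξ, ξ ∉ BA 1 (m + 1) → g ξ = 0) →
    ∀ K : ℝ≥0∞, K ≠ ∞ → ∫⁻ ξ, ‖g ξ‖ₑ ^ 2 ≤ K ^ 2 →
    (∀ h : Fin (m + 1) → ℝ, ∫⁻ ξ, ‖g (ξ + h) - g ξ‖ₑ ^ 2 ≤
      (K * ENNReal.ofReal (‖h‖ ^ (((m + 1 : ℕ) : ℝ) / (2 * (((m + 1 : ℕ) : ℝ) + 1))))) ^ 2) →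
    ∫⁻ y : (Fin (m + 1) → ℝ) × ℝ, ‖Pool.Agent.H728R3.SR.ext
      (fun ξ => g ξ * cexp (Complex.I * (l * phF σ φ (V *ᵥ ξ) : ℝ))) y‖ₑ ^ q ≤
        (C * ENNReal.ofReal ((A * (1 + R)) ^ (m + 2) * (2 + Real.log l) ^ (5 * (m + 1))) * K) ^ q := by
  obtain ⟨C, hC⟩ := smoothFull m q hq
  have hq0 : 0 < q := lt_trans (by positivity) hq
  refine ⟨C * 6 ^ (m + 2), ?_⟩
  intro A R hA hR σ hσ φ hφ hφb l hl V hV g hg hz K hK hN hR'
  have hl0 : 0 ≤ l := by linarith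
  have hlog : 0 ≤ Real.log l := Real.log_nonneg hl
  set k : ℕ := ⌈Real.log l⌉₊ with hk
  have hk1 : Real.log l ≤ k := Nat.le_ceil _
  have hk2 : (k : ℝ) < Real.log l + 1 := Nat.ceil_lt_add_one hlog
  have h := hC k (l * (A * R ^ (k + 1) * (k + 1).factorial)) (by positivity) σ hσ
    (fun i x => l * φ i x) (fun i => by
    have h1 : ContDiff ℝ ((k + 1 : ℕ) : WithTop ℕ∞) (φ i) := (hφ i).of_le (by exact_mod_cast le_top)
    exact contDiff_const.mul h1) (fun i x hx1 hx2 => by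
    have h1 : ContDiff ℝ ((k + 1 : ℕ) : WithTop ℕ∞) (φ i) := (hφ i).of_le (by exact_mod_cast le_top)
    rw [der_mul hl0 h1]
    exact mul_le_mul_of_nonneg_left (hφb i (k + 1) x hx1 hx2) hl0) V hV g hg hz K hK hN hR'
  simp only [phF_mul] at h
  refine h.trans ?_
  apply ENNReal.rpow_le_rpow _ hq0.le
  have h2 := size_an m k A R l hA hR hl hk1
  have h4 : cD k ^ (m + 1) ≤ ENNReal.ofReal ((2 + Real.log l) ^ (5 * (m + 1))) := by
    unfold cD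
    rw [← ENNReal.ofReal_pow (by positivity)]
    apply ENNReal.ofReal_le_ofReal
    rw [← pow_mul]
    apply pow_le_pow_left₀ (by positivity)
    linarith
  have hA0 : 0 ≤ A := by linarith
  calc _ ≤ (C : ℝ≥0∞) * ENNReal.ofReal ((2 + Real.log l) ^ (5 * (m + 1))) *
        ENNReal.ofReal (6 ^ (m + 2) * (A * (1 + R)) ^ (m + 2)) * K := by
        gcongr
    _ = _ := by
        rw [ENNReal.coe_mul, ENNReal.ofReal_mul (by positivity), ENNReal.ofReal_mul (by positivity)]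
        have e6 : ENNReal.ofReal (6 ^ (m + 2)) = (6 : ℝ≥0∞) ^ (m + 2) := by
          rw [ENNReal.ofReal_pow (by norm_num)]
          norm_num
        rw [e6]
        push_cast
        ring

end Pool.Agent.Y183.PR
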